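import Mathlib

set_option autoImplicit false

open Finset

noncomputable section

namespace Pool.Agent.H145Z.FP

/-! Parameters of a mixed Tsirelson type norm. -/

def m (j : ℕ) : ℕ := 2 ^ (2 ^ j)

def nu : ℕ → ℕ
  | 0 => 1
  | j + 1 => m (j + 1) * (2 * nu j) ^ (2 ^ (j + 1) + 1)

def n (j : ℕ) : ℕ := nu (j + 1)

lemma m_succ (j : ℕ) : m (j + 1) = m j * m j := by
  unfold m; rw [pow_succ, pow_mul, sq]

lemma two_le_m (j : ℕ) : 2 ≤ m j := by
  unfold m
  calc 2 = 2 ^ 1 := by norm_num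
    _ ≤ 2 ^ (2 ^ j) := Nat.pow_le_pow_right (by norm_num) (Nat.one_le_two_pow)

lemma m_mono {i j : ℕ} (h : i ≤ j) : m i ≤ m j := by
  unfold m
  exact Nat.pow_le_pow_right (by norm_num) (Nat.pow_le_pow_right (by norm_num) h)

lemma lt_m (j : ℕ) : j < m j := by
  unfold m
  exact lt_trans (Nat.lt_two_pow_self) (Nat.lt_two_pow_self)

lemma sq_le_m (j : ℕ) : j * j ≤ m j := by
  cases j with
  | zero => simp
  | succ j =>
    rw [m_succ]
    exact Nat.mul_le_mul (lt_m j) (lt_m j)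

lemma one_le_nu (j : ℕ) : 1 ≤ nu j := by
  induction j with
  | zero => simp [nu]
  | succ j ih =>
    unfold nu
    have h1 := two_le_m (j + 1)
    have h2 : 1 ≤ (2 * nu j) ^ (2 ^ (j + 1) + 1) := Nat.one_le_pow _ _ (by omega)
    nlinarith

lemma n_eq (j : ℕ) : n j = m (j + 1) * (2 * nu j) ^ (2 ^ (j + 1) + 1) := rfl

lemma pow_le_n (j p : ℕ) (hp : p ≤ 2 ^ (j + 1) + 1) : m (j + 1) * (2 * nu j) ^ p ≤ n j := by
  rw [n_eq]
  have := one_le_nu j
  exact Nat.mul_le_mul_left _ (Nat.pow_le_pow_right (by omega) hp)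

lemma nu_le_succ (j : ℕ) : nu j ≤ nu (j + 1) := by
  have h := pow_le_n j 1 (by simp)
  have h1 := two_le_m (j + 1)
  unfold n at h
  nlinarith

lemma nu_mono {i j : ℕ} (h : i ≤ j) : nu i ≤ nu j := monotone_nat_of_le_succ nu_le_succ h

lemma n_le_nu {i j : ℕ} (h : i < j) : n i ≤ nu j := nu_mono h

lemma n_mono {i j : ℕ} (h : i ≤ j) : n i ≤ n j := nu_mono (by omega)

lemma m_le_n (j : ℕ) : m (j + 1) ≤ n j := by
  simpa using pow_le_n j 0 (by simp)

lemma lt_n (j : ℕ) : j + 1 < n j := lt_of_lt_of_le (lt_m _) (m_le_n j)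

lemma mR_pos (j : ℕ) : (0 : ℝ) < m j := by
  have := two_le_m j
  exact_mod_cast (by omega : 0 < m j)

lemma two_le_mR (j : ℕ) : (2 : ℝ) ≤ m j := by exact_mod_cast two_le_m j

lemma mR_mono {i j : ℕ} (h : i ≤ j) : (m i : ℝ) ≤ m j := by exact_mod_cast m_mono h

lemma nR_pos (j : ℕ) : (0 : ℝ) < n j := by
  have := lt_n j
  exact_mod_cast (by omega : 0 < n j)

lemma mR_succ (j : ℕ) : (m (j + 1) : ℝ) = m j * m j := by exact_mod_cast m_succ j

/-- the coding of the weights along a special sequence of sets -/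
def code (h : ℕ) (A : ℕ → Finset ℕ) : ℕ → ℕ
  | 0 => 3 * n h
  | r + 1 => 3 * (n h + 1 + Encodable.encode (code h A r, A r))

lemma code_mod (h : ℕ) (A : ℕ → Finset ℕ) (r : ℕ) : code h A r % 3 = 0 := by
  cases r <;> simp [code]

lemma le_code (h : ℕ) (A : ℕ → Finset ℕ) (r : ℕ) : n h ≤ code h A r := by
  cases r with
  | zero => simp only [code]; omega
  | succ r => simp only [code]; omega

lemma code_inj (h : ℕ) (A A' : ℕ → Finset ℕ) :
    ∀ r s, code h A r = code h A' s → r = s ∧ ∀ q < r, A q = A' q := by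
  intro r
  induction r with
  | zero =>
    intro s hs
    cases s with
    | zero => simp
    | succ s => simp only [code] at hs; omega
  | succ r ih =>
    intro s hs
    cases s with
    | zero => simp only [code] at hs; omega
    | succ s =>
      simp only [code] at hs
      have h1 : Encodable.encode (code h A r, A r) = Encodable.encode (code h A' s, A' s) := by
        omega
      have h2 := Encodable.encode_injective h1
      simp only [Prod.mk.injEq] at h2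
      obtain ⟨h3, h4⟩ := ih s h2.1
      subst h3
      refine ⟨rfl, fun q hq => ?_⟩
      rcases Nat.lt_succ_iff_lt_or_eq.1 hq with h5 | h5
      · exact h4 q h5
      · subst h5; exact h2.2

/-- restriction of a sequence to the coordinates seen by one child of a node of weight `j` -/
def rs (j : ℕ) (A : Finset ℕ) (x : ℕ → ℝ) : ℕ → ℝ :=
  fun a => if a / 2 ∈ A ∧ (j % 3 = 2 → a % 4 = 0) then x a else 0

/-- the weighted seminorms -/
inductive W : ℕ → ((ℕ → ℝ) → ℝ) → Prop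
  | leaf (a : ℕ) (ha : a % 4 < 2) : W 0 (fun x => |x a|)
  | node (j : ℕ) (R : Finset ℕ) (A : ℕ → Finset ℕ) (w : ℕ → ℕ) (φ : ℕ → (ℕ → ℝ) → ℝ)
      (hR : R.card ≤ n j)
      (hA : ∀ r ∈ R, ∀ s ∈ R, r < s → ∀ a ∈ A r, ∀ b ∈ A s, a < b)
      (hφ : ∀ r, r ∈ R → W (w r) (φ r))
      (hsp : j % 3 = 1 → ∀ r ∈ R, w r = code j A r + 1) :
      W (j + 1) (fun x => (∑ r ∈ R, φ r (rs j (A r) x)) / m j)

/-- the norming family -/
def K (φ : (ℕ → ℝ) → ℝ) : Prop := (∃ a, φ = fun x => |x a|) ∨ ∃ w, W w φ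

lemma W.K {w : ℕ} {φ : (ℕ → ℝ) → ℝ} (h : W w φ) : K φ := Or.inr ⟨w, h⟩

lemma K_leaf (a : ℕ) : K (fun x => |x a|) := Or.inl ⟨a, rfl⟩

lemma rs_add (j : ℕ) (A : Finset ℕ) (x y : ℕ → ℝ) : rs j A (x + y) = rs j A x + rs j A y := by
  funext a; simp only [rs, Pi.add_apply]; split_ifs <;> simp

lemma rs_smul (j : ℕ) (A : Finset ℕ) (c : ℝ) (x : ℕ → ℝ) : rs j A (c • x) = c • rs j A x := by
  funext a; simp only [rs, Pi.smul_apply]; split_ifs <;> simp

lemma abs_rs_le (j : ℕ) (A : Finset ℕ) (x : ℕ → ℝ) (a : ℕ) : |rs j A x a| ≤ |x a| := by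
  simp only [rs]; split_ifs <;> simp

lemma continuous_rs (j : ℕ) (A : Finset ℕ) : Continuous (rs j A) := by
  refine continuous_pi fun a => ?_
  simp only [rs]
  split_ifs
  · exact continuous_apply a
  · exact continuous_const

lemma W.nonneg {w : ℕ} {φ : (ℕ → ℝ) → ℝ} (h : W w φ) : ∀ x, 0 ≤ φ x := by
  induction h with
  | leaf a ha => intro x; exact abs_nonneg _
  | node j R A w φ hR hA hφ hsp ih =>
    intro x
    exact div_nonneg (sum_nonneg fun r hr => ih r hr _) (mR_pos j).le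

lemma W.add_le {w : ℕ} {φ : (ℕ → ℝ) → ℝ} (h : W w φ) : ∀ x y, φ (x + y) ≤ φ x + φ y := by
  induction h with
  | leaf a ha => intro x y; exact abs_add_le _ _
  | node j R A w φ hR hA hφ hsp ih =>
    intro x y
    rw [← add_div, ← sum_add_distrib]
    refine div_le_div_of_nonneg_right (sum_le_sum fun r hr => ?_) (mR_pos j).le
    rw [rs_add]; exact ih r hr _ _

lemma W.smul {w : ℕ} {φ : (ℕ → ℝ) → ℝ} (h : W w φ) : ∀ (c : ℝ) x, φ (c • x) = |c| * φ x := by
  induction h with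
  | leaf a ha => intro c x; simp [abs_mul]
  | node j R A w φ hR hA hφ hsp ih =>
    intro c x
    show (∑ r ∈ R, φ r (rs j (A r) (c • x))) / m j = |c| * ((∑ r ∈ R, φ r (rs j (A r) x)) / m j)
    rw [← mul_div_assoc, mul_sum, sum_congr rfl fun r hr => by rw [rs_smul, ih r hr]]

lemma W.mono {w : ℕ} {φ : (ℕ → ℝ) → ℝ} (h : W w φ) :
    ∀ x y : ℕ → ℝ, (∀ a, a % 4 < 2 → |x a| ≤ |y a|) → φ x ≤ φ y := by
  induction h with
  | leaf a ha => intro x y hxy; exact hxy a ha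
  | node j R A w φ hR hA hφ hsp ih =>
    intro x y hxy
    refine div_le_div_of_nonneg_right (sum_le_sum fun r hr => ih r hr _ _ fun a ha => ?_)
      (mR_pos j).le
    simp only [rs]
    split_ifs
    · exact hxy a ha
    · exact le_rfl

lemma W.cont {w : ℕ} {φ : (ℕ → ℝ) → ℝ} (h : W w φ) : Continuous φ := by
  induction h with
  | leaf a ha => exact (continuous_apply a).abs
  | node j R A w φ hR hA hφ hsp ih =>
    exact (continuous_finsetSum _ fun r hr => (ih r hr).comp (continuous_rs j (A r))).div_const _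

lemma W.zero {w : ℕ} {φ : (ℕ → ℝ) → ℝ} (h : W w φ) : φ 0 = 0 := by
  simpa using h.smul 0 0

lemma W.eq_zero {w : ℕ} {φ : (ℕ → ℝ) → ℝ} (h : W w φ) {x : ℕ → ℝ}
    (hx : ∀ a, a % 4 < 2 → x a = 0) : φ x = 0 := by
  refine le_antisymm ?_ (h.nonneg x)
  rw [← h.zero]
  exact h.mono _ _ fun a ha => by simp [hx a ha]

lemma K.nonneg {φ : (ℕ → ℝ) → ℝ} (h : K φ) (x : ℕ → ℝ) : 0 ≤ φ x := by
  rcases h with ⟨a, rfl⟩ | ⟨w, h⟩
  · exact abs_nonneg _
  · exact h.nonneg x

lemma K.add_le {φ : (ℕ → ℝ) → ℝ} (h : K φ) (x y : ℕ → ℝ) : φ (x + y) ≤ φ x + φ y := by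
  rcases h with ⟨a, rfl⟩ | ⟨w, h⟩
  · exact abs_add_le _ _
  · exact h.add_le x y

lemma K.smul {φ : (ℕ → ℝ) → ℝ} (h : K φ) (c : ℝ) (x : ℕ → ℝ) : φ (c • x) = |c| * φ x := by
  rcases h with ⟨a, rfl⟩ | ⟨w, h⟩
  · simp [abs_mul]
  · exact h.smul c x

lemma K.mono {φ : (ℕ → ℝ) → ℝ} (h : K φ) {x y : ℕ → ℝ} (hxy : ∀ a, |x a| ≤ |y a|) :
    φ x ≤ φ y := by
  rcases h with ⟨a, rfl⟩ | ⟨w, h⟩
  · exact hxy a
  · exact h.mono x y fun a _ => hxy a

lemma K.cont {φ : (ℕ → ℝ) → ℝ} (h : K φ) : Continuous φ := by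
  rcases h with ⟨a, rfl⟩ | ⟨w, h⟩
  · exact (continuous_apply a).abs
  · exact h.cont

lemma K.zero {φ : (ℕ → ℝ) → ℝ} (h : K φ) : φ 0 = 0 := by
  simpa using h.smul 0 0

lemma K.sum_le {φ : (ℕ → ℝ) → ℝ} (h : K φ) {ι : Type*} (s : Finset ι) (x : ι → ℕ → ℝ) :
    φ (∑ i ∈ s, x i) ≤ ∑ i ∈ s, φ (x i) := by
  classical
  induction s using Finset.induction_on with
  | empty => simp [h.zero]
  | insert i s hi ih =>
    rw [sum_insert hi, sum_insert hi]
    exact (h.add_le _ _).trans (by linarith)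

lemma K.mono_mul {φ : (ℕ → ℝ) → ℝ} (h : K φ) {x y : ℕ → ℝ} {M : ℝ} (hM : 0 ≤ M)
    (hxy : ∀ a, |x a| ≤ M * |y a|) : φ x ≤ M * φ y := by
  have h1 : φ x ≤ φ (M • y) := h.mono fun a => by
    simpa [abs_mul, abs_of_nonneg hM] using hxy a
  rwa [h.smul, abs_of_nonneg hM] at h1

/-- a sum in which all terms but one are at most `β` -/
lemma sum_le_one_exc {ι : Type*} (s : Finset ι) (f : ι → ℝ) (k₀ : ι) {C β : ℝ} (hC : 0 ≤ C)
    (hβ : 0 ≤ β) (h1 : ∀ k ∈ s, f k ≤ C) (h2 : ∀ k ∈ s, k ≠ k₀ → f k ≤ β) :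
    ∑ k ∈ s, f k ≤ C + β * s.card := by
  classical
  have : ∀ k ∈ s, f k ≤ (if k = k₀ then C else 0) + β := by
    intro k hk
    split_ifs with h
    · linarith [h1 k hk]
    · linarith [h2 k hk h]
  refine (sum_le_sum this).trans ?_
  rw [sum_add_distrib, sum_ite_eq', sum_const, nsmul_eq_mul]
  split_ifs <;> nlinarith

lemma one_le_wt (w : ℕ) : (1 : ℝ) ≤ (if w = 0 then (1 : ℝ) else (m (w - 1) : ℝ)) := by
  by_cases h : w = 0
  · simp [h]
  · simp only [h, if_false]; linarith [two_le_mR (w - 1)]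

lemma W.single_le {w : ℕ} {φ : (ℕ → ℝ) → ℝ} (h : W w φ) :
    ∀ (a : ℕ) (x : ℕ → ℝ), (∀ b, b ≠ a → x b = 0) → 
      φ x ≤ |x a| / (if w = 0 then (1 : ℝ) else (m (w - 1) : ℝ)) := by
  induction h with
  | leaf b hb =>
    intro a x hx
    by_cases hba : b = a
    · subst hba; simp
    · simp [hx b hba]
  | node j R A w φ hR hA hφ hsp ih =>
    intro a x hx
    simp only [Nat.add_eq_zero_iff, one_ne_zero, and_false, if_false, Nat.add_sub_cancel]
    refine div_le_div_of_nonneg_right ?_ (mR_pos j).le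
    have hle : ∀ r ∈ R, φ r (rs j (A r) x) ≤ |x a| := by
      intro r hr
      refine le_trans (ih r hr a (rs j (A r) x) fun b hb => by simp [rs, hx b hb]) ?_
      exact le_trans (div_le_self (abs_nonneg _) (one_le_wt _)) (abs_rs_le j (A r) x a)
    by_cases hex : ∃ r ∈ R, a / 2 ∈ A r
    · obtain ⟨r₀, hr₀, ha⟩ := hex
      have := sum_le_one_exc R (fun r => φ r (rs j (A r) x)) r₀ (abs_nonneg (x a)) le_rfl hle
        (fun r hr hne => by
          refine le_of_eq ((hφ r hr).eq_zero fun b _ => ?_)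
          by_cases hb : b = a
          · subst hb
            have : b / 2 ∉ A r := by
              intro hmem
              rcases lt_or_gt_of_ne hne with h | h
              · exact lt_irrefl _ (hA r hr r₀ hr₀ h _ hmem _ ha)
              · exact lt_irrefl _ (hA r₀ hr₀ r hr h _ ha _ hmem)
            simp [rs, this]
          · simp [rs, hx b hb])
      simpa using this
    · push Not at hex
      refine le_trans (le_of_eq (sum_eq_zero fun r hr => (hφ r hr).eq_zero fun b _ => ?_))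
        (abs_nonneg _)
      by_cases hb : b = a
      · subst hb; simp [rs, hex r hr]
      · simp [rs, hx b hb]

lemma K.single_le {φ : (ℕ → ℝ) → ℝ} (h : K φ) (a : ℕ) (x : ℕ → ℝ) (hx : ∀ b, b ≠ a → x b = 0) :
    φ x ≤ |x a| := by
  rcases h with ⟨b, rfl⟩ | ⟨w, h⟩
  · by_cases hba : b = a
    · subst hba; simp
    · simp [hx b hba]
  · exact le_trans (h.single_le a x hx) (div_le_self (abs_nonneg _) (one_le_wt _))

lemma eq_sum_single (x : ℕ → ℝ) (F : Finset ℕ) (hx : ∀ a, a ∉ F → x a = 0) :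
    x = ∑ a ∈ F, (Pi.single a (x a) : ℕ → ℝ) := by
  funext b
  simp only [Finset.sum_apply, Pi.single_apply]
  rw [sum_ite_eq]
  split_ifs with h
  · rfl
  · exact hx b h

lemma K.le_l1 {φ : (ℕ → ℝ) → ℝ} (h : K φ) (x : ℕ → ℝ) (F : Finset ℕ) (hx : ∀ a, a ∉ F → x a = 0) :
    φ x ≤ ∑ a ∈ F, |x a| := by
  conv_lhs => rw [eq_sum_single x F hx]
  refine (h.sum_le _ _).trans (sum_le_sum fun a _ => ?_)
  simpa using h.single_le a (Pi.single a (x a)) fun b hb => by simp [hb]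

lemma W.le_l1 {i : ℕ} {φ : (ℕ → ℝ) → ℝ} (h : W (i + 1) φ) (x : ℕ → ℝ) (F : Finset ℕ)
    (hx : ∀ a, a ∉ F → x a = 0) : φ x ≤ (∑ a ∈ F, |x a|) / m i := by
  conv_lhs => rw [eq_sum_single x F hx]
  rw [sum_div]
  refine (h.K.sum_le _ _).trans (sum_le_sum fun a _ => ?_)
  simpa using h.single_le a (Pi.single a (x a)) fun b hb => by simp [hb]

/-- the formal identity from the coordinates `4 k` to the coordinates `4 k + 1` -/
def Jf (x : ℕ → ℝ) : ℕ → ℝ := fun a => if a % 4 = 1 then x (a - 1) else 0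

lemma W.pull {w : ℕ} {φ : (ℕ → ℝ) → ℝ} (h : W w φ) :
    ∃ ψ, W w ψ ∧ ∀ x, φ (Jf x) ≤ ψ x := by
  induction h with
  | leaf a ha =>
    by_cases h1 : a % 4 = 1
    · exact ⟨_, W.leaf (a - 1) (by omega), fun x => by simp [Jf, h1]⟩
    · exact ⟨_, W.leaf a ha, fun x => by simp [Jf, h1]⟩
  | node j R A w φ hR hA hφ hsp ih =>
    choose! ψ hψ hle using ih
    refine ⟨_, W.node j R A w ψ hR hA hψ hsp, fun x => ?_⟩
    refine div_le_div_of_nonneg_right (sum_le_sum fun r hr => ?_) (mR_pos j).le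
    by_cases hj : j % 3 = 2
    · refine le_trans (le_of_eq ((hφ r hr).eq_zero fun a _ => ?_)) ((hψ r hr).nonneg _)
      simp only [rs, Jf]
      split_ifs with h1 h2
      · have := h1.2 hj; omega
      · rfl
      · rfl
    · refine le_trans (le_of_eq ?_) (hle r hr (rs j (A r) x))
      congr 1
      funext a
      simp only [rs, Jf, hj, false_imp_iff, and_true]
      by_cases h1 : a % 4 = 1
      · have : (a - 1) / 2 = a / 2 := by omega
        simp [h1, this]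
      · simp [h1]

lemma K.pull {φ : (ℕ → ℝ) → ℝ} (h : K φ) : ∃ ψ, K ψ ∧ ∀ x, φ (Jf x) ≤ ψ x := by
  rcases h with ⟨a, rfl⟩ | ⟨w, h⟩
  · refine ⟨_, K_leaf (a - 1), fun x => ?_⟩
    simp only [Jf]; split_ifs <;> simp
  · obtain ⟨ψ, h1, h2⟩ := h.pull
    exact ⟨ψ, h1.K, h2⟩

end Pool.Agent.H145Z.FP
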