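import Pool.Agent.H145Z.FP.A

set_option autoImplicit false

open Finset

noncomputable section

namespace Pool.Agent.H145Z.FP

/-- successive supports -/
def Succ (B : Finset ℕ) (x : ℕ → ℕ → ℝ) : Prop :=
  ∀ k ∈ B, ∀ l ∈ B, k < l → ∀ a b, x k a ≠ 0 → x l b ≠ 0 → a / 2 < b / 2

lemma Succ.subset {B B' : Finset ℕ} {x : ℕ → ℕ → ℝ} (h : Succ B x) (hB : B' ⊆ B) : Succ B' x :=
  fun k hk l hl => h k (hB hk) l (hB hl)

open Classical in
lemma count_le {B : Finset ℕ} {x : ℕ → ℕ → ℝ} (hB : Succ B x) (A : ℕ → Finset ℕ) (R : Finset ℕ)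
    (hA : ∀ r ∈ R, ∀ s ∈ R, r < s → ∀ a ∈ A r, ∀ b ∈ A s, a < b) :
    ∑ r ∈ R, (B.filter fun k => ∃ a, x k a ≠ 0 ∧ a / 2 ∈ A r).card ≤ B.card + R.card := by
  have key : ∑ r ∈ R, (B.filter fun k => ∃ a, x k a ≠ 0 ∧ a / 2 ∈ A r).card ≤
      (R.biUnion fun r => B.filter fun k => ∃ a, x k a ≠ 0 ∧ a / 2 ∈ A r).card + R.card := by
    induction R using Finset.induction_on_max with
    | empty => simp
    | insert t R ht ih =>
      have htR : t ∉ R := fun h => lt_irrefl _ (ht t h)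
      have ih' := ih fun r hr s hs => hA r (mem_insert_of_mem hr) s (mem_insert_of_mem hs)
      rw [sum_insert htR, biUnion_insert, card_insert_of_notMem htR]
      have h1 := card_union_add_card_inter (B.filter fun k => ∃ a, x k a ≠ 0 ∧ a / 2 ∈ A t)
        (R.biUnion fun r => B.filter fun k => ∃ a, x k a ≠ 0 ∧ a / 2 ∈ A r)
      have h2 : ((B.filter fun k => ∃ a, x k a ≠ 0 ∧ a / 2 ∈ A t) ∩
          (R.biUnion fun r => B.filter fun k => ∃ a, x k a ≠ 0 ∧ a / 2 ∈ A r)).card ≤ 1 := by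
        rw [card_le_one]
        have aux : ∀ k ∈ ((B.filter fun k => ∃ a, x k a ≠ 0 ∧ a / 2 ∈ A t) ∩
            (R.biUnion fun r => B.filter fun k => ∃ a, x k a ≠ 0 ∧ a / 2 ∈ A r)),
            ∀ l ∈ ((B.filter fun k => ∃ a, x k a ≠ 0 ∧ a / 2 ∈ A t) ∩
            (R.biUnion fun r => B.filter fun k => ∃ a, x k a ≠ 0 ∧ a / 2 ∈ A r)), ¬ k < l := by
          intro k hk l hl hkl
          simp only [mem_inter, mem_filter, mem_biUnion] at hk hl
          obtain ⟨⟨hkB, a, ha, hat⟩, -⟩ := hk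
          obtain ⟨-, r, hr, hlB, b, hb, hbr⟩ := hl
          have h3 := hB k hkB l hlB hkl a b ha hb
          have h4 := hA r (mem_insert_of_mem hr) t (mem_insert_self _ _) (ht r hr) _ hbr _ hat
          omega
        intro k hk l hl
        have := aux k hk l hl
        have := aux l hl k hk
        omega
      omega
  refine key.trans (Nat.add_le_add_right (card_le_card ?_) _)
  intro k hk
  simp only [mem_biUnion, mem_filter] at hk
  obtain ⟨r, -, hk, -⟩ := hk
  exact hk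

lemma step {B : Finset ℕ} {x : ℕ → ℕ → ℝ} (hB : Succ B x) {α β : ℝ} (hα : 0 ≤ α) (hβ : 0 ≤ β)
    (Hb : ∀ w φ, W w φ → ∀ B' ⊆ B, ∑ k ∈ B', φ (x k) ≤ α + β * B'.card)
    {i : ℕ} {ψ : (ℕ → ℝ) → ℝ} (hψ : W (i + 1) ψ) :
    ∀ B' ⊆ B, ∑ k ∈ B', ψ (x k) ≤ (n i * (α + β) + β * B'.card) / m i := by
  classical
  intro B' hB'
  cases hψ with
  | node j R A w φ hR hA hφ hsp =>
    rw [← sum_div]
    refine div_le_div_of_nonneg_right ?_ (mR_pos _).le
    rw [sum_comm]
    have h1 : ∀ r ∈ R, ∑ k ∈ B', φ r (rs i (A r) (x k)) ≤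
        α + β * ((B'.filter fun k => ∃ a, x k a ≠ 0 ∧ a / 2 ∈ A r).card : ℝ) := by
      intro r hr
      refine le_trans ?_ (Hb _ _ (hφ r hr) _ ((filter_subset _ _).trans hB'))
      rw [sum_filter]
      refine sum_le_sum fun k _ => ?_
      split_ifs with hk
      · exact (hφ r hr).K.mono (abs_rs_le _ _ _)
      · refine le_of_eq ((hφ r hr).eq_zero fun a _ => ?_)
        push Not at hk
        by_cases ha : x k a = 0
        · simp [rs, ha]
        · simp [rs, hk a ha]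
    refine (sum_le_sum h1).trans ?_
    rw [sum_add_distrib, ← mul_sum, sum_const, nsmul_eq_mul]
    have h2 : (∑ r ∈ R, ((B'.filter fun k => ∃ a, x k a ≠ 0 ∧ a / 2 ∈ A r).card : ℝ)) ≤
        B'.card + R.card := by
      exact_mod_cast count_le (hB.subset hB') A R hA
    have h3 : (R.card : ℝ) ≤ n i := by exact_mod_cast hR
    nlinarith [mul_le_mul_of_nonneg_left h2 hβ, mul_le_mul_of_nonneg_right h3 hα,
      mul_le_mul_of_nonneg_right h3 hβ]

lemma leaf_sum {B : Finset ℕ} {x : ℕ → ℕ → ℝ} (hB : Succ B x) {C : ℝ} (hC0 : 0 ≤ C)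
    (hC : ∀ k ∈ B, ∀ φ, K φ → φ (x k) ≤ C) (a : ℕ) : ∑ k ∈ B, |x k a| ≤ C := by
  by_cases hex : ∃ k ∈ B, x k a ≠ 0
  · obtain ⟨k₀, hk₀, ha⟩ := hex
    have := sum_le_one_exc B (fun k => |x k a|) k₀ hC0 le_rfl
      (fun k hk => hC k hk _ (K_leaf a)) (fun k hk hne => by
        by_contra hcon
        have h1 : x k a ≠ 0 := fun h => hcon (by simp [h])
        rcases lt_or_gt_of_ne hne with h | h
        · exact lt_irrefl _ (hB k hk k₀ hk₀ h a a h1 ha)
        · exact lt_irrefl _ (hB k₀ hk₀ k hk h a a ha h1))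
    simpa using this
  · push Not at hex
    rw [sum_eq_zero fun k hk => by simp [hex k hk]]
    exact hC0

lemma basic {B : Finset ℕ} {x : ℕ → ℕ → ℝ} (hB : Succ B x) {C : ℝ} (hC0 : 0 ≤ C)
    (hC : ∀ k ∈ B, ∀ φ, K φ → φ (x k) ≤ C) (h : ℕ) {θ : ℝ} (hθ0 : 0 ≤ θ) (hθ1 : θ ≤ 1)
    (H : ∀ i, h ≤ i → ∀ ψ, W (i + 1) ψ → ∀ B' ⊆ B, ∑ k ∈ B', ψ (x k) ≤ C + C * θ * B'.card) :
    ∀ p : ℕ, ∀ φ, K φ → ∀ B' ⊆ B,
      ∑ k ∈ B', φ (x k) ≤ C * (2 * nu h) ^ p + C * max ((1 / 2) ^ p) θ * B'.card := by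
  have hν : (1 : ℝ) ≤ nu h := by exact_mod_cast one_le_nu h
  intro p
  induction p with
  | zero =>
    intro φ hφ B' hB'
    have h1 : ∑ k ∈ B', φ (x k) ≤ C * B'.card := by
      have := sum_le_sum fun k (hk : k ∈ B') => hC k (hB' hk) φ hφ
      rwa [sum_const, nsmul_eq_mul, mul_comm] at this
    have h2 : max ((1 / 2 : ℝ) ^ 0) θ = 1 := by simp [hθ1]
    rw [h2]
    simp only [pow_zero, mul_one]
    linarith
  | succ p ih =>
    intro φ hφ B' hB'
    have hp1 : (1 : ℝ) ≤ (2 * nu h) ^ p := one_le_pow₀ (by linarith)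
    have hp2 : (1 : ℝ) ≤ (2 * nu h) ^ (p + 1) := one_le_pow₀ (by linarith)
    have hm0 : 0 ≤ max ((1 / 2 : ℝ) ^ (p + 1)) θ := le_max_of_le_right hθ0
    have hcard : (0 : ℝ) ≤ B'.card := Nat.cast_nonneg _
    have hleaf : ∀ a, ∑ k ∈ B', |x k a| ≤
        C * (2 * nu h) ^ (p + 1) + C * max ((1 / 2) ^ (p + 1)) θ * B'.card := by
      intro a
      have := leaf_sum (hB.subset hB') hC0 (fun k hk => hC k (hB' hk)) a
      nlinarith [mul_nonneg (mul_nonneg hC0 hm0) hcard]
    rcases hφ with ⟨a, rfl⟩ | ⟨w, hw⟩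
    · exact hleaf a
    cases w with
    | zero => cases hw with
      | leaf a ha => exact hleaf a
    | succ i =>
      by_cases hi : h ≤ i
      · refine (H i hi φ hw B' hB').trans ?_
        have : C * θ * B'.card ≤ C * max ((1 / 2) ^ (p + 1)) θ * B'.card :=
          mul_le_mul_of_nonneg_right (mul_le_mul_of_nonneg_left (le_max_right _ _) hC0) hcard
        nlinarith
      · have hm1 : 0 ≤ max ((1 / 2 : ℝ) ^ p) θ := le_max_of_le_right hθ0
        have hm2 : max ((1 / 2 : ℝ) ^ p) θ ≤ 1 :=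
          max_le (pow_le_one₀ (by norm_num) (by norm_num)) hθ1
        have h1 := step hB (α := C * (2 * nu h) ^ p) (β := C * max ((1 / 2) ^ p) θ)
          (by positivity) (by positivity) (fun w φ hφ => ih φ hφ.K) hw B' hB'
        refine h1.trans ?_
        rw [div_le_iff₀ (mR_pos i)]
        have hn : (n i : ℝ) ≤ nu h := by exact_mod_cast n_le_nu (by omega)
        have hm := two_le_mR i
        have h2 : max ((1 / 2 : ℝ) ^ p) θ ≤ 2 * max ((1 / 2) ^ (p + 1)) θ := by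
          refine max_le ?_ ?_
          · have := le_max_left ((1 / 2 : ℝ) ^ (p + 1)) θ
            rw [pow_succ] at this ⊢
            linarith
          · have := le_max_right ((1 / 2 : ℝ) ^ (p + 1)) θ
            linarith
        have h3 : (n i : ℝ) * (C * (2 * nu h) ^ p + C * max ((1 / 2) ^ p) θ) ≤
            C * (2 * nu h) ^ (p + 1) := by
          have h4 : C * max ((1 / 2 : ℝ) ^ p) θ ≤ C * (2 * nu h) ^ p :=
            mul_le_mul_of_nonneg_left (hm2.trans hp1) hC0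
          calc (n i : ℝ) * (C * (2 * nu h) ^ p + C * max ((1 / 2) ^ p) θ)
              ≤ nu h * (C * (2 * nu h) ^ p + C * (2 * nu h) ^ p) :=
                mul_le_mul hn (by linarith) (by positivity) (by positivity)
            _ = C * (2 * nu h) ^ (p + 1) := by ring
        have h5 : C * max ((1 / 2 : ℝ) ^ p) θ * B'.card ≤
            C * (2 * max ((1 / 2) ^ (p + 1)) θ) * B'.card :=
          mul_le_mul_of_nonneg_right (mul_le_mul_of_nonneg_left h2 hC0) hcard
        have h6 : 0 ≤ C * (2 * (nu h : ℝ)) ^ (p + 1) := by positivity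
        have h7 : 0 ≤ C * max ((1 / 2 : ℝ) ^ (p + 1)) θ * B'.card := by positivity
        nlinarith

lemma basic' {B : Finset ℕ} {x : ℕ → ℕ → ℝ} (hB : Succ B x) {C : ℝ} (hC0 : 0 ≤ C)
    (hC : ∀ k ∈ B, ∀ φ, K φ → φ (x k) ≤ C) (h g : ℕ)
    (H : ∀ i, h ≤ i → ∀ ψ, W (i + 1) ψ → ∀ B' ⊆ B, ∑ k ∈ B', ψ (x k) ≤ C + C / m g * B'.card) :
    ∀ φ, K φ → ∀ B' ⊆ B,
      ∑ k ∈ B', φ (x k) ≤ C * (2 * nu h) ^ (2 ^ g) + C / m g * B'.card := by
  intro φ hφ B' hB'
  have hm := two_le_mR g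
  have := basic hB hC0 hC h (θ := 1 / m g) (by positivity)
    (by rw [div_le_one (by linarith)]; linarith)
    (fun i hi ψ hψ B' hB' => by simpa [div_eq_mul_inv] using H i hi ψ hψ B' hB') (2 ^ g) φ hφ B' hB'
  have h2 : (1 / 2 : ℝ) ^ (2 ^ g) = 1 / m g := by simp [m]
  rw [h2, max_self] at this
  simpa [div_eq_mul_inv] using this

lemma pow_le_nR (j p : ℕ) (hp : p ≤ 2 ^ (j + 1) + 1) :
    (2 * (nu j : ℝ)) ^ p ≤ n j / m (j + 1) := by
  rw [le_div_iff₀ (mR_pos _), mul_comm]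
  exact_mod_cast pow_le_n j p hp

/-- the selection property of a finite rapidly increasing family -/
def Sel (B : Finset ℕ) (x : ℕ → ℕ → ℝ) (j : ℕ) (C : ℝ) : Prop :=
  ∀ i, j ≤ i → ∃ k₀, ∀ k ∈ B, k ≠ k₀ → ∀ φ, W (i + 1) φ → φ (x k) ≤ C / m (min i (j + 1))

lemma Sel.H {B : Finset ℕ} {x : ℕ → ℕ → ℝ} {j : ℕ} {C : ℝ} (hS : Sel B x j C) (hC0 : 0 ≤ C)
    (hC : ∀ k ∈ B, ∀ φ, K φ → φ (x k) ≤ C) (g i : ℕ) (hi : j ≤ i) (hg : g ≤ min i (j + 1))
    (ψ : (ℕ → ℝ) → ℝ) (hψ : W (i + 1) ψ) (B' : Finset ℕ) (hB' : B' ⊆ B) :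
    ∑ k ∈ B', ψ (x k) ≤ C + C / m g * B'.card := by
  obtain ⟨k₀, hk₀⟩ := hS i hi
  refine sum_le_one_exc B' _ k₀ hC0 (div_nonneg hC0 (mR_pos _).le)
    (fun k hk => hC k (hB' hk) _ hψ.K) fun k hk hne => (hk₀ k (hB' hk) hne ψ hψ).trans ?_
  exact div_le_div_of_nonneg_left hC0 (mR_pos _) (mR_mono hg)

lemma E1 {B : Finset ℕ} {x : ℕ → ℕ → ℝ} (hB : Succ B x) {C : ℝ} (hC0 : 0 ≤ C)
    (hC : ∀ k ∈ B, ∀ φ, K φ → φ (x k) ≤ C) {j : ℕ} (hS : Sel B x j C) (hc : B.card ≤ n j) :
    (∀ φ, K φ → ∑ k ∈ B, φ (x k) ≤ 2 * C * (n j / m j)) ∧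
    (∀ i φ, W (i + 1) φ → i ≠ j → ∑ k ∈ B, φ (x k) ≤ 2 * C / m (min i j) * (n j / m j)) := by
  have hb := basic' hB hC0 hC j j fun i hi ψ hψ B' hB' =>
    hS.H hC0 hC j i hi (by omega) ψ hψ B' hB'
  have hcR : (B.card : ℝ) ≤ n j := by exact_mod_cast hc
  have hmj := mR_pos j
  have hν : (1 : ℝ) ≤ nu j := by exact_mod_cast one_le_nu j
  have hdiv : (n j : ℝ) / m (j + 1) ≤ n j / m j :=
    div_le_div_of_nonneg_left (nR_pos j).le hmj (mR_mono (by omega))
  have hp : 2 ^ j ≤ 2 ^ (j + 1) := Nat.pow_le_pow_right (by norm_num) (by omega)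
  have hcd : C / m j * B.card ≤ C * (n j / m j) := by
    rw [mul_div_assoc', div_mul_eq_mul_div]
    exact div_le_div_of_nonneg_right (mul_le_mul_of_nonneg_left hcR hC0) hmj.le
  refine ⟨fun φ hφ => ?_, fun i φ hφ hij => ?_⟩
  · refine (hb φ hφ B subset_rfl).trans ?_
    have h1 := (pow_le_nR j (2 ^ j) (by omega)).trans hdiv
    nlinarith [mul_le_mul_of_nonneg_left h1 hC0]
  · rcases lt_or_gt_of_ne hij with hlt | hgt
    · rw [min_eq_left hlt.le]
      have h1 := step hB (α := C * (2 * nu j) ^ (2 ^ j)) (β := C / m j) (by positivity)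
        (by positivity) (fun w φ hφ => hb φ hφ.K) hφ B subset_rfl
      refine h1.trans ?_
      rw [div_mul_eq_mul_div (2 * C)]
      refine div_le_div_of_nonneg_right ?_ (mR_pos i).le
      have hn : (n i : ℝ) ≤ nu j := by exact_mod_cast n_le_nu hlt
      have h2 := (pow_le_nR j (2 ^ j + 1) (by omega)).trans hdiv
      have h3 : (1 : ℝ) ≤ (2 * nu j) ^ (2 ^ j) := one_le_pow₀ (by linarith)
      have h4 : C / m j ≤ C * (2 * nu j) ^ (2 ^ j) := by
        refine (div_le_self hC0 (by linarith [two_le_mR j])).trans ?_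
        nlinarith
      have h5 : (n i : ℝ) * (C * (2 * nu j) ^ (2 ^ j) + C / m j) ≤
          C * (2 * nu j) ^ (2 ^ j + 1) := by
        calc (n i : ℝ) * (C * (2 * nu j) ^ (2 ^ j) + C / m j)
            ≤ nu j * (C * (2 * nu j) ^ (2 ^ j) + C * (2 * nu j) ^ (2 ^ j)) :=
              mul_le_mul hn (by linarith) (by positivity) (by positivity)
          _ = C * (2 * nu j) ^ (2 ^ j + 1) := by ring
      nlinarith [mul_le_mul_of_nonneg_left h2 hC0]
    · rw [min_eq_right hgt.le]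
      refine (hS.H hC0 hC (j + 1) i hgt.le (by omega) φ hφ B subset_rfl).trans ?_
      have h1 : (m (j + 1) : ℝ) ≤ n j := by exact_mod_cast m_le_n j
      have h2 : 2 * C / m j * (n j / m j) = 2 * (C * (n j / m (j + 1))) := by
        rw [mR_succ]; field_simp
      have h3 : C / m (j + 1) * B.card ≤ C * (n j / m (j + 1)) := by
        rw [mul_div_assoc', div_mul_eq_mul_div]
        exact div_le_div_of_nonneg_right (mul_le_mul_of_nonneg_left hcR hC0) (mR_pos _).le
      have h4 : (1 : ℝ) ≤ n j / m (j + 1) := by rwa [one_le_div (mR_pos _)]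
      rw [h2]
      nlinarith

lemma E1s {B : Finset ℕ} {x : ℕ → ℕ → ℝ} (hB : Succ B x) {C : ℝ} (hC0 : 0 ≤ C)
    (hC : ∀ k ∈ B, ∀ φ, K φ → φ (x k) ≤ C) {j : ℕ} (hS : Sel B x j C) (hc : B.card ≤ n j)
    (hj : j % 3 = 2) (hx : ∀ k ∈ B, ∀ a, a % 4 = 0 → x k a = 0) :
    ∀ φ, K φ → ∑ k ∈ B, φ (x k) ≤ 2 * C * (n j / m (j + 1)) := by
  have hb := basic' hB hC0 hC j (j + 1) fun i hi ψ hψ B' hB' => by
    rcases eq_or_lt_of_le hi with rfl | hlt
    · have : ∀ k ∈ B', ψ (x k) = 0 := by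
        intro k hk
        cases hψ with
        | node j' R A w φ hR hA hφ hsp =>
          beta_reduce
          rw [sum_eq_zero, zero_div]
          intro r hr
          refine (hφ r hr).eq_zero fun a _ => ?_
          simp only [rs]
          split_ifs with h
          · exact hx k (hB' hk) a (h.2 hj)
          · rfl
      rw [sum_eq_zero this]
      have := mR_pos (j + 1)
      positivity
    · exact hS.H hC0 hC (j + 1) i hi (by omega) ψ hψ B' hB'
  intro φ hφ
  have hcR : (B.card : ℝ) ≤ n j := by exact_mod_cast hc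
  refine (hb φ hφ B subset_rfl).trans ?_
  have h1 := pow_le_nR j (2 ^ (j + 1)) (by omega)
  have h3 : C / m (j + 1) * B.card ≤ C * (n j / m (j + 1)) := by
    rw [mul_div_assoc', div_mul_eq_mul_div]
    exact div_le_div_of_nonneg_right (mul_le_mul_of_nonneg_left hcR hC0) (mR_pos _).le
  nlinarith [mul_le_mul_of_nonneg_left h1 hC0]

lemma rs_sum_eq (j : ℕ) (B : Finset ℕ) (v : ℕ → ℕ → ℝ) (A : ℕ → Finset ℕ)
    (hA : ∀ r ∈ B, ∀ s ∈ B, r < s → ∀ a ∈ A r, ∀ b ∈ A s, a < b)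
    (hv : ∀ k ∈ B, ∀ a, v k a ≠ 0 → a / 2 ∈ A k ∧ (j % 3 = 2 → a % 4 = 0))
    (k : ℕ) (hk : k ∈ B) : rs j (A k) (∑ l ∈ B, v l) = v k := by
  funext a
  simp only [rs, Finset.sum_apply]
  split_ifs with h
  · refine sum_eq_single k (fun l hl hne => ?_) (fun h => absurd hk h)
    by_contra hcon
    have h1 := (hv l hl a hcon).1
    rcases lt_or_gt_of_ne hne with h2 | h2
    · exact lt_irrefl _ (hA l hl k hk h2 _ h1 _ h.1)
    · exact lt_irrefl _ (hA k hk l hl h2 _ h.1 _ h1)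
  · by_contra hcon
    exact h (hv k hk a (Ne.symm hcon))

lemma low {j : ℕ} (hj : j % 3 ≠ 1) {B : Finset ℕ} (hB : B.card ≤ n j) (v : ℕ → ℕ → ℝ)
    (A : ℕ → Finset ℕ) (hA : ∀ r ∈ B, ∀ s ∈ B, r < s → ∀ a ∈ A r, ∀ b ∈ A s, a < b)
    (hv : ∀ k ∈ B, ∀ a, v k a ≠ 0 → a / 2 ∈ A k ∧ (j % 3 = 2 → a % 4 = 0)) {δ : ℝ}
    (hδ : ∀ k ∈ B, ∃ w φ, W w φ ∧ δ ≤ φ (v k)) :
    ∃ ψ, W (j + 1) ψ ∧ B.card * δ / m j ≤ ψ (∑ k ∈ B, v k) := by
  choose! w φ hφ hle using hδ
  refine ⟨_, W.node j B A w φ hB hA hφ (fun h => absurd h hj), ?_⟩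
  refine div_le_div_of_nonneg_right ?_ (mR_pos j).le
  rw [← nsmul_eq_mul, ← sum_const]
  refine sum_le_sum fun k hk => ?_
  rw [rs_sum_eq j B v A hA hv k hk]
  exact hle k hk

lemma special {h : ℕ} (hh : h % 3 = 1) (z : ℕ → ℕ → ℝ) (A : ℕ → Finset ℕ) {B : Finset ℕ}
    (hc : B.card ≤ n h) (hB : Succ B z) {C : ℝ} (hC0 : 0 ≤ C)
    (h1 : ∀ r ∈ B, ∀ φ, K φ → φ (z r) ≤ C)
    (h2 : ∀ r ∈ B, ∀ i φ, W (i + 1) φ → i ≠ code h A r → φ (z r) ≤ C / m (min i (code h A r)))
    (h3 : ∀ r ∈ B, ∀ a, a / 2 ∈ A r → z r a = 0) :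
    ∀ φ, K φ → ∑ r ∈ B, φ (z r) ≤ 4 * C * (n h / m (h + 1)) := by
  classical
  have hb := basic' hB (C := 2 * C) (by linarith)
    (fun r hr φ hφ => (h1 r hr φ hφ).trans (by linarith)) h (h + 1) fun i hi ψ hψ B' hB' => by
    have hnn : 0 ≤ 2 * C / m (h + 1) * B'.card := by
      have := mR_pos (h + 1)
      positivity
    rcases eq_or_lt_of_le hi with rfl | hlt
    · cases hψ with
      | node j' R A' w φ hR hA hφ hsp =>
        rw [← sum_div, ← sum_product']
        set r₀ : ℕ := if hex : ∃ r, A' r ≠ A r then Nat.find hex else 0 with hr₀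
        have hn := nR_pos h
        have hs := sum_le_one_exc (B' ×ˢ R) (fun p : ℕ × ℕ => φ p.2 (rs h (A' p.2) (z p.1)))
          (r₀, r₀) hC0 (β := C / (n h * n h)) (by positivity)
          (fun p hp => by
            rw [mem_product] at hp
            exact ((hφ _ hp.2).K.mono (abs_rs_le _ _ _)).trans (h1 _ (hB' hp.1) _ (hφ _ hp.2).K))
          (fun p hp hne => by
            obtain ⟨r, q⟩ := p
            rw [mem_product] at hp
            obtain ⟨hr, hq⟩ := hp
            have hw : W (code h A' q + 1) (φ q) := by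
              rw [← hsp hh q hq]; exact hφ q hq
            by_cases hcode : code h A' q = code h A r
            · obtain ⟨rfl, hag⟩ := code_inj h A' A q r hcode
              by_cases hAA : A' q = A q
              · refine le_trans (le_of_eq ((hφ q hq).eq_zero fun a _ => ?_)) (by positivity)
                simp only [rs]
                split_ifs with h4
                · exact h3 q (hB' hr) a (hAA ▸ h4.1)
                · rfl
              · exfalso
                apply hne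
                have hex : ∃ r, A' r ≠ A r := ⟨q, hAA⟩
                have : r₀ = q := by
                  rw [hr₀, dif_pos hex, Nat.find_eq_iff]
                  exact ⟨hAA, fun s hs => not_not.2 (hag s hs)⟩
                rw [this]
            · refine ((hφ _ hq).K.mono (abs_rs_le _ _ _)).trans
                ((h2 r (hB' hr) _ _ hw hcode).trans ?_)
              refine div_le_div_of_nonneg_left hC0 (by positivity) ?_
              have h5 : n h * n h ≤ m (min (code h A' q) (code h A r)) :=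
                (sq_le_m _).trans (m_mono (le_min (le_code _ _ _) (le_code _ _ _)))
              exact_mod_cast h5)
        have hcard : ((B' ×ˢ R).card : ℝ) ≤ n h * n h := by
          rw [card_product]
          exact_mod_cast Nat.mul_le_mul ((card_le_card hB').trans hc) hR
        have h6 : C / (n h * n h) * ((B' ×ˢ R).card : ℝ) ≤ C := by
          rw [div_mul_eq_mul_div, div_le_iff₀ (by positivity)]
          exact mul_le_mul_of_nonneg_left hcard hC0
        refine le_trans (div_le_self (sum_nonneg fun p hp => ?_) (by linarith [two_le_mR h])) ?_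
        · exact (hφ _ (mem_product.1 hp).2).nonneg _
        · linarith
    · set r₁ : ℕ := if hex : ∃ r, code h A r = i then hex.choose else 0 with hr₁
      have hs := sum_le_one_exc B' (fun r => ψ (z r)) r₁ hC0 (β := C / m (h + 1))
        (div_nonneg hC0 (mR_pos _).le) (fun r hr => h1 r (hB' hr) _ hψ.K)
        (fun r hr hne => by
          have hcode : i ≠ code h A r := by
            intro hcon
            apply hne
            have hex : ∃ r, code h A r = i := ⟨r, hcon.symm⟩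
            rw [hr₁, dif_pos hex]
            exact (code_inj h A A _ _ (hcon.symm.trans hex.choose_spec.symm)).1
          refine (h2 r (hB' hr) _ _ hψ hcode).trans ?_
          refine div_le_div_of_nonneg_left hC0 (mR_pos _) (mR_mono (le_min hlt ?_))
          exact (lt_n h).le.trans (le_code _ _ _))
      have : C / m (h + 1) * B'.card * 2 = 2 * C / m (h + 1) * B'.card := by ring
      linarith
  intro φ hφ
  have hcR : (B.card : ℝ) ≤ n h := by exact_mod_cast hc
  refine (hb φ hφ B subset_rfl).trans ?_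
  have h4 := pow_le_nR h (2 ^ (h + 1)) (by omega)
  have h5 : 2 * C / m (h + 1) * B.card ≤ 2 * C * (n h / m (h + 1)) := by
    rw [mul_div_assoc', div_mul_eq_mul_div]
    exact div_le_div_of_nonneg_right (mul_le_mul_of_nonneg_left hcR (by linarith)) (mR_pos _).le
  nlinarith [mul_le_mul_of_nonneg_left h4 hC0]

end Pool.Agent.H145Z.FP
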