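import Pool.Agent.H145Z.FP.B

set_option autoImplicit false

open Finset Filter Topology

noncomputable section

namespace Pool.Agent.H145Z.FP

def tl (N : ℕ) (x : ℕ → ℝ) : ℕ → ℝ := fun a => if N ≤ a then x a else 0

lemma abs_tl_le {N N' : ℕ} (h : N ≤ N') (x : ℕ → ℝ) (a : ℕ) : |tl N' x a| ≤ |tl N x a| := by
  simp only [tl]
  split_ifs with h1 h2
  · exact le_rfl
  · omega
  · simp
  · simp

def sub : Submodule ℝ (ℕ → ℝ) where
  carrier := {x | ∀ ε > 0, ∃ N, ∀ φ, K φ → φ (tl N x) ≤ ε}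
  add_mem' := by
    intro x y hx hy ε hε
    obtain ⟨N₁, h₁⟩ := hx (ε / 2) (by linarith)
    obtain ⟨N₂, h₂⟩ := hy (ε / 2) (by linarith)
    refine ⟨max N₁ N₂, fun φ hφ => ?_⟩
    have : tl (max N₁ N₂) (x + y) = tl (max N₁ N₂) x + tl (max N₁ N₂) y := by
      funext a; simp only [tl, Pi.add_apply]; split_ifs <;> simp
    rw [this]
    have h3 := hφ.mono (abs_tl_le (le_max_left N₁ N₂) x)
    have h4 := hφ.mono (abs_tl_le (le_max_right N₁ N₂) y)
    linarith [hφ.add_le (tl (max N₁ N₂) x) (tl (max N₁ N₂) y), h₁ φ hφ, h₂ φ hφ]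
  zero_mem' := by
    intro ε hε
    refine ⟨0, fun φ hφ => ?_⟩
    have : tl 0 (0 : ℕ → ℝ) = 0 := by funext a; simp [tl]
    rw [this, hφ.zero]; exact hε.le
  smul_mem' := by
    intro c x hx ε hε
    obtain ⟨N, h⟩ := hx (ε / (|c| + 1)) (by positivity)
    refine ⟨N, fun φ hφ => ?_⟩
    have : tl N (c • x) = c • tl N x := by
      funext a; simp only [tl, Pi.smul_apply]; split_ifs <;> simp
    rw [this, hφ.smul]
    have h1 := h φ hφ
    rw [le_div_iff₀ (by positivity)] at h1
    nlinarith [hφ.nonneg (tl N x), abs_nonneg c]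

lemma mem_sub {x : ℕ → ℝ} : x ∈ sub ↔ ∀ ε > 0, ∃ N, ∀ φ, K φ → φ (tl N x) ≤ ε := Iff.rfl

/-- the Banach space -/
def X : Type := sub

instance : AddCommGroup X := inferInstanceAs (AddCommGroup sub)
instance : Module ℝ X := inferInstanceAs (Module ℝ sub)

def val : X →ₗ[ℝ] (ℕ → ℝ) := sub.subtype

def mk (x : ℕ → ℝ) (hx : x ∈ sub) : X := (⟨x, hx⟩ : sub)

@[simp] lemma val_mk (x : ℕ → ℝ) (hx : x ∈ sub) : val (mk x hx) = x := rfl

lemma val_mem (x : X) : val x ∈ sub := Subtype.property (p := fun y => y ∈ sub) x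

lemma X.ext {x y : X} (h : ∀ a, val x a = val y a) : x = y :=
  Subtype.ext (p := fun y => y ∈ sub) (funext h)

lemma bdd (x : X) : ∃ M, ∀ φ, K φ → φ (val x) ≤ M := by
  obtain ⟨N, hN⟩ := val_mem x 1 one_pos
  refine ⟨(∑ a ∈ range N, |val x a|) + 1, fun φ hφ => ?_⟩
  have h1 : val x = (fun a => if a < N then val x a else 0) + tl N (val x) := by
    funext a; simp only [tl, Pi.add_apply]; split_ifs <;> first | omega | simp
  have h2 := hφ.le_l1 (fun a => if a < N then val x a else 0) (range N)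
    (fun a ha => by simp only [mem_range] at ha; simp [ha])
  have h3 : ∑ a ∈ range N, |(if a < N then val x a else 0)| = ∑ a ∈ range N, |val x a| :=
    sum_congr rfl fun a ha => by simp [mem_range.1 ha]
  have h4 := hφ.add_le (fun a => if a < N then val x a else 0) (tl N (val x))
  rw [← h1] at h4
  linarith [hN φ hφ]

instance : Norm X := ⟨fun x => sSup {t | ∃ φ, K φ ∧ t = φ (val x)}⟩

lemma le_norm {φ : (ℕ → ℝ) → ℝ} (hφ : K φ) (x : X) : φ (val x) ≤ ‖x‖ := by
  obtain ⟨M, hM⟩ := bdd x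
  exact le_csSup ⟨M, by rintro t ⟨ψ, hψ, rfl⟩; exact hM ψ hψ⟩ ⟨φ, hφ, rfl⟩

lemma norm_le {x : X} {M : ℝ} (h : ∀ φ, K φ → φ (val x) ≤ M) : ‖x‖ ≤ M :=
  csSup_le ⟨_, _, K_leaf 0, rfl⟩ (by rintro t ⟨ψ, hψ, rfl⟩; exact h ψ hψ)

lemma abs_le_norm (x : X) (a : ℕ) : |val x a| ≤ ‖x‖ := le_norm (K_leaf a) x

lemma core : NormedSpace.Core ℝ X where
  norm_nonneg x := (abs_nonneg _).trans (abs_le_norm x 0)
  norm_smul c x := by
    have h0 : ∀ (c : ℝ) (x : X), ‖c • x‖ ≤ |c| * ‖x‖ := fun c x => norm_le fun φ hφ => by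
      rw [map_smul, hφ.smul]
      exact mul_le_mul_of_nonneg_left (le_norm hφ x) (abs_nonneg c)
    refine le_antisymm (h0 c x) ?_
    by_cases hc : c = 0
    · subst hc
      simpa using (abs_nonneg _).trans (abs_le_norm ((0 : ℝ) • x) 0)
    · have h1 := h0 c⁻¹ (c • x)
      rw [smul_smul, inv_mul_cancel₀ hc, one_smul, abs_inv] at h1
      have h2 : 0 < |c| := abs_pos.2 hc
      rw [Real.norm_eq_abs]
      calc |c| * ‖x‖ ≤ |c| * (|c|⁻¹ * ‖c • x‖) := mul_le_mul_of_nonneg_left h1 h2.le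
        _ = ‖c • x‖ := by field_simp
  norm_triangle x y := norm_le fun φ hφ => by
    rw [map_add]
    linarith [hφ.add_le (val x) (val y), le_norm hφ x, le_norm hφ y]
  norm_eq_zero_iff x := by
    constructor
    · intro h
      refine X.ext fun a => ?_
      have := abs_le_norm x a
      rw [h] at this
      simpa using this
    · rintro rfl
      refine le_antisymm (norm_le fun φ hφ => by simp [hφ.zero]) ?_
      exact (abs_nonneg _).trans (abs_le_norm 0 0)

instance : NormedAddCommGroup X := NormedAddCommGroup.ofCore core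
instance : NormedSpace ℝ X := NormedSpace.ofCore core

lemma exists_lt {x : X} {t : ℝ} (h : t < ‖x‖) : ∃ φ, K φ ∧ t < φ (val x) := by
  by_contra hcon
  push Not at hcon
  exact absurd (norm_le hcon) (not_le.2 h)

lemma norm_le_mul {x y : X} {M : ℝ} (hM : 0 ≤ M) (h : ∀ a, |val x a| ≤ M * |val y a|) :
    ‖x‖ ≤ M * ‖y‖ :=
  norm_le fun _ hφ => (hφ.mono_mul hM h).trans (mul_le_mul_of_nonneg_left (le_norm hφ y) hM)

lemma norm_mono {x y : X} (h : ∀ a, |val x a| ≤ |val y a|) : ‖x‖ ≤ ‖y‖ := by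
  simpa using norm_le_mul (M := 1) zero_le_one (by simpa using h)

lemma mem_of_le {x : ℕ → ℝ} (y : X) {M : ℝ} (hM : 0 ≤ M) (h : ∀ a, |x a| ≤ M * |val y a|) :
    x ∈ sub := by
  have h1 := sub.smul_mem M (val_mem y)
  intro ε hε
  obtain ⟨N, hN⟩ := h1 ε hε
  refine ⟨N, fun φ hφ => le_trans (hφ.mono fun a => ?_) (hN φ hφ)⟩
  simp only [tl]
  split_ifs
  · simpa [abs_mul, abs_of_nonneg hM] using h a
  · exact le_rfl

instance : CompleteSpace X := by
  refine Metric.complete_of_cauchySeq_tendsto fun u hu => ?_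
  have hc : ∀ a, CauchySeq fun k => val (u k) a := by
    intro a
    rw [Metric.cauchySeq_iff] at hu ⊢
    intro ε hε
    obtain ⟨N, hN⟩ := hu ε hε
    refine ⟨N, fun k hk l hl => lt_of_le_of_lt ?_ (hN k hk l hl)⟩
    rw [dist_eq_norm, dist_eq_norm]
    simpa using abs_le_norm (u k - u l) a
  choose x hx using fun a => cauchySeq_tendsto_of_complete (hc a)
  have hx' : Tendsto (fun k => val (u k)) atTop (𝓝 x) := tendsto_pi_nhds.2 hx
  have key : ∀ ε > 0, ∃ N, ∀ k ≥ N, ∀ φ, K φ → φ (val (u k) - x) ≤ ε := by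
    intro ε hε
    obtain ⟨N, hN⟩ := Metric.cauchySeq_iff.1 hu ε hε
    refine ⟨N, fun k hk φ hφ => ?_⟩
    have h1 : Tendsto (fun l => φ (val (u k) - val (u l))) atTop (𝓝 (φ (val (u k) - x))) :=
      (hφ.cont.tendsto _).comp (tendsto_const_nhds.sub hx')
    refine le_of_tendsto h1 (eventually_atTop.2 ⟨N, fun l hl => ?_⟩)
    have h2 := hN k hk l hl
    rw [dist_eq_norm] at h2
    have h3 := le_norm hφ (u k - u l)
    rw [map_sub] at h3
    linarith
  have hmem : x ∈ sub := by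
    intro ε hε
    obtain ⟨N, hN⟩ := key (ε / 2) (by linarith)
    obtain ⟨N', hN'⟩ := val_mem (u N) (ε / 2) (by linarith)
    refine ⟨N', fun φ hφ => ?_⟩
    have h1 : tl N' x = tl N' (val (u N)) + (tl N' x - tl N' (val (u N))) := by abel
    have h2 : φ (tl N' x - tl N' (val (u N))) ≤ φ (val (u N) - x) := hφ.mono fun a => by
      simp only [tl, Pi.sub_apply]
      split_ifs
      · rw [abs_sub_comm]
      · simp
    have h3 := hφ.add_le (tl N' (val (u N))) (tl N' x - tl N' (val (u N)))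
    rw [← h1] at h3
    linarith [hN N le_rfl φ hφ, hN' φ hφ]
  refine ⟨mk x hmem, Metric.tendsto_atTop.2 fun ε hε => ?_⟩
  obtain ⟨N, hN⟩ := key (ε / 2) (by linarith)
  refine ⟨N, fun k hk => ?_⟩
  rw [dist_eq_norm]
  refine lt_of_le_of_lt (norm_le fun φ hφ => ?_) (half_lt_self hε)
  rw [map_sub, val_mk]
  exact hN k hk φ hφ

/-- coordinate functionals -/
def coord (a : ℕ) : X →L[ℝ] ℝ :=
  LinearMap.mkContinuous ((LinearMap.proj a).comp val) 1 fun x => by
    simpa using abs_le_norm x a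

@[simp] lemma coord_apply (a : ℕ) (x : X) : coord a x = val x a := rfl

lemma e_mem (a : ℕ) : (fun b => if b = a then (1 : ℝ) else 0) ∈ sub := by
  intro ε hε
  refine ⟨a + 1, fun φ hφ => ?_⟩
  have : tl (a + 1) (fun b => if b = a then (1 : ℝ) else 0) = 0 := by
    funext b
    simp only [tl, Pi.zero_apply]
    split_ifs <;> first | omega | rfl
  rw [this, hφ.zero]; exact hε.le

/-- basis vectors -/
def e (a : ℕ) : X := mk _ (e_mem a)

lemma val_e (a b : ℕ) : val (e a) b = if b = a then 1 else 0 := rfl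

lemma norm_e (a : ℕ) : ‖e a‖ = 1 := by
  refine le_antisymm (norm_le fun φ hφ => ?_) ?_
  · simpa [val_e] using hφ.single_le a (val (e a)) fun b hb => by simp [val_e, hb]
  · simpa [val_e] using abs_le_norm (e a) a

/-- diagonal operators -/
def D (d : ℕ → ℝ) (M : ℝ) (hd : ∀ a, |d a| ≤ M) : X →L[ℝ] X :=
  LinearMap.mkContinuous
    { toFun := fun x => mk (fun a => d a * val x a) (mem_of_le x ((abs_nonneg _).trans (hd 0))
        fun a => by rw [abs_mul]; exact mul_le_mul_of_nonneg_right (hd a) (abs_nonneg _))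
      map_add' := fun x y => X.ext fun a => by simp [mul_add]
      map_smul' := fun c x => X.ext fun a => by simp; ring } M
    fun x => norm_le_mul ((abs_nonneg _).trans (hd 0)) fun a => by
      simp only [LinearMap.coe_mk, AddHom.coe_mk, val_mk, abs_mul]
      exact mul_le_mul_of_nonneg_right (hd a) (abs_nonneg _)

@[simp] lemma val_D (d : ℕ → ℝ) (M : ℝ) (hd : ∀ a, |d a| ≤ M) (x : X) (a : ℕ) :
    val (D d M hd x) a = d a * val x a := rfl

lemma norm_D_le (d : ℕ → ℝ) (M : ℝ) (hd : ∀ a, |d a| ≤ M) : ‖D d M hd‖ ≤ M :=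
  LinearMap.mkContinuous_norm_le _ ((abs_nonneg _).trans (hd 0)) _

open Classical in
/-- coordinate projections -/
def P (p : ℕ → Prop) : X →L[ℝ] X :=
  D (fun a => if p a then 1 else 0) 1 fun a => by split_ifs <;> simp

lemma val_P (p : ℕ → Prop) [DecidablePred p] (x : X) (a : ℕ) :
    val (P p x) a = if p a then val x a else 0 := by
  simp only [P, val_D]
  split_ifs <;> simp

lemma val_P_pos {p : ℕ → Prop} (x : X) {a : ℕ} (h : p a) : val (P p x) a = val x a := by
  classical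
  rw [val_P, if_pos h]

lemma val_P_neg {p : ℕ → Prop} (x : X) {a : ℕ} (h : ¬ p a) : val (P p x) a = 0 := by
  classical
  rw [val_P, if_neg h]

lemma abs_val_P_le (p : ℕ → Prop) (x : X) (a : ℕ) : |val (P p x) a| ≤ |val x a| := by
  classical
  rw [val_P]; split_ifs <;> simp

lemma norm_P_le (p : ℕ → Prop) (x : X) : ‖P p x‖ ≤ ‖x‖ := norm_mono (abs_val_P_le p x)

lemma opNorm_P_le (p : ℕ → Prop) : ‖P p‖ ≤ 1 := norm_D_le _ _ _

lemma norm_P_mono {p q : ℕ → Prop} (h : ∀ a, p a → q a) (x : X) : ‖P p x‖ ≤ ‖P q x‖ := by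
  refine norm_mono fun a => ?_
  by_cases hp : p a
  · rw [val_P_pos _ hp, val_P_pos _ (h a hp)]
  · rw [val_P_neg _ hp]; simp

lemma P_eq_self {p : ℕ → Prop} {x : X} (h : ∀ a, val x a ≠ 0 → p a) : P p x = x := by
  refine X.ext fun a => ?_
  by_cases hp : p a
  · exact val_P_pos _ hp
  · rw [val_P_neg _ hp]
    by_contra hcon
    exact hp (h a (Ne.symm hcon))

lemma P_eq_zero {p : ℕ → Prop} {x : X} (h : ∀ a, p a → val x a = 0) : P p x = 0 := by
  refine X.ext fun a => ?_
  by_cases hp : p a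
  · rw [val_P_pos _ hp, h a hp]; simp
  · rw [val_P_neg _ hp]; simp

lemma of_val_P_ne {p : ℕ → Prop} {x : X} {a : ℕ} (h : val (P p x) a ≠ 0) : p a ∧ val x a ≠ 0 := by
  by_cases hp : p a
  · exact ⟨hp, by rwa [val_P_pos _ hp] at h⟩
  · exact absurd (val_P_neg _ hp) h

lemma tail_le (x : X) {ε : ℝ} (hε : 0 < ε) :
    ∃ N, ∀ p : ℕ → Prop, (∀ a, p a → N ≤ a) → ‖P p x‖ ≤ ε := by
  obtain ⟨N, hN⟩ := val_mem x ε hε
  refine ⟨N, fun p hp => norm_le fun φ hφ => le_trans (hφ.mono fun a => ?_) (hN φ hφ)⟩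
  by_cases h : p a
  · rw [val_P_pos _ h]; simp [tl, hp a h]
  · rw [val_P_neg _ h]; simp

lemma val_sum_e (F : Finset ℕ) (c : ℕ → ℝ) (b : ℕ) :
    val (∑ a ∈ F, c a • e a) b = if b ∈ F then c b else 0 := by
  simp only [map_sum, map_smul, Finset.sum_apply, Pi.smul_apply, val_e, smul_eq_mul, mul_ite,
    mul_one, mul_zero]
  rw [sum_ite_eq]

lemma eq_sum_e {x : X} (F : Finset ℕ) (h : ∀ a, val x a ≠ 0 → a ∈ F) :
    x = ∑ a ∈ F, val x a • e a := by
  refine X.ext fun b => ?_
  rw [val_sum_e]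
  split_ifs with hb
  · rfl
  · by_contra hcon
    exact hb (h b hcon)

lemma norm_le_l1 {x : X} (F : Finset ℕ) (h : ∀ a, val x a ≠ 0 → a ∈ F) :
    ‖x‖ ≤ ∑ a ∈ F, |val x a| :=
  norm_le fun _ hφ => hφ.le_l1 _ F fun a ha => by
    by_contra hcon
    exact ha (h a hcon)

lemma sub_sum_e (x : X) (N : ℕ) :
    x - ∑ a ∈ range N, val x a • e a = P (fun a => N ≤ a) x := by
  refine X.ext fun b => ?_
  rw [map_sub, Pi.sub_apply, val_sum_e, val_P]
  simp only [mem_range]
  split_ifs <;> first | omega | simp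

lemma schauder (x : X) :
    Tendsto (fun N : ℕ => ∑ a ∈ range N, val x a • e a) atTop (𝓝 x) := by
  refine Metric.tendsto_atTop.2 fun ε hε => ?_
  obtain ⟨N, hN⟩ := tail_le x (half_pos hε)
  refine ⟨N, fun k hk => ?_⟩
  rw [dist_comm, dist_eq_norm, sub_sum_e]
  exact lt_of_le_of_lt (hN _ fun a ha => hk.trans ha) (half_lt_self hε)

lemma val_tendsto (x : X) : Tendsto (val x) atTop (𝓝 0) := by
  refine Metric.tendsto_atTop.2 fun ε hε => ?_
  obtain ⟨N, hN⟩ := tail_le x (half_pos hε)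
  refine ⟨N, fun k hk => ?_⟩
  have h1 := abs_le_norm (P (fun a => N ≤ a) x) k
  rw [val_P_pos (p := fun a => N ≤ a) _ hk] at h1
  rw [Real.dist_eq, sub_zero]
  linarith [hN _ fun a (ha : N ≤ a) => ha]

lemma map_schauder {Y : Type*} [NormedAddCommGroup Y] [NormedSpace ℝ Y] (T : X →L[ℝ] Y) (x : X) :
    Tendsto (fun N : ℕ => ∑ a ∈ range N, val x a • T (e a)) atTop (𝓝 (T x)) := by
  have := (T.continuous.tendsto x).comp (schauder x)
  simpa [Function.comp_def] using this

lemma ext_e {Y : Type*} [NormedAddCommGroup Y] [NormedSpace ℝ Y] {T T' : X →L[ℝ] Y}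
    (h : ∀ a, T (e a) = T' (e a)) : T = T' := by
  ext x
  refine tendsto_nhds_unique (map_schauder T x) ?_
  simpa [h] using map_schauder T' x

lemma ext_ent {T T' : X →L[ℝ] X} (h : ∀ a b, val (T (e b)) a = val (T' (e b)) a) : T = T' :=
  ext_e fun b => X.ext fun a => h a b

lemma opNorm_le_of_sum {T : X →L[ℝ] X} {β : ℝ} (h : ∀ N, ∑ a ∈ range N, ‖T (e a)‖ ≤ β) :
    ‖T‖ ≤ β := by
  have hβ : 0 ≤ β := by simpa using h 0
  refine T.opNorm_le_bound hβ fun x => ?_
  refine le_of_tendsto' (map_schauder T x).norm fun N => ?_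
  refine (norm_sum_le _ _).trans ?_
  calc ∑ a ∈ range N, ‖val x a • T (e a)‖ ≤ ∑ a ∈ range N, ‖T (e a)‖ * ‖x‖ := by
        refine sum_le_sum fun a _ => ?_
        rw [norm_smul, mul_comm]
        exact mul_le_mul_of_nonneg_left (abs_le_norm x a) (norm_nonneg _)
    _ ≤ β * ‖x‖ := by
        rw [← sum_mul]
        exact mul_le_mul_of_nonneg_right (h N) (norm_nonneg _)

/-- extension of a map on the basis to a bounded operator -/
lemma exists_op (v : ℕ → X) {M : ℝ} (hM : 0 ≤ M)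
    (h : ∀ N (x : X), ‖∑ a ∈ range N, val x a • v a‖ ≤ M * ‖x‖) :
    ∃ T : X →L[ℝ] X, ‖T‖ ≤ M ∧ ∀ a, T (e a) = v a := by
  have hc : ∀ x : X, CauchySeq fun N : ℕ => ∑ a ∈ range N, val x a • v a := by
    intro x
    rw [Metric.cauchySeq_iff']
    intro ε hε
    obtain ⟨N, hN⟩ := tail_le x (ε := ε / (2 * (M + 1))) (by positivity)
    refine ⟨N, fun k hk => ?_⟩
    have h1 : ∑ a ∈ range k, val x a • v a - ∑ a ∈ range N, val x a • v a =
        ∑ a ∈ range k, val (P (fun a => N ≤ a) x) a • v a := by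
      rw [← sum_range_add_sum_Ico _ hk, ← sum_range_add_sum_Ico _ hk, add_sub_cancel_left,
        sum_eq_zero (s := range N), zero_add]
      · exact sum_congr rfl fun a ha => by rw [val_P_pos _ (mem_Ico.1 ha).1]
      · intro a ha
        rw [val_P_neg _ (by simpa using ha), zero_smul]
    rw [dist_eq_norm, h1]
    have h2 := hN (fun a => N ≤ a) fun a ha => ha
    calc _ ≤ M * (ε / (2 * (M + 1))) := (h k _).trans (mul_le_mul_of_nonneg_left h2 hM)
      _ < ε := by
        rw [← mul_div_assoc, div_lt_iff₀ (by positivity)]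
        nlinarith
  choose T hT using fun x => cauchySeq_tendsto_of_complete (hc x)
  refine ⟨LinearMap.mkContinuous
    { toFun := T
      map_add' := fun x y => tendsto_nhds_unique (hT (x + y)) (by
        simpa [add_smul, sum_add_distrib] using (hT x).add (hT y))
      map_smul' := fun c x => tendsto_nhds_unique (hT (c • x)) (by
        simpa [smul_sum, mul_smul] using (hT x).const_smul c) } M
    (fun x => le_of_tendsto' (hT x).norm fun N => h N x),
    LinearMap.mkContinuous_norm_le _ hM _, fun a => ?_⟩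
  refine tendsto_nhds_unique (hT (e a)) (tendsto_const_nhds.congr' ?_)
  filter_upwards [eventually_gt_atTop a] with N hN
  simp [val_e, hN]

lemma abs_ent_le (T : X →L[ℝ] X) (a b : ℕ) : |val (T (e b)) a| ≤ ‖T‖ := by
  refine (abs_le_norm _ _).trans ?_
  simpa [norm_e] using T.le_opNorm (e b)

/-- block diagonal part of an operator -/
lemma exists_BD (S : X →L[ℝ] X) (κ : ℕ → ℕ) : ∃ S' : X →L[ℝ] X, ‖S'‖ ≤ ‖S‖ ∧
    ∀ a b, val (S' (e b)) a = if κ a = κ b then val (S (e b)) a else 0 := by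
  have fin : ∀ F : Finset ℕ, ∃ S' : X →L[ℝ] X, ‖S'‖ ≤ ‖S‖ ∧
      (∀ a b, κ a = κ b → val (S' (e b)) a = val (S (e b)) a) ∧
      (∀ a b, κ a ≠ κ b → κ b ∈ F → val (S' (e b)) a = 0) := by
    intro F
    induction F using Finset.induction_on with
    | empty => exact ⟨S, le_rfl, fun _ _ _ => rfl, by simp⟩
    | insert t F ht ih =>
      obtain ⟨S', h1, h2, h3⟩ := ih
      set d : ℕ → ℝ := fun a => if κ a = t then 1 else -1 with hd
      have hd1 : ∀ a, |d a| ≤ 1 := fun a => by simp only [hd]; split_ifs <;> simp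
      have hDe : ∀ b, D d 1 hd1 (e b) = d b • e b := fun b => X.ext fun a => by
        simp only [val_D, map_smul, Pi.smul_apply, val_e, smul_eq_mul]
        split_ifs with h
        · rw [h]
        · simp
      have hent : ∀ a b, val (((1 / 2 : ℝ) • (S' + (D d 1 hd1).comp (S'.comp (D d 1 hd1)))) (e b)) a
          = (1 / 2) * (1 + d a * d b) * val (S' (e b)) a := by
        intro a b
        simp [hDe]
        ring
      refine ⟨(1 / 2 : ℝ) • (S' + (D d 1 hd1).comp (S'.comp (D d 1 hd1))), ?_, ?_, ?_⟩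
      · have h4 : ‖(D d 1 hd1).comp (S'.comp (D d 1 hd1))‖ ≤ ‖S'‖ := by
          have h5 := norm_D_le d 1 hd1
          calc _ ≤ ‖D d 1 hd1‖ * (‖S'‖ * ‖D d 1 hd1‖) :=
                (ContinuousLinearMap.opNorm_comp_le _ _).trans
                  (mul_le_mul_of_nonneg_left (ContinuousLinearMap.opNorm_comp_le _ _)
                    (norm_nonneg _))
            _ ≤ 1 * (‖S'‖ * 1) := by gcongr
            _ = ‖S'‖ := by ring
        rw [norm_smul]
        have h6 := norm_add_le S' ((D d 1 hd1).comp (S'.comp (D d 1 hd1)))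
        have h7 : ‖(1 / 2 : ℝ)‖ = 1 / 2 := by norm_num
        rw [h7]
        linarith
      · intro a b hab
        rw [hent, h2 a b hab]
        simp only [hd, hab]
        split_ifs <;> ring
      · intro a b hab hb
        rw [hent]
        rcases mem_insert.1 hb with hb | hb
        · have : κ a ≠ t := hb ▸ hab
          simp [hd, hb, this]
        · rw [h3 a b hab hb, mul_zero]
  obtain ⟨T, hT1, hT2⟩ := exists_op (fun b => P (fun a => κ a = κ b) (S (e b))) (norm_nonneg S)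
    fun N x => by
      obtain ⟨S', h1, h2, h3⟩ := fin ((range N).image κ)
      have h4 : ∑ a ∈ range N, val x a • P (fun a' => κ a' = κ a) (S (e a)) =
          S' (∑ a ∈ range N, val x a • e a) := by
        rw [map_sum]
        refine sum_congr rfl fun b hb => ?_
        rw [map_smul]
        congr 1
        refine X.ext fun a => ?_
        rw [val_P]
        split_ifs with h
        · exact (h2 a b h).symm
        · exact (h3 a b h (mem_image_of_mem _ hb)).symm
      rw [h4]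
      refine (S'.le_opNorm _).trans (mul_le_mul h1 (norm_mono fun a => ?_) (norm_nonneg _)
        (norm_nonneg _))
      rw [val_sum_e]; split_ifs <;> simp
  exact ⟨T, hT1, fun a b => by rw [hT2, val_P]⟩

lemma val_apply_eq_sum (S : X →L[ℝ] X) {x : X} (F : Finset ℕ) (h : ∀ a, val x a ≠ 0 → a ∈ F)
    (a : ℕ) : val (S x) a = ∑ b ∈ F, val x b * val (S (e b)) a := by
  conv_lhs => rw [eq_sum_e F h]
  simp [Finset.sum_apply]

lemma J_mem (x : X) : Jf (val x) ∈ sub := by
  intro ε hε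
  obtain ⟨N, hN⟩ := val_mem x ε hε
  refine ⟨N + 1, fun φ hφ => ?_⟩
  obtain ⟨ψ, hψ, hle⟩ := hφ.pull
  refine le_trans (hφ.mono fun a => ?_) ((hle (tl N (val x))).trans (hN ψ hψ))
  simp only [tl, Jf]
  split_ifs <;> first | omega | simp

/-- the formal identity between the two rigid parts -/
def J : X →L[ℝ] X :=
  LinearMap.mkContinuous
    { toFun := fun x => mk (Jf (val x)) (J_mem x)
      map_add' := fun x y => X.ext fun a => by
        simp only [val_mk, map_add, Jf, Pi.add_apply]; split_ifs <;> simp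
      map_smul' := fun c x => X.ext fun a => by
        simp only [val_mk, map_smul, Jf, Pi.smul_apply, RingHom.id_apply]; split_ifs <;> simp } 1
    fun x => norm_le fun φ hφ => by
      obtain ⟨ψ, hψ, hle⟩ := hφ.pull
      simpa using (hle (val x)).trans (le_norm hψ x)

lemma val_J (x : X) : val (J x) = Jf (val x) := rfl

lemma val_J_apply (x : X) (a : ℕ) : val (J x) a = if a % 4 = 1 then val x (a - 1) else 0 := rfl

lemma norm_J_le (x : X) : ‖J x‖ ≤ ‖x‖ := by
  have : ‖J‖ ≤ 1 := LinearMap.mkContinuous_norm_le _ zero_le_one _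
  simpa using J.le_of_opNorm_le this x

end Pool.Agent.H145Z.FP
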