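import Pool.Agent.H145Z.FP.C

set_option autoImplicit false

open Finset Filter Topology

noncomputable section

namespace Pool.Agent.H145Z.FP

/-- rapidly increasing sequences, asymptotic form -/
structure Ris (x : ℕ → X) (C : ℝ) : Prop where
  pos : 0 < C
  bdd : ∀ k, ‖x k‖ ≤ C
  null : ∀ a, Tendsto (fun k => val (x k) a) atTop (𝓝 0)
  wt : ∀ i, ∀ᶠ k in atTop, ∀ φ, W (i + 1) φ → φ (val (x k)) ≤ C / m i

def Iv (c : ℕ → ℕ) (k : ℕ) (a : ℕ) : Prop := c k ≤ a / 2 ∧ a / 2 < c (k + 1)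

def Blk (c : ℕ → ℕ) (y : ℕ → X) : Prop := ∀ k a, val (y k) a ≠ 0 → Iv c k a

lemma Iv.lt {c : ℕ → ℕ} (hc : StrictMono c) {k l a b : ℕ} (hkl : k < l) (ha : Iv c k a)
    (hb : Iv c l b) : a / 2 < b / 2 :=
  lt_of_lt_of_le ha.2 ((hc.monotone hkl).trans hb.1)

lemma Blk.succ {c : ℕ → ℕ} (hc : StrictMono c) {y : ℕ → X} (hy : Blk c y) (B : Finset ℕ) :
    Succ B fun k => val (y k) :=
  fun k _ l _ hkl a b ha hb => Iv.lt hc hkl (hy k a ha) (hy l b hb)

lemma Ris.comp {x : ℕ → X} {C : ℝ} (h : Ris x C) {s : ℕ → ℕ} (hs : Tendsto s atTop atTop) :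
    Ris (fun k => x (s k)) C :=
  ⟨h.pos, fun _ => h.bdd _, fun a => (h.null a).comp hs, fun i => hs.eventually (h.wt i)⟩

lemma Ris.of_le {x y : ℕ → X} {C : ℝ} (h : Ris x C)
    (hy : ∀ k a, |val (y k) a| ≤ |val (x k) a|) : Ris y C := by
  refine ⟨h.pos, fun k => (norm_mono (hy k)).trans (h.bdd k), fun a => ?_, fun i => ?_⟩
  · exact squeeze_zero_norm (fun k => hy k a) (by simpa using (h.null a).abs)
  · filter_upwards [h.wt i] with k hk φ hφ
    exact (hφ.K.mono (hy k)).trans (hk φ hφ)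

lemma Ris.K_le {x : ℕ → X} {C : ℝ} (h : Ris x C) (k : ℕ) (φ : (ℕ → ℝ) → ℝ) (hφ : K φ) :
    φ (val (x k)) ≤ C := (le_norm hφ _).trans (h.bdd k)

lemma m_tendsto : Tendsto (fun j => (m j : ℝ)) atTop atTop :=
  tendsto_natCast_atTop_atTop.comp (tendsto_atTop_mono (fun j => (lt_m j).le) tendsto_id)

lemma exists_m_gt (t : ℝ) (r : ℕ) (hr : r < 3) : ∃ j, j % 3 = r ∧ t < m j := by
  obtain ⟨j, hj⟩ := (m_tendsto.eventually_gt_atTop t).exists
  exact ⟨3 * j + r, by omega, hj.trans_le (mR_mono (by omega))⟩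

lemma exists_sel {c : ℕ → ℕ} {y : ℕ → X} (hy : Blk c y) {C : ℝ} (hR : Ris y C) (j k₀ N : ℕ) :
    ∃ B : Finset ℕ, B.card = N ∧ (∀ k ∈ B, k₀ ≤ k) ∧ Sel B (fun k => val (y k)) j C := by
  induction N with
  | zero => exact ⟨∅, rfl, by simp, fun i _ => ⟨0, by simp⟩⟩
  | succ N ih =>
    obtain ⟨B, hcard, hk₀, hS⟩ := ih
    have h1 : ∀ k, ∀ᶠ i in atTop, ∀ φ, W (i + 1) φ → φ (val (y k)) ≤ C / m (j + 1) := by
      intro k
      have h2 : Tendsto (fun i => (∑ a ∈ range (2 * c (k + 1)), |val (y k) a|) / (m i : ℝ))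
          atTop (𝓝 0) := tendsto_const_nhds.div_atTop m_tendsto
      filter_upwards [h2.eventually (eventually_le_nhds (div_pos hR.pos (mR_pos (j + 1))))]
        with i hi φ hφ
      refine (hφ.le_l1 _ _ fun a ha => ?_).trans hi
      by_contra hcon
      have := (hy k a hcon).2
      simp only [mem_range] at ha
      omega
    obtain ⟨t, ht⟩ := eventually_atTop.1 ((eventually_all_finset B).2 fun k _ => h1 k)
    obtain ⟨k', hk'1, hk'2, hk'3⟩ := (((eventually_all_finset (range t)).2 fun i _ => hR.wt i).and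
      ((eventually_ge_atTop k₀).and (eventually_gt_atTop (B.sup id)))).exists
    have hk'B : k' ∉ B := fun h => absurd (le_sup (f := id) h) (not_le.2 hk'3)
    refine ⟨insert k' B, by rw [card_insert_of_notMem hk'B, hcard], ?_, fun i hi => ?_⟩
    · intro k hk
      rcases mem_insert.1 hk with rfl | hk
      · exact hk'2
      · exact hk₀ k hk
    · by_cases hit : i < t
      · obtain ⟨k₁, hk₁⟩ := hS i hi
        refine ⟨k₁, fun k hk hne φ hφ => ?_⟩
        rcases mem_insert.1 hk with rfl | hk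
        · exact (hk'1 i (mem_range.2 hit) φ hφ).trans
            (div_le_div_of_nonneg_left hR.pos.le (mR_pos _) (mR_mono (min_le_left _ _)))
        · exact hk₁ k hk hne φ hφ
      · refine ⟨k', fun k hk hne φ hφ => ?_⟩
        rcases mem_insert.1 hk with rfl | hk
        · exact absurd rfl hne
        · exact (ht i (not_lt.1 hit) k hk φ hφ).trans
            (div_le_div_of_nonneg_left hR.pos.le (mR_pos _) (mR_mono (min_le_right _ _)))

lemma K.smul_sum_le {φ : (ℕ → ℝ) → ℝ} (hφ : K φ) {t : ℝ} (ht : 0 ≤ t) (B : Finset ℕ)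
    (y : ℕ → X) : φ (val (t • ∑ k ∈ B, y k)) ≤ t * ∑ k ∈ B, φ (val (y k)) := by
  rw [map_smul, map_sum, hφ.smul, abs_of_nonneg ht]
  exact mul_le_mul_of_nonneg_left (hφ.sum_le _ _) ht

lemma mn_mul (j : ℕ) (t : ℝ) : (m j : ℝ) / n j * (t * (n j / m j)) = t := by
  have := mR_pos j
  have := nR_pos j
  field_simp

lemma mn_pos (j : ℕ) : (0 : ℝ) < (m j : ℝ) / n j := div_pos (mR_pos j) (nR_pos j)

lemma exact_est {c : ℕ → ℕ} (hc : StrictMono c) {y : ℕ → X} (hy : Blk c y) {C : ℝ} (hR : Ris y C)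
    {j : ℕ} {B : Finset ℕ} (hB : B.card = n j) (hS : Sel B (fun k => val (y k)) j C) :
    ‖((m j : ℝ) / n j) • ∑ k ∈ B, y k‖ ≤ 2 * C ∧
    ∀ i φ, W (i + 1) φ → i ≠ j →
      φ (val (((m j : ℝ) / n j) • ∑ k ∈ B, y k)) ≤ 2 * C / m (min i j) := by
  obtain ⟨h1, h2⟩ := E1 (hy.succ hc B) hR.pos.le (fun k _ => hR.K_le k) hS hB.le
  refine ⟨norm_le fun φ hφ => ?_, fun i φ hφ hij => ?_⟩
  · refine (hφ.smul_sum_le (mn_pos j).le B y).trans ?_
    rw [← mn_mul j (2 * C)]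
    exact mul_le_mul_of_nonneg_left (h1 φ hφ) (mn_pos j).le
  · refine (hφ.K.smul_sum_le (mn_pos j).le B y).trans ?_
    rw [← mn_mul j (2 * C / m (min i j))]
    exact mul_le_mul_of_nonneg_left (h2 i φ hφ hij) (mn_pos j).le

lemma exact_small {c : ℕ → ℕ} (hc : StrictMono c) {y : ℕ → X} (hy : Blk c y) {C : ℝ}
    (hR : Ris y C) {j : ℕ} {B : Finset ℕ} (hB : B.card = n j)
    (hS : Sel B (fun k => val (y k)) j C) (hj : j % 3 = 2)
    (h0 : ∀ k a, a % 4 = 0 → val (y k) a = 0) :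
    ‖((m j : ℝ) / n j) • ∑ k ∈ B, y k‖ ≤ 2 * C / m j := by
  have h1 := E1s (hy.succ hc B) hR.pos.le (fun k _ => hR.K_le k) hS hB.le hj fun k _ => h0 k
  refine norm_le fun φ hφ => (hφ.smul_sum_le (mn_pos j).le B y).trans ?_
  refine (mul_le_mul_of_nonneg_left (h1 φ hφ) (mn_pos j).le).trans (le_of_eq ?_)
  have := mR_pos j
  have := nR_pos j
  rw [mR_succ]
  field_simp

lemma exact_low {j : ℕ} (hj : j % 3 ≠ 1) {B : Finset ℕ} (hB : B.card = n j) (w : ℕ → X)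
    (A : ℕ → Finset ℕ) (hA : ∀ r ∈ B, ∀ s ∈ B, r < s → ∀ a ∈ A r, ∀ b ∈ A s, a < b)
    (hw : ∀ k ∈ B, ∀ a, val (w k) a ≠ 0 → a / 2 ∈ A k ∧ (j % 3 = 2 → a % 4 = 0)) {δ : ℝ}
    (hδ : ∀ k ∈ B, ∃ u φ, W u φ ∧ δ ≤ φ (val (w k))) :
    ∃ ψ, W (j + 1) ψ ∧ δ ≤ ψ (val (((m j : ℝ) / n j) • ∑ k ∈ B, w k)) := by
  obtain ⟨ψ, hψ, hle⟩ := low hj hB.le (fun k => val (w k)) A hA hw hδ
  refine ⟨ψ, hψ, ?_⟩
  rw [map_smul, map_sum, hψ.smul, abs_of_nonneg (mn_pos j).le]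
  refine le_trans (le_of_eq ?_) (mul_le_mul_of_nonneg_left hle (mn_pos j).le)
  have := mR_pos j
  have := nR_pos j
  rw [hB]
  field_simp

lemma exists_W {w : X} (hw : ∀ a, val w a ≠ 0 → a % 4 < 2) {δ : ℝ} (hδ : 0 ≤ δ) (h : δ < ‖w‖) :
    ∃ u φ, W u φ ∧ δ ≤ φ (val w) := by
  obtain ⟨φ, hφ, hlt⟩ := exists_lt h
  rcases hφ with ⟨a, rfl⟩ | ⟨u, hu⟩
  · refine ⟨0, _, W.leaf a (hw a fun h0 => ?_), hlt.le⟩
    simp only [h0, abs_zero] at hlt
    linarith
  · exact ⟨u, φ, hu, hlt.le⟩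

lemma exists_chain {α : Type*} (Rel : α → α → Prop) (h : ∀ p, ∃ q, Rel p q) (p₀ : α) :
    ∃ f : ℕ → α, f 0 = p₀ ∧ ∀ k, Rel (f k) (f (k + 1)) := by
  choose g hg using h
  exact ⟨fun k => g^[k] p₀, rfl, fun k => by
    simp only [Function.iterate_succ_apply']; exact hg _⟩

lemma head_tendsto {x : ℕ → X} (hx : ∀ a, Tendsto (fun k => val (x k) a) atTop (𝓝 0)) (N : ℕ) :
    Tendsto (fun k => P (fun a => a < N) (x k)) atTop (𝓝 0) := by
  have h1 : Tendsto (fun k => ∑ a ∈ range N, |val (x k) a|) atTop (𝓝 0) := by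
    simpa using tendsto_finsetSum (range N) fun a _ => (hx a).abs
  refine squeeze_zero_norm (fun k => ?_) h1
  refine (norm_le_l1 (range N) fun a ha => mem_range.2 (of_val_P_ne ha).1).trans ?_
  exact sum_le_sum fun a _ => abs_val_P_le _ _ _

lemma sub_P_Iv_le (c : ℕ → ℕ) (k : ℕ) (x : X) : ‖x - P (Iv c k) x‖ ≤
    ‖P (fun a => a < 2 * c k) x‖ + ‖P (fun a => 2 * c (k + 1) ≤ a) x‖ := by
  classical
  have h1 : x - P (Iv c k) x = P (fun a => ¬ Iv c k a ∧ a < 2 * c k) x +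
      P (fun a => ¬ Iv c k a ∧ ¬ a < 2 * c k) x := by
    refine X.ext fun a => ?_
    simp only [map_sub, map_add, Pi.sub_apply, Pi.add_apply, val_P]
    by_cases h : Iv c k a <;> by_cases h' : a < 2 * c k <;> simp [h, h']
  rw [h1]
  refine (norm_add_le _ _).trans (add_le_add (norm_P_mono (fun a ha => ha.2) _)
    (norm_P_mono (fun a ha => ?_) _))
  simp only [Iv] at ha
  omega

lemma blocking {x v : ℕ → X} (hx : ∀ a, Tendsto (fun k => val (x k) a) atTop (𝓝 0))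
    (hv : ∀ a, Tendsto (fun k => val (v k) a) atTop (𝓝 0)) {ε : ℝ} (hε : 0 < ε) :
    ∃ s c : ℕ → ℕ, StrictMono s ∧ StrictMono c ∧ ∀ k,
      ‖x (s k) - P (Iv c k) (x (s k))‖ ≤ ε / (k + 1) ∧
      ‖v (s k) - P (Iv c k) (v (s k))‖ ≤ ε / (k + 1) := by
  obtain ⟨f, -, hf⟩ := exists_chain (fun p q : ℕ × ℕ => p.1 < q.1 ∧ p.2 < q.2 ∧
      ‖P (fun a => a < 2 * p.2) (x q.1)‖ ≤ ε / (p.2 + 1) / 2 ∧
      ‖P (fun a => a < 2 * p.2) (v q.1)‖ ≤ ε / (p.2 + 1) / 2 ∧
      ‖P (fun a => 2 * q.2 ≤ a) (x q.1)‖ ≤ ε / (p.2 + 1) / 2 ∧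
      ‖P (fun a => 2 * q.2 ≤ a) (v q.1)‖ ≤ ε / (p.2 + 1) / 2) (fun p => by
    have hη : 0 < ε / (p.2 + 1) / 2 := by positivity
    have h1 := (head_tendsto hx (2 * p.2)).norm
    have h2 := (head_tendsto hv (2 * p.2)).norm
    rw [norm_zero] at h1 h2
    obtain ⟨k, hk1, hk2, hk3⟩ := ((eventually_gt_atTop p.1).and
      ((h1.eventually (eventually_le_nhds hη)).and (h2.eventually (eventually_le_nhds hη)))).exists
    obtain ⟨N₁, hN₁⟩ := tail_le (x k) hη
    obtain ⟨N₂, hN₂⟩ := tail_le (v k) hη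
    exact ⟨(k, p.2 + 1 + N₁ + N₂), hk1, by simp only; omega, hk2, hk3,
      hN₁ _ fun a ha => by simp only at ha; omega, hN₂ _ fun a ha => by simp only at ha; omega⟩)
    (0, 0)
  have hc : StrictMono fun k => (f k).2 := strictMono_nat_of_lt_succ fun k => (hf k).2.1
  refine ⟨fun k => (f (k + 1)).1, fun k => (f k).2,
    strictMono_nat_of_lt_succ fun k => (hf (k + 1)).1, hc, fun k => ?_⟩
  obtain ⟨-, -, h1, h2, h3, h4⟩ := hf k
  have h5 : ε / ((f k).2 + 1) ≤ ε / (k + 1) := by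
    refine div_le_div_of_nonneg_left hε.le (by positivity) ?_
    have : (k : ℝ) ≤ (f k).2 := by exact_mod_cast hc.id_le k
    linarith
  exact ⟨(sub_P_Iv_le _ k _).trans (by linarith), (sub_P_Iv_le _ k _).trans (by linarith)⟩

lemma blk_P (c : ℕ → ℕ) (x : ℕ → X) : Blk c fun k => P (Iv c k) (x k) :=
  fun _ _ h => (of_val_P_ne h).1

lemma div_succ_le {ε : ℝ} (hε : 0 < ε) (k : ℕ) : ε / (k + 1) ≤ ε :=
  div_le_self hε.le (by linarith [Nat.cast_nonneg (α := ℝ) k])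

lemma Ris.weak {x : ℕ → X} {C : ℝ} (hR : Ris x C) (g : X →L[ℝ] ℝ) :
    Tendsto (fun k => g (x k)) atTop (𝓝 0) := by
  have key : ∀ g : X →L[ℝ] ℝ, ∀ δ > 0, ∀ᶠ k in atTop, g (x k) < δ := by
    intro g δ hδ
    by_contra hcon
    rw [not_eventually] at hcon
    obtain ⟨s₀, hs₀, hg⟩ := extraction_of_frequently_atTop hcon
    have hR₀ := hR.comp hs₀.tendsto_atTop
    have hε : 0 < δ / (2 * (‖g‖ + 1)) := by positivity
    obtain ⟨s, c, hs, hc, hb⟩ := blocking hR₀.null hR₀.null hε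
    set y : ℕ → X := fun k => P (Iv c k) (x (s₀ (s k))) with hy
    have hRy : Ris y C := (hR₀.comp hs.tendsto_atTop).of_le fun k a => abs_val_P_le _ _ _
    have hgy : ∀ k, δ / 2 ≤ g (y k) := by
      intro k
      have h1 := (hb k).1.trans (div_succ_le hε k)
      have h2 := (le_abs_self _).trans (g.le_of_opNorm_le_of_le le_rfl h1)
      have h3 := not_lt.1 (hg (s k))
      have h4 : ‖g‖ * (δ / (2 * (‖g‖ + 1))) ≤ δ / 2 := by
        rw [← mul_div_assoc, div_le_div_iff₀ (by positivity) (by positivity)]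
        nlinarith [norm_nonneg g]
      rw [map_sub] at h2
      simp only [hy]
      linarith
    obtain ⟨j, -, hj⟩ := exists_m_gt (‖g‖ * (2 * C) / (δ / 2)) 0 (by norm_num)
    obtain ⟨B, hB, -, hS⟩ := exists_sel (blk_P c _) hRy j 0 (n j)
    have h1 := (exact_est hc (blk_P c _) hRy hB hS).1
    have h2 := (le_abs_self _).trans (g.le_of_opNorm_le_of_le le_rfl h1)
    rw [map_smul, map_sum, smul_eq_mul] at h2
    have h3 : (n j : ℝ) * (δ / 2) ≤ ∑ k ∈ B, g (y k) := by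
      rw [← hB, ← nsmul_eq_mul, ← sum_const]
      exact sum_le_sum fun k _ => hgy k
    have h4 := (mul_le_mul_of_nonneg_left h3 (mn_pos j).le).trans h2
    have h5 : (m j : ℝ) / n j * (n j * (δ / 2)) = m j * (δ / 2) := by
      have := nR_pos j
      field_simp
    rw [div_lt_iff₀ (by positivity)] at hj
    linarith
  refine tendsto_order.2 ⟨fun δ hδ => ?_, fun δ hδ => key g δ hδ⟩
  filter_upwards [key (-g) (-δ) (by linarith)] with k hk
  simpa using hk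

lemma Ris.null_op {x : ℕ → X} {C : ℝ} (hR : Ris x C) (S : X →L[ℝ] X) (a : ℕ) :
    Tendsto (fun k => val (S (x k)) a) atTop (𝓝 0) := hR.weak ((coord a).comp S)

lemma block_op {x : ℕ → X} {C : ℝ} (hR : Ris x C) (S : X →L[ℝ] X)
    (h : ¬ Tendsto (fun k => S (x k)) atTop (𝓝 0)) :
    ∃ (δ : ℝ) (s c : ℕ → ℕ), 0 < δ ∧ StrictMono s ∧ StrictMono c ∧
      (∀ k, ‖x (s k) - P (Iv c k) (x (s k))‖ ≤ 1 / (k + 1)) ∧
      ∀ k, δ ≤ ‖P (Iv c k) (S (P (Iv c k) (x (s k))))‖ := by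
  rw [Metric.tendsto_nhds] at h
  push Not at h
  obtain ⟨δ, hδ, hfr⟩ := h
  obtain ⟨s₀, hs₀, hg⟩ := extraction_of_frequently_atTop hfr
  have hR₀ := hR.comp hs₀.tendsto_atTop
  have hε : 0 < min 1 (δ / (2 * (‖S‖ + 1))) := by positivity
  obtain ⟨s, c, hs, hc, hb⟩ := blocking hR₀.null (hR₀.null_op S) hε
  refine ⟨δ / 2, s₀ ∘ s, c, half_pos hδ, hs₀.comp hs, hc, fun k => (hb k).1.trans ?_, fun k => ?_⟩
  · exact div_le_div_of_nonneg_right (min_le_left _ _) (by positivity)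
  have h1 := ((hb k).1.trans (div_succ_le hε k)).trans (min_le_right _ _)
  have h2 := ((hb k).2.trans (div_succ_le hε k)).trans (min_le_right _ _)
  have h3 := hg (s k)
  rw [dist_zero_right] at h3
  have h4 := (norm_P_le (Iv c k) _).trans (S.le_of_opNorm_le_of_le le_rfl h1)
  have h5 : S (x (s₀ (s k))) = (S (x (s₀ (s k))) - P (Iv c k) (S (x (s₀ (s k))))) +
      P (Iv c k) (S (x (s₀ (s k)) - P (Iv c k) (x (s₀ (s k))))) +
      P (Iv c k) (S (P (Iv c k) (x (s₀ (s k))))) := by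
    simp only [map_sub]; abel
  have h6 := norm_add₃_le (a := S (x (s₀ (s k))) - P (Iv c k) (S (x (s₀ (s k)))))
    (b := P (Iv c k) (S (x (s₀ (s k)) - P (Iv c k) (x (s₀ (s k))))))
    (c := P (Iv c k) (S (P (Iv c k) (x (s₀ (s k))))))
  rw [← h5] at h6
  have h7 : δ / (2 * (‖S‖ + 1)) + ‖S‖ * (δ / (2 * (‖S‖ + 1))) = δ / 2 := by
    have := norm_nonneg S
    field_simp
    ring
  simp only [Function.comp]
  linarith

lemma exists_BD_blk (S : X →L[ℝ] X) {c : ℕ → ℕ} (hc : StrictMono c) :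
    ∃ S' : X →L[ℝ] X, ‖S'‖ ≤ ‖S‖ ∧ (∀ a, val (S' (e a)) a = val (S (e a)) a) ∧
      ∀ k x, (∀ a, val x a ≠ 0 → Iv c k a) → S' x = P (Iv c k) (S x) := by
  have hex : ∀ a : ℕ, ∃ k, a / 2 < c k := fun a => ⟨a / 2 + 1, hc.id_le _⟩
  have hκ : ∀ a k, Nat.find (hex a) = k + 1 ↔ Iv c k a := by
    intro a k
    rw [Nat.find_eq_iff]
    constructor
    · rintro ⟨h1, h2⟩
      exact ⟨not_lt.1 (h2 k (by omega)), h1⟩
    · rintro ⟨h1, h2⟩
      exact ⟨h2, fun l hl => not_lt.2 ((hc.monotone (by omega)).trans h1)⟩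
  obtain ⟨S', h1, h2⟩ := exists_BD S fun a => Nat.find (hex a)
  refine ⟨S', h1, fun a => by simp [h2], fun k x hx => X.ext fun a => ?_⟩
  have hF : ∀ b, val x b ≠ 0 → b ∈ range (2 * c (k + 1)) := fun b hb => by
    have := (hx b hb).2
    simp only [mem_range]; omega
  rw [val_apply_eq_sum S' _ hF]
  by_cases ha : Iv c k a
  · rw [val_P_pos _ ha, val_apply_eq_sum S _ hF]
    refine sum_congr rfl fun b _ => ?_
    by_cases hb : val x b = 0
    · simp [hb]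
    · rw [h2, if_pos (((hκ a k).2 ha).trans ((hκ b k).2 (hx b hb)).symm)]
  · rw [val_P_neg _ ha]
    refine sum_eq_zero fun b _ => ?_
    by_cases hb : val x b = 0
    · simp [hb]
    · rw [h2, if_neg, mul_zero]
      intro hab
      exact ha ((hκ a k).1 (hab.trans ((hκ b k).2 (hx b hb))))

theorem core_false {c : ℕ → ℕ} (hc : StrictMono c) (y w : ℕ → X) (A : ℕ → Finset ℕ)
    (hy : Blk c y) {C : ℝ} (hR : Ris y C) (hA : ∀ k, ∀ t ∈ A k, c k ≤ t ∧ t < c (k + 1))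
    (hyA : ∀ k a, a / 2 ∈ A k → val (y k) a = 0) (hw : ∀ k a, val (w k) a ≠ 0 → a / 2 ∈ A k)
    {δ : ℝ} (hδ0 : 0 < δ) (hδ : ∀ k, ∃ u φ, W u φ ∧ δ ≤ φ (val (w k)))
    (S : X →L[ℝ] X) (hS : ∀ k, S (y k) = w k) : False := by
  obtain ⟨h, hh, hm⟩ := exists_m_gt (‖S‖ * (4 * (2 * C)) / δ) 1 (by norm_num)
  choose G hG1 hG2 hG3 using fun j k₀ => exists_sel hy hR j k₀ (n j)
  set F : ℕ × ℕ → ℕ × ℕ := fun p =>
    (3 * (n h + 1 + Encodable.encode (p.1, (G p.1 p.2).biUnion A)), (G p.1 p.2).sup id + 1) with hF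
  set st : ℕ → ℕ × ℕ := fun r => F^[r] (3 * n h, 0) with hst
  have hst' : ∀ r, st (r + 1) = F (st r) := fun r => Function.iterate_succ_apply' F r _
  set B : ℕ → Finset ℕ := fun r => G (st r).1 (st r).2 with hB
  set A' : ℕ → Finset ℕ := fun r => (B r).biUnion A with hA'
  have hcode : ∀ r, (st r).1 = code h A' r := by
    intro r
    induction r with
    | zero => rfl
    | succ r ih => rw [hst', code, ← ih]
  have hlt : ∀ r, ∀ k ∈ B r, k < (st (r + 1)).2 := fun r k hk => by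
    rw [hst']
    exact Nat.lt_succ_of_le (le_sup (f := id) hk)
  have hmono : Monotone fun r => (st r).2 := monotone_nat_of_le_succ fun r => by
    have hne : (B r).Nonempty := by
      rw [← card_pos, hG1]
      have := lt_n (st r).1
      omega
    obtain ⟨k, hk⟩ := hne
    exact (hG2 _ _ k hk).trans (hlt r k hk).le
  have hBB : ∀ r s, r < s → ∀ k ∈ B r, ∀ l ∈ B s, k < l := fun r s hrs k hk l hl =>
    lt_of_lt_of_le (hlt r k hk) ((hmono hrs).trans (hG2 _ _ l hl))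
  have hAA : ∀ k l, k < l → ∀ a ∈ A k, ∀ b ∈ A l, a < b := fun k l hkl a ha b hb =>
    lt_of_lt_of_le (hA k a ha).2 ((hc.monotone hkl).trans (hA l b hb).1)
  have hA'A' : ∀ r s, r < s → ∀ a ∈ A' r, ∀ b ∈ A' s, a < b := by
    intro r s hrs a ha b hb
    obtain ⟨k, hk, ha⟩ := mem_biUnion.1 ha
    obtain ⟨l, hl, hb⟩ := mem_biUnion.1 hb
    exact hAA k l (hBB r s hrs k hk l hl) a ha b hb
  set z : ℕ → X := fun r => ((m (st r).1 : ℝ) / n (st r).1) • ∑ k ∈ B r, y k with hz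
  set v : ℕ → X := fun r => ((m (st r).1 : ℝ) / n (st r).1) • ∑ k ∈ B r, w k with hv
  have hzv : ∀ r, S (z r) = v r := fun r => by simp [hz, hv, hS]
  have hsupp : ∀ (u : ℕ → X) (t : ℝ) (B : Finset ℕ) (a : ℕ), val (t • ∑ k ∈ B, u k) a ≠ 0 →
      ∃ k ∈ B, val (u k) a ≠ 0 := by
    intro u t B a ha
    simp only [map_smul, map_sum, Pi.smul_apply, Finset.sum_apply, smul_eq_mul] at ha
    exact exists_ne_zero_of_sum_ne_zero (right_ne_zero_of_mul ha)
  have hψ : ∀ r, ∃ ψ, W ((st r).1 + 1) ψ ∧ δ ≤ ψ (val (v r)) := fun r => by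
    have h3 : (st r).1 % 3 = 0 := by rw [hcode]; exact code_mod _ _ _
    exact exact_low (by omega) (hG1 _ _) w A (fun k _ l _ => hAA k l)
      (fun k _ a ha => ⟨hw k a ha, by omega⟩) fun k _ => hδ k
  choose ψ hψ1 hψ2 using hψ
  have hΨ := W.node h (range (n h)) A' (fun r => (st r).1 + 1) ψ (by simp)
    (fun r _ s _ => hA'A' r s) (fun r _ => hψ1 r) (fun _ r _ => by rw [hcode])
  have hlow := le_norm hΨ.K (∑ r ∈ range (n h), v r)
  have hrs : ∀ r ∈ range (n h), rs h (A' r) (val (∑ r ∈ range (n h), v r)) = val (v r) := by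
    intro r hr
    rw [map_sum]
    refine rs_sum_eq h _ (fun r => val (v r)) A' (fun r _ s _ => hA'A' r s) (fun r _ a ha => ?_) r hr
    obtain ⟨k, hk, ha⟩ := hsupp _ _ _ _ ha
    exact ⟨mem_biUnion.2 ⟨k, hk, hw k a ha⟩, by omega⟩
  have hlow2 : (n h : ℝ) * δ ≤
      ∑ r ∈ range (n h), ψ r (rs h (A' r) (val (∑ r ∈ range (n h), v r))) := by
    have : (n h : ℝ) * δ = ∑ _r ∈ range (n h), δ := by simp
    rw [this]
    exact sum_le_sum fun r hr => by rw [hrs r hr]; exact hψ2 r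
  have hup : ‖∑ r ∈ range (n h), z r‖ ≤ 4 * (2 * C) * (n h / m (h + 1)) := by
    have hsp := special hh (fun r => val (z r)) A' (B := range (n h)) (by simp)
      (fun r _ s _ hrs a b ha hb => by
        obtain ⟨k, hk, ha⟩ := hsupp _ _ _ _ ha
        obtain ⟨l, hl, hb⟩ := hsupp _ _ _ _ hb
        exact Iv.lt hc (hBB r s hrs k hk l hl) (hy k a ha) (hy l b hb))
      (C := 2 * C) (by linarith [hR.pos])
      (fun r _ φ hφ => (le_norm hφ _).trans (exact_est hc hy hR (hG1 _ _) (hG3 _ _)).1)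
      (fun r _ i φ hφ hi => by
        rw [← hcode] at hi ⊢
        exact (exact_est hc hy hR (hG1 _ _) (hG3 _ _)).2 i φ hφ hi)
      (fun r _ a ha => by
        by_contra hcon
        obtain ⟨k, hk, hka⟩ := hsupp _ _ _ _ hcon
        obtain ⟨l, hl, hla⟩ := mem_biUnion.1 ha
        have h1 := hy k a hka
        have h2 := hA l _ hla
        rcases lt_trichotomy k l with hkl | rfl | hkl
        · have := hc.monotone (Nat.succ_le_of_lt hkl)
          have := h1.2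
          simp only [Nat.succ_eq_add_one] at *
          omega
        · exact hka (hyA k a hla)
        · have := hc.monotone (Nat.succ_le_of_lt hkl)
          have := h1.1
          simp only [Nat.succ_eq_add_one] at *
          omega)
    refine norm_le fun φ hφ => le_trans ?_ (hsp φ hφ)
    rw [map_sum]
    exact hφ.sum_le _ _
  have h1 : ∑ r ∈ range (n h), v r = S (∑ r ∈ range (n h), z r) := by simp [hzv]
  have h2 := S.le_of_opNorm_le_of_le le_rfl hup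
  rw [← h1] at h2
  have h3 := ((div_le_div_of_nonneg_right hlow2 (mR_pos h).le).trans hlow).trans h2
  have hmp := mR_pos h
  have hnp := nR_pos h
  rw [mR_succ, div_le_iff₀ hmp] at h3
  have h4 : ‖S‖ * (4 * (2 * C) * (n h / (m h * m h))) * m h =
      n h * (‖S‖ * (4 * (2 * C)) / m h) := by field_simp
  rw [h4] at h3
  have h5 := le_of_mul_le_mul_left h3 hnp
  rw [div_lt_iff₀ hδ0] at hm
  rw [le_div_iff₀ hmp] at h5
  linarith

end Pool.Agent.H145Z.FP
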