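import Pool.Agent.H145Z.FP.D

set_option autoImplicit false

open Finset Filter Topology

noncomputable section

namespace Pool.Agent.H145Z.FP

/-- projection onto the rigid part -/
def Q : X →L[ℝ] X := P fun a => a % 4 < 2

lemma val_Q (x : X) (a : ℕ) : val (Q x) a = if a % 4 < 2 then val x a else 0 := val_P _ _ _

lemma norm_Q_le (x : X) : ‖Q x‖ ≤ ‖x‖ := norm_P_le _ _

lemma P_comm (p q : ℕ → Prop) (x : X) : P p (P q x) = P q (P p x) := by
  classical
  refine X.ext fun a => ?_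
  simp only [val_P]
  split_ifs <;> rfl

theorem MT0 {x : ℕ → X} {C : ℝ} (hR : Ris x C) (h0 : ∀ k a, a % 4 = 0 → val (x k) a = 0)
    (S : X →L[ℝ] X) : Tendsto (fun k => P (fun a => a % 4 = 0) (S (x k))) atTop (𝓝 0) := by
  by_contra hcon
  obtain ⟨δ, s, c, hδ, hs, hc, -, hb⟩ := block_op hR ((P fun a => a % 4 = 0).comp S) hcon
  set S₀ := (P fun a => a % 4 = 0).comp S with hS₀
  set y : ℕ → X := fun k => P (Iv c k) (x (s k)) with hy
  have hRy : Ris y C := (hR.comp hs.tendsto_atTop).of_le fun k a => abs_val_P_le _ _ _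
  obtain ⟨S', -, -, hS'⟩ := exists_BD_blk S₀ hc
  set w : ℕ → X := fun k => P (Iv c k) (S₀ (y k)) with hw
  have hyw : ∀ k, S' (y k) = w k := fun k => hS' k _ (blk_P c (fun k => x (s k)) k)
  obtain ⟨j, hj, hm⟩ := exists_m_gt (‖S'‖ * (2 * C) / (δ / 2)) 2 (by norm_num)
  obtain ⟨B, hB, -, hS⟩ := exists_sel (blk_P c _) hRy j 0 (n j)
  have h1 := exact_small hc (blk_P c _) hRy hB hS hj fun k a ha => by
    have := abs_val_P_le (Iv c k) (x (s k)) a
    rw [h0 _ a ha, abs_zero] at this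
    exact abs_nonpos_iff.1 this
  have hw0 : ∀ k a, val (w k) a ≠ 0 → Iv c k a ∧ a % 4 = 0 := fun k a ha =>
    ⟨(of_val_P_ne ha).1, (of_val_P_ne (of_val_P_ne ha).2).1⟩
  obtain ⟨ψ, hψ, h2⟩ := exact_low (j := j) (by omega) hB w (fun k => Ico (c k) (c (k + 1)))
    (fun r _ t _ hrt a ha b hb => lt_of_lt_of_le (mem_Ico.1 ha).2
      ((hc.monotone hrt).trans (mem_Ico.1 hb).1))
    (fun k _ a ha => ⟨mem_Ico.2 (hw0 k a ha).1, fun _ => (hw0 k a ha).2⟩) (δ := δ / 2)
    (fun k _ => exists_W (fun a ha => by have := (hw0 k a ha).2; omega) (half_pos hδ).le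
      (lt_of_lt_of_le (half_lt_self hδ) (hb k)))
  have h3 := h2.trans (le_norm hψ.K _)
  have h4 : ((m j : ℝ) / n j) • ∑ k ∈ B, w k = S' (((m j : ℝ) / n j) • ∑ k ∈ B, y k) := by
    simp [hyw]
  rw [h4] at h3
  have h5 := h3.trans (S'.le_of_opNorm_le_of_le le_rfl h1)
  rw [← mul_div_assoc, le_div_iff₀ (mR_pos j)] at h5
  rw [div_lt_iff₀ (half_pos hδ)] at hm
  linarith

lemma count_sub (I : Finset ℕ) {s t : ℕ} (hs : s ∈ I) (ht : t ∈ I) (hst : s ≠ t) :
    4 * ∑ A ∈ I.powerset, (if s ∈ A ∧ t ∉ A then (1 : ℝ) else 0) = 2 ^ I.card := by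
  rw [sum_boole]
  have h1 : I.powerset.filter (fun A => s ∈ A ∧ t ∉ A) = Icc {s} (I.erase t) := by
    ext A
    simp only [mem_filter, mem_powerset, mem_Icc, singleton_subset_iff,
      subset_erase]
    tauto
  have h2 : ({s} : Finset ℕ) ⊆ I.erase t := by simp [hs, hst]
  have h3 : 1 < I.card := one_lt_card.2 ⟨s, hs, t, ht, hst⟩
  rw [h1, card_Icc_finset h2, card_erase_of_mem ht, card_singleton]
  obtain ⟨d, hd⟩ : ∃ d, I.card = d + 2 := ⟨I.card - 2, by omega⟩
  rw [hd]
  have : d + 2 - 1 - 1 = d := by omega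
  rw [this]
  push_cast
  ring

lemma exists_split (S : X →L[ℝ] X) (hS : ∀ a b, a / 2 = b / 2 → val (S (e b)) a = 0)
    (c : ℕ → ℕ) (k : ℕ) (y : X) (hy : ∀ a, val y a ≠ 0 → Iv c k a) :
    ∃ A ⊆ Ico (c k) (c (k + 1)), ‖P (Iv c k) (S y)‖ ≤
      4 * ‖P (fun a => a / 2 ∈ A) (S (P (fun a => a / 2 ∉ A) y))‖ := by
  set I := Ico (c k) (c (k + 1)) with hI
  have hF : ∀ b, val y b ≠ 0 → b ∈ range (2 * c (k + 1)) := fun b hb => by
    have := (hy b hb).2
    simp only [mem_range]; omega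
  have key : ((2 : ℝ) ^ I.card) • P (Iv c k) (S y) =
      (4 : ℝ) • ∑ A ∈ I.powerset, P (fun a => a / 2 ∈ A) (S (P (fun a => a / 2 ∉ A) y)) := by
    refine X.ext fun a => ?_
    have h1 : ∀ A : Finset ℕ, val (P (fun a => a / 2 ∈ A) (S (P (fun a => a / 2 ∉ A) y))) a =
        ∑ b ∈ range (2 * c (k + 1)),
          (if a / 2 ∈ A ∧ b / 2 ∉ A then (1 : ℝ) else 0) * (val y b * val (S (e b)) a) := by
      intro A
      rw [val_P, val_apply_eq_sum S (range (2 * c (k + 1))) fun b hb => hF b (of_val_P_ne hb).2]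
      split_ifs with h
      · refine sum_congr rfl fun b _ => ?_
        rw [val_P]
        by_cases hb : b / 2 ∈ A <;> simp [h, hb]
      · simp [h]
    simp only [map_smul, map_sum, Pi.smul_apply, Finset.sum_apply, smul_eq_mul, h1]
    rw [sum_comm, mul_sum]
    by_cases ha : Iv c k a
    · rw [val_P_pos _ ha, val_apply_eq_sum S _ hF, mul_sum]
      refine sum_congr rfl fun b _ => ?_
      rw [← sum_mul, ← mul_assoc 4]
      by_cases hb : val y b = 0
      · simp [hb]
      by_cases hab : a / 2 = b / 2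
      · simp [hS a b hab]
      rw [count_sub I (mem_Ico.2 ha) (mem_Ico.2 (hy b hb)) hab]
    · rw [val_P_neg _ ha, mul_zero]
      refine (sum_eq_zero fun b _ => ?_).symm
      rw [sum_eq_zero, mul_zero]
      intro A hA
      have : a / 2 ∉ A := fun h => ha (mem_Ico.1 (mem_powerset.1 hA h))
      simp [this]
  have h2 : ∑ _A ∈ I.powerset, ‖P (Iv c k) (S y)‖ ≤
      ∑ A ∈ I.powerset, 4 * ‖P (fun a => a / 2 ∈ A) (S (P (fun a => a / 2 ∉ A) y))‖ := by
    rw [sum_const, card_powerset, nsmul_eq_mul, ← mul_sum]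
    have h3 := congrArg norm key
    rw [norm_smul, norm_smul, Real.norm_of_nonneg (by positivity),
      Real.norm_of_nonneg (by positivity)] at h3
    push_cast
    rw [h3]
    exact mul_le_mul_of_nonneg_left (norm_sum_le _ _) (by norm_num)
  obtain ⟨A, hA, h⟩ := exists_le_of_sum_le ⟨∅, empty_mem_powerset I⟩ h2
  exact ⟨A, mem_powerset.1 hA, h⟩

theorem MToff {x : ℕ → X} {C : ℝ} (hR : Ris x C) (S : X →L[ℝ] X)
    (hS : ∀ a b, a / 2 = b / 2 → val (S (e b)) a = 0) :
    Tendsto (fun k => Q (S (x k))) atTop (𝓝 0) := by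
  by_contra hcon
  obtain ⟨δ, s, c, hδ, hs, hc, -, hb⟩ := block_op hR (Q.comp S) hcon
  set S₀ := Q.comp S with hS₀
  have hS₀' : ∀ a b, a / 2 = b / 2 → val (S₀ (e b)) a = 0 := fun a b hab => by
    simp [hS₀, val_Q, hS a b hab]
  choose A hA1 hA2 using fun k => exists_split S₀ hS₀' c k (P (Iv c k) (x (s k)))
    (blk_P c (fun k => x (s k)) k)
  set y : ℕ → X := fun k => P (fun a => a / 2 ∉ A k) (P (Iv c k) (x (s k))) with hy
  have hRy : Ris y C := (hR.comp hs.tendsto_atTop).of_le fun k a =>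
    (abs_val_P_le _ _ _).trans (abs_val_P_le _ _ _)
  have hyb : Blk c y := fun k a ha => (of_val_P_ne (of_val_P_ne ha).2).1
  obtain ⟨S', -, -, hS'⟩ := exists_BD_blk S₀ hc
  have hAI : ∀ k, ∀ t ∈ A k, c k ≤ t ∧ t < c (k + 1) := fun k t ht => mem_Ico.1 (hA1 k ht)
  refine core_false hc y (fun k => P (fun a => a / 2 ∈ A k) (S₀ (y k))) A hyb hRy hAI
    (fun k a ha => val_P_neg _ (not_not.2 ha)) (fun k a ha => (of_val_P_ne ha).1)
    (δ := δ / 8) (by positivity) (fun k => exists_W (fun a ha => ?_) (by positivity) ?_)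
    ((P fun a => ∃ k, a / 2 ∈ A k).comp S') fun k => ?_
  · exact (of_val_P_ne (of_val_P_ne ha).2).1
  · have h1 := (hb k).trans (hA2 k)
    linarith
  · rw [ContinuousLinearMap.comp_apply, hS' k _ (hyb k)]
    refine X.ext fun a => ?_
    by_cases h1 : a / 2 ∈ A k
    · rw [val_P_pos (p := fun a => ∃ k, a / 2 ∈ A k) _ ⟨k, h1⟩, val_P_pos _ (hAI k _ h1),
        val_P_pos (p := fun a => a / 2 ∈ A k) _ h1]
    · rw [val_P_neg (p := fun a => a / 2 ∈ A k) _ h1]
      by_contra hne
      obtain ⟨⟨l, hl⟩, h2⟩ := of_val_P_ne hne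
      have h3 := (of_val_P_ne h2).1
      have h4 : Iv c l a := hAI l _ hl
      rcases lt_trichotomy k l with hkl | rfl | hkl
      · exact lt_irrefl _ (Iv.lt hc hkl h3 h4)
      · exact h1 hl
      · exact lt_irrefl _ (Iv.lt hc hkl h4 h3)

/-- the class of sequences killed by all operators with zero diagonal -/
def RR (x : ℕ → X) : Prop := (∃ C, Ris x C) ∧ Tendsto (fun k => J (x k)) atTop (𝓝 0)

theorem MT {x : ℕ → X} (hx : RR x) (S : X →L[ℝ] X) (hS : ∀ a, val (S (e a)) a = 0) :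
    Tendsto (fun k => Q (S (x k))) atTop (𝓝 0) := by
  obtain ⟨⟨C, hR⟩, hJ⟩ := hx
  obtain ⟨T, -, hT⟩ := exists_BD S fun a => a / 2
  have h1 := MToff hR (S - T) fun a b hab => by simp [hT, hab]
  have h2 := MT0 (x := fun k => P (fun a => a % 4 ≠ 0) (x k)) (hR.of_le fun k a =>
    abs_val_P_le _ _ _) (fun k a ha => val_P_neg _ (not_not.2 ha)) T
  set d : ℕ → ℝ := fun a => val (S (e (a - 1))) a with hd
  have hd1 : ∀ a, |d a| ≤ ‖S‖ := fun a => abs_ent_le _ _ _
  have h3 := ((D d _ hd1).continuous.tendsto 0).comp hJ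
  rw [map_zero] at h3
  have h4 : Q.comp T = (P fun a => a % 4 = 0).comp (T.comp (P fun a => a % 4 ≠ 0)) +
      (D d _ hd1).comp J := by
    refine ext_ent fun a b => ?_
    have h5 : P (fun a => a % 4 ≠ 0) (e b) = if b % 4 ≠ 0 then e b else 0 := by
      split_ifs with h
      · exact P_eq_self fun a ha => by
          rw [val_e] at ha
          have : a = b := by simpa using ha
          exact this ▸ h
      · exact P_eq_zero fun a ha => by
          rw [val_e, if_neg]
          rintro rfl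
          exact h ha
    simp only [ContinuousLinearMap.comp_apply, add_apply, map_add,
      Pi.add_apply, val_Q, val_P, val_D, val_J_apply, val_e, h5, hT]
    by_cases hab : a = b
    · subst hab
      have h6 : a % 4 = 1 → ¬ a - 1 = a := by omega
      by_cases h7 : a % 4 = 1
      · simp [hS, h6 h7, h7]
      · by_cases h8 : a % 4 = 0
        · simp [hS, h8]
        · simp [hS, h7, h8]
    · by_cases h7 : a % 4 = 1
      · by_cases h8 : a - 1 = b
        · have h9 : a / 2 = b / 2 := by omega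
          simp [h7, h8, h9, hd]
        · have h9 : ¬ a / 2 = b / 2 := by omega
          simp [h7, h8, h9]
      · by_cases h8 : a % 4 = 0
        · by_cases h9 : b % 4 = 0
          · have h10 : ¬ a / 2 = b / 2 := by omega
            simp [h8, h9, h10]
          · simp [h8, h9, hT]
        · have h10 : ¬ a % 4 < 2 := by omega
          simp [h7, h8, h10]
  have h5 := (h1.add h2).add h3
  simp only [add_zero] at h5
  refine h5.congr fun k => ?_
  have h6 := congrArg (fun T : X →L[ℝ] X => T (x k)) h4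
  simp only [ContinuousLinearMap.comp_apply, add_apply] at h6
  simp only [sub_apply, map_sub, Function.comp, h6]
  abel

/-- the diagonal part of an operator -/
def dg (T : X →L[ℝ] X) : X →L[ℝ] X := D (fun a => val (T (e a)) a) ‖T‖ fun a => abs_ent_le T a a

lemma val_dg (T : X →L[ℝ] X) (x : X) (a : ℕ) : val (dg T x) a = val (T (e a)) a * val x a := rfl

lemma abs_val_dg_le (T : X →L[ℝ] X) (x : X) (a : ℕ) : |val (dg T x) a| ≤ ‖T‖ * |val x a| := by
  rw [val_dg, abs_mul]
  exact mul_le_mul_of_nonneg_right (abs_ent_le T a a) (abs_nonneg _)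

theorem KL {x : ℕ → X} (hx : RR x) (T : X →L[ℝ] X) :
    Tendsto (fun k => Q (T (x k)) - dg T (Q (x k))) atTop (𝓝 0) := by
  refine (MT hx (T - dg T) fun a => by simp [val_dg, val_e]).congr fun k => ?_
  rw [sub_apply, map_sub]
  congr 1
  refine X.ext fun a => ?_
  simp only [val_Q, val_dg]
  split_ifs <;> simp

lemma W.apply_Q {u : ℕ} {φ : (ℕ → ℝ) → ℝ} (h : W u φ) (x : X) : φ (val x) ≤ φ (val (Q x)) :=
  h.mono _ _ fun a ha => by rw [val_Q, if_pos ha]

lemma J_Q (x : X) : J (Q x) = J x := by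
  refine X.ext fun a => ?_
  simp only [val_J_apply, val_Q]
  split_ifs <;> first | omega | rfl

theorem RR.op {x : ℕ → X} (hx : RR x) (T : X →L[ℝ] X) : RR fun k => T (x k) := by
  have h1 := KL hx T
  obtain ⟨⟨C, hR⟩, hJ⟩ := hx
  have hC := hR.pos
  have hT := norm_nonneg T
  refine ⟨⟨‖T‖ * C + 1, by positivity, fun k => ?_, hR.null_op T, fun i => ?_⟩, ?_⟩
  · linarith [T.le_of_opNorm_le_of_le le_rfl (hR.bdd k)]
  · have h2 := h1.norm
    rw [norm_zero] at h2
    filter_upwards [hR.wt i, h2.eventually (eventually_le_nhds (one_div_pos.2 (mR_pos i)))]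
      with k hk hk2 φ hφ
    have h3 := hφ.add_le (val (Q (T (x k)) - dg T (Q (x k)))) (val (dg T (Q (x k))))
    rw [← map_add, sub_add_cancel] at h3
    have h4 := hφ.K.mono_mul hT fun a => (abs_val_dg_le T (Q (x k)) a).trans
      (mul_le_mul_of_nonneg_left (abs_val_P_le _ (x k) a) hT)
    have h5 := mul_le_mul_of_nonneg_left (hk φ hφ) hT
    have h6 := hφ.apply_Q (T (x k))
    have h7 := le_norm hφ.K (Q (T (x k)) - dg T (Q (x k)))
    rw [add_div, mul_div_assoc]
    linarith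
  · have h2 := (J.continuous.tendsto 0).comp h1
    rw [map_zero] at h2
    have h3 : Tendsto (fun k => J (dg T (Q (x k)))) atTop (𝓝 0) := by
      have h4 := hJ.norm.const_mul ‖T‖
      rw [norm_zero, mul_zero] at h4
      refine squeeze_zero_norm (fun k => norm_le_mul hT fun a => ?_) h4
      simp only [val_J_apply]
      split_ifs
      · exact (abs_val_dg_le T (Q (x k)) _).trans
          (mul_le_mul_of_nonneg_left (abs_val_P_le _ (x k) _) hT)
      · simp
    have h5 := h2.add h3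
    rw [add_zero] at h5
    refine h5.congr fun k => ?_
    simp [J_Q]

end Pool.Agent.H145Z.FP
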