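import Pool.Agent.H145Z.FP.E

set_option autoImplicit false

open Finset Filter Topology

noncomputable section

namespace Pool.Agent.H145Z.FP

lemma exists_of_val_sum {u : ℕ → X} {B : Finset ℕ} {a : ℕ} (ha : val (∑ k ∈ B, u k) a ≠ 0) :
    ∃ k ∈ B, val (u k) a ≠ 0 := by
  simp only [map_sum, Finset.sum_apply] at ha
  exact exists_ne_zero_of_sum_ne_zero ha

lemma exists_of_val_smul_sum {u : ℕ → X} {t : ℝ} {B : Finset ℕ} {a : ℕ}
    (ha : val (t • ∑ k ∈ B, u k) a ≠ 0) : ∃ k ∈ B, val (u k) a ≠ 0 := by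
  rw [map_smul, Pi.smul_apply, smul_eq_mul] at ha
  exact exists_of_val_sum (right_ne_zero_of_mul ha)

lemma sum_Ico_blocks (y : ℕ → X) (a M L : ℕ) :
    ∑ l ∈ range L, ∑ k ∈ Ico (a + l * M) (a + (l + 1) * M), y k = ∑ k ∈ Ico a (a + L * M), y k := by
  induction L with
  | zero => simp
  | succ L ih =>
    rw [sum_range_succ, ih, sum_Ico_consecutive]
    · omega
    · nlinarith [Nat.zero_le M]

lemma split_avg {B : Finset ℕ} {u : ℕ → X} (hB : Succ B fun k => val (u k)) {β : ℝ} (hβ : 0 ≤ β)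
    (hu : ∀ k ∈ B, ‖u k‖ ≤ β) {i : ℕ} (hi : n i ≤ B.card) {φ : (ℕ → ℝ) → ℝ} (hφ : W (i + 1) φ) :
    ∑ k ∈ B, φ (val (u k)) ≤ 2 * β * B.card / m i := by
  have h1 := step hB (α := 0) le_rfl hβ (fun w ψ hψ B' hB' => by
    have := sum_le_sum fun k (hk : k ∈ B') => (le_norm hψ.K (u k)).trans (hu k (hB' hk))
    rw [sum_const, nsmul_eq_mul] at this
    linarith) hφ B subset_rfl
  refine h1.trans (div_le_div_of_nonneg_right ?_ (mR_pos i).le)
  have h2 : (n i : ℝ) ≤ B.card := by exact_mod_cast hi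
  nlinarith

lemma av {c : ℕ → ℕ} (hc : StrictMono c) {y : ℕ → X} (hy : Blk c y) (h1 : ∀ k, ‖y k‖ = 1)
    (hW : ∀ k a, val (y k) a ≠ 0 → a % 4 < 2) (N : ℕ) (hN : 2 ≤ N) (a₀ : ℕ) :
    ∃ (a b : ℕ) (t : ℝ), a₀ ≤ a ∧ 0 ≤ t ∧ t ≤ 1 ∧ 1 ≤ ‖t • ∑ k ∈ Ico a b, y k‖ ∧
      ‖t • ∑ k ∈ Ico a b, y k‖ ≤ 2 ∧ ∀ i, n i ≤ N → ∀ φ, W (i + 1) φ →
        φ (val (t • ∑ k ∈ Ico a b, y k)) ≤ 4 / m i := by
  have hNR : (2 : ℝ) ≤ N := by exact_mod_cast hN
  by_cases H : ∀ s a, a₀ ≤ a →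
      (∀ l < N, ‖∑ k ∈ Ico (a + l * N ^ s) (a + (l + 1) * N ^ s), y k‖ ≤ (N / 2) ^ s) →
      ‖∑ k ∈ Ico a (a + N * N ^ s), y k‖ ≤ (N / 2) ^ (s + 1)
  · exfalso
    have h2 : ∀ s a, a₀ ≤ a → ‖∑ k ∈ Ico a (a + N ^ s), y k‖ ≤ (N / 2) ^ s := by
      intro s
      induction s with
      | zero => intro a _; simp [h1]
      | succ s ih =>
        intro a ha
        rw [pow_succ']
        refine H s a ha fun l _ => ?_
        have := ih (a + l * N ^ s) (by omega)
        rwa [add_assoc, ← add_one_mul] at this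
    set j := 3 * N with hj
    have hNj : N ≤ 2 * nu j := by
      have h3 := n_le_nu (show N < j by omega)
      have h4 := lt_n N
      omega
    have hcard : (Ico a₀ (a₀ + N ^ (2 ^ j + 1))).card ≤ n j := by
      rw [Nat.card_Ico, Nat.add_sub_cancel_left]
      have h3 := pow_le_n j (2 ^ j + 1)
        (Nat.add_le_add_right (Nat.pow_le_pow_right (by norm_num) (by omega)) 1)
      have h4 := Nat.pow_le_pow_left hNj (2 ^ j + 1)
      have h5 := two_le_m (j + 1)
      nlinarith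
    obtain ⟨ψ, hψ, h3⟩ := low (j := j) (by omega) hcard (fun k => val (y k))
      (fun k => Ico (c k) (c (k + 1)))
      (fun r _ t _ hrt a ha b hb => lt_of_lt_of_le (mem_Ico.1 ha).2
        ((hc.monotone hrt).trans (mem_Ico.1 hb).1))
      (fun k _ a ha => ⟨mem_Ico.2 (hy k a ha), by omega⟩) (δ := 3 / 4)
      (fun k _ => exists_W (hW k) (by norm_num) (by rw [h1]; norm_num))
    rw [← map_sum] at h3
    have h4 := (h3.trans (le_norm hψ.K _)).trans (h2 _ a₀ le_rfl)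
    rw [Nat.card_Ico, Nat.add_sub_cancel_left, div_pow, div_le_div_iff₀ (mR_pos j) (by positivity)]
      at h4
    have h5 : (2 : ℝ) ^ (2 ^ j + 1) = 2 * m j := by simp [m, pow_succ]; ring
    rw [h5] at h4
    push_cast at h4
    have h6 : (0 : ℝ) < (N : ℝ) ^ (2 ^ j + 1) * m j := mul_pos (by positivity) (mR_pos j)
    nlinarith
  · push Not at H
    obtain ⟨s, a, ha, h2, h3⟩ := H
    have hβ : (1 : ℝ) ≤ (N / 2) ^ s := one_le_pow₀ (by linarith)
    have hβ' : (1 : ℝ) ≤ (N / 2) ^ (s + 1) := one_le_pow₀ (by linarith)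
    have ht : (0 : ℝ) ≤ 1 / (N / 2) ^ (s + 1) := by positivity
    have hmul : 1 / ((N : ℝ) / 2) ^ (s + 1) * ((N / 2) ^ s * N) = 2 := by
      rw [pow_succ]; field_simp
    refine ⟨a, a + N * N ^ s, 1 / (N / 2) ^ (s + 1), ha, ht, ?_, ?_, ?_, ?_⟩
    · rw [div_le_one (by positivity)]; exact hβ'
    · rw [norm_smul, Real.norm_of_nonneg ht, one_div, ← div_eq_inv_mul,
        one_le_div (by positivity)]
      exact h3.le
    · rw [norm_smul, Real.norm_of_nonneg ht, ← sum_Ico_blocks]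
      have h4 := (norm_sum_le _ _).trans
        (sum_le_sum fun l (hl : l ∈ range N) => h2 l (mem_range.1 hl))
      rw [sum_const, card_range, nsmul_eq_mul, mul_comm] at h4
      exact (mul_le_mul_of_nonneg_left h4 ht).trans hmul.le
    · intro i hi φ hφ
      rw [← sum_Ico_blocks]
      refine (hφ.K.smul_sum_le ht _ _).trans ?_
      have h4 := split_avg (B := range N)
        (u := fun l => ∑ k ∈ Ico (a + l * N ^ s) (a + (l + 1) * N ^ s), y k)
        (fun l _ l' _ hll a' b' ha' hb' => by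
          obtain ⟨k, hk, hka⟩ := exists_of_val_sum ha'
          obtain ⟨k', hk', hkb⟩ := exists_of_val_sum hb'
          refine Iv.lt hc ?_ (hy k a' hka) (hy k' b' hkb)
          have h5 := (mem_Ico.1 hk).2
          have h6 := (mem_Ico.1 hk').1
          have h7 : (l + 1) * N ^ s ≤ l' * N ^ s := Nat.mul_le_mul_right _ hll
          omega) (by linarith) (fun l hl => h2 l (mem_range.1 hl)) (by simpa using hi) hφ
      refine (mul_le_mul_of_nonneg_left h4 ht).trans (le_of_eq ?_)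
      rw [card_range, ← mul_div_assoc]
      congr 1
      linarith

lemma AV1 {c : ℕ → ℕ} (hc : StrictMono c) {y : ℕ → X} (hy : Blk c y) (h1 : ∀ k, ‖y k‖ = 1)
    (hW : ∀ k a, val (y k) a ≠ 0 → a % 4 < 2) (V : X →L[ℝ] X) (hV : ∀ k, ‖V (y k)‖ ≤ (1 / 2) ^ k) :
    ∃ x : ℕ → X, Ris x 4 ∧ (∀ l, 1 ≤ ‖x l‖) ∧ (∀ l a, val (x l) a ≠ 0 → a % 4 < 2) ∧
      Tendsto (fun l => V (x l)) atTop (𝓝 0) := by
  choose a b t ha ht0 ht1 h2 h3 h4 using fun l => av hc hy h1 hW (n l) (by have := lt_n l; omega) l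
  refine ⟨fun l => t l • ∑ k ∈ Ico (a l) (b l), y k, ⟨by norm_num, fun l => by linarith [h3 l],
    fun a' => ?_, fun i => ?_⟩, h2, fun l a' ha' => ?_, ?_⟩
  · refine tendsto_const_nhds.congr' ?_
    filter_upwards [eventually_gt_atTop a'] with l hl
    by_contra hne
    obtain ⟨k, hk, hka⟩ := exists_of_val_smul_sum (Ne.symm hne)
    have h5 := (hy k a' hka).1
    have h6 := hc.id_le k
    have h7 := (mem_Ico.1 hk).1
    have h8 := ha l
    simp only [id] at h6
    omega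
  · filter_upwards [eventually_ge_atTop i] with l hl
    exact h4 l i (n_mono hl)
  · obtain ⟨k, -, hka⟩ := exists_of_val_smul_sum ha'
    exact hW k a' hka
  · have h5 : Tendsto (fun l : ℕ => (1 / 2 : ℝ) ^ l / (1 - 1 / 2)) atTop (𝓝 0) := by
      simpa using (tendsto_pow_atTop_nhds_zero_of_lt_one (r := (1 / 2 : ℝ)) (by norm_num)
        (by norm_num)).div_const (1 - 1 / 2)
    refine squeeze_zero_norm (fun l => ?_) h5
    rw [map_smul, map_sum, norm_smul, Real.norm_of_nonneg (ht0 l)]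
    refine (mul_le_of_le_one_left (norm_nonneg _) (ht1 l)).trans ((norm_sum_le _ _).trans ?_)
    refine (sum_le_sum fun k _ => hV k).trans
      ((geom_sum_Ico_le_of_lt_one (by norm_num) (by norm_num)).trans ?_)
    exact div_le_div_of_nonneg_right (pow_le_pow_of_le_one (by norm_num) (by norm_num) (ha l))
      (by norm_num)

lemma Ris.J {x : ℕ → X} {C : ℝ} (h : Ris x C) : Ris (fun k => J (x k)) C := by
  refine ⟨h.pos, fun k => (norm_J_le _).trans (h.bdd k), h.null_op _, fun i => ?_⟩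
  filter_upwards [h.wt i] with k hk φ hφ
  obtain ⟨ψ, hψ, hle⟩ := hφ.pull
  exact (hle _).trans (hk ψ hψ)

lemma J_P0 (x : X) : J (P (fun a => a % 4 = 0) x) = J x := by
  refine X.ext fun a => ?_
  simp only [val_J_apply, val_P]
  split_ifs <;> first | omega | rfl

lemma AV2 {x : ℕ → X} {C : ℝ} (hR : Ris x C) (h1 : ∀ l, 1 ≤ ‖x l‖)
    (hW : ∀ l a, val (x l) a ≠ 0 → a % 4 < 2) (V : X →L[ℝ] X)
    (hV : Tendsto (fun l => V (x l)) atTop (𝓝 0)) :
    ∃ (z : ℕ → X) (η : ℝ), 0 < η ∧ RR z ∧ (∀ l, η ≤ ‖z l‖) ∧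
      (∀ l a, val (z l) a ≠ 0 → a % 4 < 2) ∧ Tendsto (fun l => V (z l)) atTop (𝓝 0) := by
  by_cases h0 : Tendsto (fun l => P (fun a => a % 4 = 0) (x l)) atTop (𝓝 0)
  · refine ⟨x, 1, one_pos, ⟨⟨C, hR⟩, ?_⟩, h1, hW, hV⟩
    have h2 := (J.continuous.tendsto 0).comp h0
    rw [map_zero] at h2
    exact h2.congr fun l => J_P0 _
  obtain ⟨δ, s, c, hδ, hs, hc, hb1, hb2⟩ := block_op hR _ h0
  set y : ℕ → X := fun k => P (Iv c k) (x (s k)) with hy
  have hyb : Blk c y := blk_P c _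
  have hRy : Ris y C := (hR.comp hs.tendsto_atTop).of_le fun k a => abs_val_P_le _ _ _
  have hVy : Tendsto (fun k => ‖V (y k)‖) atTop (𝓝 0) := by
    have h2 : Tendsto (fun k => x (s k) - y k) atTop (𝓝 0) :=
      squeeze_zero_norm hb1 tendsto_one_div_add_atTop_nhds_zero_nat
    have h3 := (V.continuous.tendsto 0).comp h2
    have h4 := ((hV.comp hs.tendsto_atTop).sub h3).norm
    simpa [Function.comp_def] using h4
  have hk₀ : ∀ l : ℕ, ∃ k₀, l ≤ k₀ ∧ ∀ k, k₀ ≤ k → ‖V (y k)‖ ≤ 1 / (l + 1) / m (3 * l + 2) := by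
    intro l
    have hpos : (0 : ℝ) < 1 / (l + 1) / m (3 * l + 2) := div_pos (by positivity) (mR_pos _)
    obtain ⟨k₀, hk₀⟩ := eventually_atTop.1 (hVy.eventually (eventually_le_nhds hpos))
    exact ⟨max l k₀, le_max_left _ _, fun k hk => hk₀ k ((le_max_right _ _).trans hk)⟩
  choose k₀ hk₀1 hk₀2 using hk₀
  choose B hB1 hB2 hB3 using fun l => exists_sel hyb hRy (3 * l + 2) (k₀ l) (n (3 * l + 2))
  refine ⟨fun l => ((m (3 * l + 2) : ℝ) / n (3 * l + 2)) • ∑ k ∈ B l, y k, δ / 2, half_pos hδ,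
    ⟨⟨2 * C, by linarith [hR.pos], fun l => (exact_est hc hyb hRy (hB1 l) (hB3 l)).1,
      fun a => ?_, fun i => ?_⟩, ?_⟩, fun l => ?_, fun l a ha => ?_, ?_⟩
  · refine tendsto_const_nhds.congr' ?_
    filter_upwards [eventually_gt_atTop a] with l hl
    by_contra hne
    obtain ⟨k, hk, hka⟩ := exists_of_val_smul_sum (Ne.symm hne)
    have h5 := (hyb k a hka).1
    have h6 := hc.id_le k
    have h7 := hB2 l k hk
    have h8 := hk₀1 l
    simp only [id] at h6
    omega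
  · filter_upwards [eventually_ge_atTop i] with l hl φ hφ
    have := (exact_est hc hyb hRy (hB1 l) (hB3 l)).2 i φ hφ (by omega)
    rwa [min_eq_left (by omega)] at this
  · have h2 : Tendsto (fun l : ℕ => 2 * C / (m (3 * l + 2) : ℝ)) atTop (𝓝 0) :=
      tendsto_const_nhds.div_atTop (m_tendsto.comp
        (tendsto_atTop_mono (fun l => by simp only [id]; omega) tendsto_id))
    refine squeeze_zero_norm (fun l => ?_) h2
    rw [map_smul, map_sum]
    refine exact_small hc (y := fun k => J (y k)) (fun k a ha => ?_) hRy.J (hB1 l)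
      (fun i hi => ?_) (by omega) fun k a ha => ?_
    · rw [val_J_apply] at ha
      split_ifs at ha with h
      · have h3 := hyb k _ ha
        have h4 : (a - 1) / 2 = a / 2 := by omega
        simpa only [Iv, h4] using h3
      · exact absurd rfl ha
    · obtain ⟨k₁, hk₁⟩ := hB3 l i hi
      refine ⟨k₁, fun k hk hne φ hφ => ?_⟩
      obtain ⟨ψ, hψ, hle⟩ := hφ.pull
      exact (hle _).trans (hk₁ k hk hne ψ hψ)
    · rw [val_J_apply, if_neg (by omega)]
  · have hw0 : ∀ k a, val (P (fun a => a % 4 = 0) (y k)) a ≠ 0 → Iv c k a ∧ a % 4 = 0 :=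
      fun k a ha => ⟨hyb k a (of_val_P_ne ha).2, (of_val_P_ne ha).1⟩
    obtain ⟨ψ, hψ, h2⟩ := exact_low (j := 3 * l + 2) (by omega) (hB1 l)
      (fun k => P (fun a => a % 4 = 0) (y k)) (fun k => Ico (c k) (c (k + 1)))
      (fun r _ t _ hrt a ha b hb => lt_of_lt_of_le (mem_Ico.1 ha).2
        ((hc.monotone hrt).trans (mem_Ico.1 hb).1))
      (fun k _ a ha => ⟨mem_Ico.2 (hw0 k a ha).1, fun _ => (hw0 k a ha).2⟩) (δ := δ / 2)
      (fun k _ => exists_W (fun a ha => by have := (hw0 k a ha).2; omega) (half_pos hδ).le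
        (lt_of_lt_of_le (half_lt_self hδ) ((hb2 k).trans (norm_P_le _ _))))
    refine (h2.trans (le_norm hψ.K _)).trans ?_
    rw [← map_sum, ← map_smul]
    exact norm_P_le _ _
  · obtain ⟨k, -, hka⟩ := exists_of_val_smul_sum ha
    exact hW _ a (of_val_P_ne hka).2
  · refine squeeze_zero_norm (fun l => ?_) tendsto_one_div_add_atTop_nhds_zero_nat
    rw [map_smul, map_sum, norm_smul, Real.norm_of_nonneg (mn_pos _).le]
    have h2 := (norm_sum_le _ _).trans (sum_le_sum fun k (hk : k ∈ B l) => hk₀2 l k (hB2 l k hk))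
    rw [sum_const, hB1, nsmul_eq_mul] at h2
    refine (mul_le_mul_of_nonneg_left h2 (mn_pos _).le).trans (le_of_eq ?_)
    have := mR_pos (3 * l + 2)
    have := nR_pos (3 * l + 2)
    field_simp

theorem AV {c : ℕ → ℕ} (hc : StrictMono c) {y : ℕ → X} (hy : Blk c y) (h1 : ∀ k, ‖y k‖ = 1)
    (hW : ∀ k a, val (y k) a ≠ 0 → a % 4 < 2) (V : X →L[ℝ] X) (hV : ∀ k, ‖V (y k)‖ ≤ (1 / 2) ^ k) :
    ∃ (z : ℕ → X) (η : ℝ), 0 < η ∧ RR z ∧ (∀ l, η ≤ ‖z l‖) ∧
      (∀ l a, val (z l) a ≠ 0 → a % 4 < 2) ∧ Tendsto (fun l => V (z l)) atTop (𝓝 0) := by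
  obtain ⟨x, h2, h3, h4, h5⟩ := AV1 hc hy h1 hW V hV
  exact AV2 h2 h3 h4 V h5

theorem shrink (g : X →L[ℝ] ℝ) {ε : ℝ} (hε : 0 < ε) :
    ∃ N, ∀ x : X, (∀ a, val x a ≠ 0 → N ≤ a) → |g x| ≤ ε * ‖x‖ := by
  by_contra hcon
  push Not at hcon
  have h1 : ∀ N, ∃ x : X, (∀ a, val x a ≠ 0 → N ≤ a) ∧ ‖x‖ ≤ 1 ∧ ε ≤ g x := by
    intro N
    obtain ⟨x, hx, hlt⟩ := hcon N
    have hx0 : 0 < ‖x‖ := by
      rw [norm_pos_iff]
      rintro rfl
      simp at hlt
    have hgx : g x ≠ 0 := by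
      intro h
      rw [h, abs_zero] at hlt
      nlinarith
    refine ⟨(|g x| / g x / ‖x‖) • x, fun a ha => hx a ?_, ?_, ?_⟩
    · rw [map_smul, Pi.smul_apply, smul_eq_mul] at ha
      exact right_ne_zero_of_mul ha
    · rw [norm_smul, Real.norm_eq_abs, abs_div, abs_div, abs_abs, div_self (abs_ne_zero.2 hgx),
        abs_norm, one_div, inv_mul_cancel₀ hx0.ne']
    · rw [map_smul, smul_eq_mul]
      have : |g x| / g x / ‖x‖ * g x = |g x| / ‖x‖ := by field_simp
      rw [this, le_div_iff₀ hx0]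
      exact hlt.le
  choose x hx1 hx2 hx3 using h1
  have hnull : ∀ a, Tendsto (fun k => val (x k) a) atTop (𝓝 0) := fun a => by
    refine tendsto_const_nhds.congr' ?_
    filter_upwards [eventually_gt_atTop a] with l hl
    by_contra hne
    have := hx1 l a (Ne.symm hne)
    omega
  have hε' : 0 < ε / (2 * (‖g‖ + 1)) := by positivity
  obtain ⟨s, c, hs, hc, hb⟩ := blocking hnull hnull hε'
  set y : ℕ → X := fun k => P (Iv c k) (x (s k)) with hy
  have hyb : Blk c y := blk_P c _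
  have hy1 : ∀ k, ‖y k‖ ≤ 1 := fun k => (norm_P_le _ _).trans (hx2 _)
  have hgy : ∀ k, ε / 2 ≤ g (y k) := by
    intro k
    have h1 := (hb k).1.trans (div_succ_le hε' k)
    have h2 := (le_abs_self _).trans (g.le_of_opNorm_le_of_le le_rfl h1)
    have h4 : ‖g‖ * (ε / (2 * (‖g‖ + 1))) ≤ ε / 2 := by
      rw [← mul_div_assoc, div_le_div_iff₀ (by positivity) (by positivity)]
      nlinarith [norm_nonneg g]
    rw [map_sub] at h2
    simp only [hy]
    linarith [hx3 (s k)]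
  have hR : Ris (fun l => (1 / (n l : ℝ)) • ∑ k ∈ Ico l (l + n l), y k) 2 := by
    refine ⟨by norm_num, fun l => ?_, fun a => ?_, fun i => ?_⟩
    · have hn := nR_pos l
      rw [norm_smul, Real.norm_of_nonneg (by positivity)]
      have h2 := (norm_sum_le _ _).trans (sum_le_sum fun k (_ : k ∈ Ico l (l + n l)) => hy1 k)
      rw [sum_const, Nat.card_Ico, Nat.add_sub_cancel_left, nsmul_eq_mul, mul_one] at h2
      rw [one_div, ← div_eq_inv_mul, div_le_iff₀ hn]
      linarith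
    · refine tendsto_const_nhds.congr' ?_
      filter_upwards [eventually_gt_atTop a] with l hl
      by_contra hne
      obtain ⟨k, hk, hka⟩ := exists_of_val_smul_sum (Ne.symm hne)
      have h5 := (hyb k a hka).1
      have h6 := hc.id_le k
      have h7 := (mem_Ico.1 hk).1
      simp only [id] at h6
      omega
    · filter_upwards [eventually_ge_atTop i] with l hl φ hφ
      have hn := nR_pos l
      refine (hφ.K.smul_sum_le (by positivity) _ _).trans ?_
      have h2 := split_avg (hyb.succ hc (Ico l (l + n l))) zero_le_one (fun k _ => hy1 k)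
        (by simpa using n_mono hl) hφ
      refine (mul_le_mul_of_nonneg_left h2 (by positivity)).trans (le_of_eq ?_)
      rw [Nat.card_Ico, Nat.add_sub_cancel_left]
      field_simp
  obtain ⟨l, hl⟩ := ((hR.weak g).eventually (eventually_lt_nhds (half_pos hε))).exists
  have hn := nR_pos l
  have h3 : (n l : ℝ) * (ε / 2) ≤ ∑ k ∈ Ico l (l + n l), g (y k) := by
    have := sum_le_sum fun k (_ : k ∈ Ico l (l + n l)) => hgy k
    rwa [sum_const, Nat.card_Ico, Nat.add_sub_cancel_left, nsmul_eq_mul] at this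
  rw [map_smul, map_sum, smul_eq_mul, one_div, ← div_eq_inv_mul, div_lt_iff₀ hn] at hl
  linarith

end Pool.Agent.H145Z.FP
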