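import Pool.Agent.H145Z.FP.F

set_option autoImplicit false

open Finset Filter Topology

noncomputable section

namespace Pool.Agent.H145Z.FP

def Jp (M N a : ℕ) : Prop := a % 4 < 2 ∧ M ≤ a / 2 ∧ a / 2 < N

def Qp (M a : ℕ) : Prop := a % 4 < 2 ∧ M ≤ a / 2

theorem claimA (S : X →L[ℝ] X) (hS : ∀ a, val (S (e a)) a = 0) (M₀ : ℕ) :
    ∃ M, M₀ ≤ M ∧ ∃ γ : ℝ, 0 < γ ∧ ∀ N (y : X), (∀ a, val y a ≠ 0 → Jp M N a) →
      γ * ‖y‖ ≤ ‖P (Jp M N) (y + S y)‖ := by
  by_contra hcon
  push Not at hcon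
  obtain ⟨f, hf0, hf⟩ := exists_chain (fun p q : ℕ × X => p.1 < q.1 ∧ (M₀ ≤ p.1 → ‖q.2‖ = 1 ∧
      (∀ a, val q.2 a ≠ 0 → Jp p.1 q.1 a) ∧ ‖P (Jp p.1 q.1) (q.2 + S q.2)‖ ≤ (1 / 2) ^ p.1))
    (fun p => by
      by_cases hp : M₀ ≤ p.1
      · obtain ⟨N, y, hy, hlt⟩ := hcon p.1 hp ((1 / 2) ^ p.1) (by positivity)
        have hy0 : y ≠ 0 := by
          rintro rfl
          simp at hlt
        have hn : 0 < ‖y‖ := norm_pos_iff.2 hy0
        obtain ⟨a, ha⟩ : ∃ a, val y a ≠ 0 := by
          by_contra h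
          push Not at h
          exact hy0 (X.ext fun a => by simp [h a])
        refine ⟨(N, ‖y‖⁻¹ • y), lt_of_le_of_lt (hy a ha).2.1 (hy a ha).2.2, fun _ =>
          ⟨?_, fun b hb => hy b ?_, ?_⟩⟩
        · simp only [norm_smul, norm_inv, norm_norm]
          exact inv_mul_cancel₀ hn.ne'
        · simp only [map_smul, Pi.smul_apply, smul_eq_mul] at hb
          exact right_ne_zero_of_mul hb
        · simp only
          rw [map_smul, ← smul_add, map_smul, norm_smul, norm_inv, norm_norm, ← div_eq_inv_mul,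
            div_le_iff₀ hn]
          exact hlt.le
      · exact ⟨(p.1 + 1, 0), by simp, fun h => absurd h hp⟩) (M₀, 0)
  set c : ℕ → ℕ := fun k => (f k).1 with hc'
  have hc : StrictMono c := strictMono_nat_of_lt_succ fun k => (hf k).1
  have hM : ∀ k, M₀ ≤ (f k).1 := fun k => by
    have := hc.monotone (Nat.zero_le k)
    simpa [hc', hf0] using this
  set y : ℕ → X := fun k => (f (k + 1)).2 with hy
  have hyJ : ∀ k a, val (y k) a ≠ 0 → Jp (c k) (c (k + 1)) a := fun k => ((hf k).2 (hM k)).2.1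
  have hyb : Blk c y := fun k a ha => (hyJ k a ha).2
  obtain ⟨S', -, hS'1, hS'2⟩ := exists_BD_blk S hc
  obtain ⟨z, η, hη, hz, hz1, -, hz2⟩ := AV hc hyb (fun k => ((hf k).2 (hM k)).1)
    (fun k a ha => (hyJ k a ha).1) (1 + Q.comp S') (fun k => by
      have h1 : (1 + Q.comp S') (y k) = P (Jp (c k) (c (k + 1))) (y k + S (y k)) := by
        simp only [add_apply, one_apply_eq_self, ContinuousLinearMap.comp_apply,
          map_add, hS'2 k _ (hyb k), P_eq_self (hyJ k)]
        congr 1
        refine X.ext fun a => ?_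
        by_cases h : Jp (c k) (c (k + 1)) a
        · rw [val_P_pos _ h, val_Q, if_pos h.1, val_P_pos _ h.2]
        · rw [val_P_neg _ h, val_Q]
          split_ifs with h2
          · exact val_P_neg _ fun h3 => h ⟨h2, h3⟩
          · rfl
      rw [h1]
      exact ((hf k).2 (hM k)).2.2.trans
        (pow_le_pow_of_le_one (by norm_num) (by norm_num) (hc.id_le k)))
  have h2 := (hz2.sub (MT hz S' fun a => by rw [hS'1, hS])).norm
  simp only [add_apply, one_apply_eq_self, ContinuousLinearMap.comp_apply,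
    add_sub_cancel_right, sub_zero, norm_zero] at h2
  exact absurd (ge_of_tendsto' h2 hz1) (not_le.2 hη)

lemma sub_P_le (p : ℕ → Prop) (x : X) : ‖x - P p x‖ ≤ ‖x‖ := by
  refine norm_mono fun a => ?_
  by_cases h : p a
  · simp [val_P_pos _ h]
  · simp [val_P_neg _ h]

lemma P_P (p : ℕ → Prop) (x : X) : P p (P p x) = P p x := P_eq_self fun _ h => (of_val_P_ne h).1

lemma bdd_below (S : X →L[ℝ] X) (p : ℕ → Prop) {γ : ℝ} (hγ : 0 < γ)
    (h : ∀ u : X, (∀ a, val u a ≠ 0 → p a) → γ * ‖u‖ ≤ ‖P p (u + S u)‖) (x : X) :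
    ‖x‖ ≤ (1 + 1 / γ) * ‖x + P p (S (P p x))‖ := by
  have h1 := h (P p x) fun _ h => (of_val_P_ne h).1
  have h2 : P p (P p x + S (P p x)) = P p (x + P p (S (P p x))) := by
    simp only [map_add, P_P]
  have h3 := norm_P_le p (x + P p (S (P p x)))
  have h4 := sub_P_le p (x + P p (S (P p x)))
  have h5 : x + P p (S (P p x)) - P p (x + P p (S (P p x))) = x - P p x := by
    simp only [map_add, P_P]; abel
  have h6 := norm_add_le (x - P p x) (P p x)
  rw [sub_add_cancel] at h6
  rw [h5] at h4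
  rw [h2] at h1
  have h7 : ‖P p x‖ ≤ 1 / γ * ‖x + P p (S (P p x))‖ := by
    rw [one_div, ← div_eq_inv_mul, le_div_iff₀ hγ]
    linarith
  linarith

lemma compact_P (p : ℕ → Prop) (F : Finset ℕ) (h : ∀ a, p a → a ∈ F) :
    IsCompactOperator (P p) := by
  have h1 : P p = ∑ a ∈ F, ((coord a).comp (P p)).smulRight (e a) := by
    ext x
    conv_lhs => rw [eq_sum_e (x := P p x) F fun a ha => h a (of_val_P_ne ha).1]
    simp
  have h2 : (∑ a ∈ F, ((coord a).comp (P p)).smulRight (e a)) ∈
      compactOperator (RingHom.id ℝ) X X := by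
    refine Submodule.sum_mem _ fun a _ => ?_
    exact (isCompactOperator_of_locallyCompactSpace_dom ((coord a).comp (P p))).clm_comp
      (ContinuousLinearMap.toSpanSingleton ℝ (e a))
  rw [h1]
  exact h2

theorem INV (S : X →L[ℝ] X) (hS : ∀ a, val (S (e a)) a = 0) (M₀ : ℕ) :
    ∃ M, M₀ ≤ M ∧ IsUnit (1 + P (Qp M) * S * P (Qp M)) := by
  obtain ⟨M, hM, γ, hγ, h⟩ := claimA S hS M₀
  refine ⟨M, hM, ?_⟩
  have hq : ∀ u : X, (∀ a, val u a ≠ 0 → Qp M a) → γ * ‖u‖ ≤ ‖P (Qp M) (u + S u)‖ := by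
    intro u hu
    have h1 : Tendsto (fun N => P (Jp M N) u) atTop (𝓝 u) := by
      refine Metric.tendsto_atTop.2 fun ε hε => ?_
      obtain ⟨N, hN⟩ := tail_le u (half_pos hε)
      refine ⟨N, fun k hk => ?_⟩
      rw [dist_comm, dist_eq_norm]
      refine lt_of_le_of_lt (le_trans (norm_mono fun a => ?_) (hN (fun a => N ≤ a) fun _ h => h))
        (half_lt_self hε)
      by_cases h2 : Jp M k a
      · simp [val_P_pos _ h2]
      · by_cases h3 : val u a = 0
        · simp [val_P_neg _ h2, h3]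
        · have h4 := hu a h3
          have h5 : N ≤ a := by
            simp only [Jp, Qp] at h2 h4
            omega
          simp [val_P_neg _ h2, val_P_pos (p := fun a => N ≤ a) _ h5]
    have h2 : Tendsto (fun N => ‖P (Qp M) (P (Jp M N) u + S (P (Jp M N) u))‖) atTop
        (𝓝 ‖P (Qp M) (u + S u)‖) :=
      (((P (Qp M)).continuous.tendsto _).comp (h1.add ((S.continuous.tendsto _).comp h1))).norm
    refine le_of_tendsto_of_tendsto' (h1.norm.const_mul γ) h2 fun N => ?_
    exact (h N _ fun a ha => (of_val_P_ne ha).1).trans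
      (norm_P_mono (fun a ha => ⟨ha.1, ha.2.1⟩) _)
  have hsurj : ∀ N (y : X), ∃ x, x + P (Jp M N) (S (P (Jp M N) x)) = y := by
    intro N y
    have h1 : IsCompactOperator (-((P (Jp M N)).comp (S.comp (P (Jp M N)))) : X →L[ℝ] X) :=
      ((compact_P _ (range (2 * N)) fun a ha => by
        have := ha.2.2
        simp only [mem_range]; omega).comp_clm (S.comp (P (Jp M N)))).neg
    rcases h1.hasEigenvalue_or_mem_resolventSet one_ne_zero with h2 | h2
    · obtain ⟨x, hx⟩ := h2.exists_hasEigenvector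
      have h3 := hx.apply_eq_smul
      have h4 := bdd_below S (Jp M N) hγ (h N) x
      have h5 : x + P (Jp M N) (S (P (Jp M N) x)) = 0 := by
        simp only [one_smul, ContinuousLinearMap.coe_coe, neg_apply,
          ContinuousLinearMap.comp_apply] at h3
        rw [← h3]
        simp only [h3]
        exact add_eq_zero_iff_neg_eq'.2 h3
      rw [h5, norm_zero, mul_zero] at h4
      exact absurd (norm_le_zero_iff.1 h4) hx.2
    · rw [spectrum.mem_resolventSet_iff, ContinuousLinearMap.isUnit_iff_bijective] at h2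
      obtain ⟨x, hx⟩ := h2.2 y
      exact ⟨x, by simpa using hx⟩
  rw [ContinuousLinearMap.isUnit_iff_bijective,
    ContinuousLinearMap.bijective_iff_dense_range_and_antilipschitz]
  refine ⟨?_, ⟨⟨1 + 1 / γ, by positivity⟩, ContinuousLinearMap.antilipschitz_of_bound _ fun x =>
    bdd_below S (Qp M) hγ hq x⟩⟩
  by_contra hne
  set A : X →L[ℝ] X := 1 + P (Qp M) * S * P (Qp M) with hA
  obtain ⟨x₀, hx₀⟩ : ∃ x₀, x₀ ∉ A.range.topologicalClosure := by
    by_contra h1
    push Not at h1
    exact hne (Submodule.eq_top_iff'.2 h1)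
  obtain ⟨f, u, hf1, hf2⟩ := geometric_hahn_banach_closed_point
    (A.range.topologicalClosure.convex) (Submodule.isClosed_topologicalClosure _) hx₀
  have hf0 : ∀ x, f (A x) = 0 := by
    intro x
    by_contra h1
    have h2 := hf1 ((u / f (A x)) • A x) (Submodule.smul_mem _ _
      (Submodule.le_topologicalClosure _ ⟨x, rfl⟩))
    rw [map_smul, smul_eq_mul, div_mul_cancel₀ _ h1] at h2
    exact lt_irrefl _ h2
  have hfe : ∀ b, f (e b) = 0 := by
    intro b
    have key : ∀ ε > 0, |f (e b)| ≤ ε * (‖S‖ * (1 + 1 / γ)) := by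
      intro ε hε
      obtain ⟨N₀, hN₀⟩ := shrink f hε
      obtain ⟨x, hx⟩ := hsurj (N₀ + b + 1) (e b)
      set N := N₀ + b + 1 with hN
      have h1 := bdd_below S (Jp M N) hγ (h N) x
      rw [hx, norm_e, mul_one] at h1
      have h2 : P (Qp M) x = P (Jp M N) x := by
        refine X.ext fun a => ?_
        by_cases h3 : Jp M N a
        · rw [val_P_pos _ h3, val_P_pos (p := Qp M) _ ⟨h3.1, h3.2.1⟩]
        · rw [val_P_neg _ h3]
          by_cases h4 : Qp M a
          · rw [val_P_pos _ h4]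
            have h5 := congrArg (fun z => val z a) hx
            have h6 : a ≠ b := by
              simp only [Jp, Qp] at h3 h4
              omega
            simpa [val_P_neg _ h3, val_e, h6] using h5
          · exact val_P_neg _ h4
      have h3 : A x = e b + P (fun a => Qp M a ∧ ¬ Jp M N a) (S (P (Jp M N) x)) := by
        rw [← hx]
        simp only [hA, add_apply, one_apply_eq_self, mul_apply_eq_comp,
          h2, add_assoc]
        congr 1
        refine X.ext fun a => ?_
        rw [map_add, Pi.add_apply]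
        by_cases h4 : Jp M N a
        · rw [val_P_pos _ h4, val_P_pos (p := Qp M) _ ⟨h4.1, h4.2.1⟩,
            val_P_neg (p := fun a => Qp M a ∧ ¬ Jp M N a) _ (fun h => h.2 h4), add_zero]
        · rw [val_P_neg _ h4, zero_add]
          by_cases h5 : Qp M a
          · rw [val_P_pos _ h5, val_P_pos (p := fun a => Qp M a ∧ ¬ Jp M N a) _ ⟨h5, h4⟩]
          · rw [val_P_neg _ h5, val_P_neg (p := fun a => Qp M a ∧ ¬ Jp M N a) _ fun h => h5 h.1]
      have h4 := hf0 x
      rw [h3, map_add, add_eq_zero_iff_eq_neg] at h4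
      rw [h4, abs_neg]
      refine (hN₀ _ fun a ha => ?_).trans (mul_le_mul_of_nonneg_left ?_ hε.le)
      · have := (of_val_P_ne ha).1
        simp only [Jp, Qp] at this
        omega
      · exact (norm_P_le _ _).trans (S.le_of_opNorm_le_of_le le_rfl ((norm_P_le _ _).trans h1))
    have h1 : Tendsto (fun ε : ℝ => ε * (‖S‖ * (1 + 1 / γ))) (𝓝[>] 0) (𝓝 0) := by
      have : Tendsto (fun ε : ℝ => ε * (‖S‖ * (1 + 1 / γ))) (𝓝 0) (𝓝 (0 * (‖S‖ * (1 + 1 / γ)))) :=
        tendsto_id.mul_const _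
      rw [zero_mul] at this
      exact this.mono_left nhdsWithin_le_nhds
    exact abs_nonpos_iff.1 (ge_of_tendsto h1 (eventually_nhdsWithin_of_forall key))
  have hf : f = 0 := ext_e fun b => by simp [hfe]
  have h1 := hf1 0 (Submodule.zero_mem _)
  rw [hf] at h1 hf2
  simp only [zero_apply] at h1 hf2
  linarith

end Pool.Agent.H145Z.FP
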