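import Pool.Agent.H145Z.FP.G

set_option autoImplicit false

open Finset Filter Topology

noncomputable section

namespace Pool.Agent.H145Z.FP

lemma norm_le_of_Z {x : X} (hx : ∀ a, a % 4 < 2 → val x a = 0) {β : ℝ} (h : ∀ a, |val x a| ≤ β) :
    ‖x‖ ≤ β := by
  refine norm_le fun φ hφ => ?_
  rcases hφ with ⟨a, rfl⟩ | ⟨u, hu⟩
  · exact h a
  · rw [hu.eq_zero hx]; exact (abs_nonneg _).trans (h 0)

lemma RR_eZ : RR fun k => e (4 * k + 2) := by
  refine ⟨⟨1, one_pos, fun k => (norm_e _).le, fun a => ?_, fun i => ?_⟩, ?_⟩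
  · refine tendsto_const_nhds.congr' ?_
    filter_upwards [eventually_gt_atTop a] with l hl
    rw [val_e, if_neg (by omega)]
  · refine Eventually.of_forall fun k φ hφ => ?_
    rw [hφ.eq_zero fun a ha => by rw [val_e, if_neg (by omega)]]
    exact (div_pos one_pos (mR_pos i)).le
  · refine tendsto_const_nhds.congr fun k => X.ext fun a => ?_
    rw [val_J_apply, val_e]
    split_ifs <;> first | omega | simp

lemma P_e (p : ℕ → Prop) [DecidablePred p] (b : ℕ) : P p (e b) = if p b then e b else 0 := by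
  refine X.ext fun a => ?_
  rw [val_P]
  by_cases hab : a = b
  · subst hab; split_ifs <;> simp
  · split_ifs <;> simp [val_e, hab]

lemma exists_sparse (S : X →L[ℝ] X) (hS : ∀ a, val (S (e a)) a = 0) {ε : ℝ} (hε : 0 < ε) :
    ∃ t : ℕ → ℕ, StrictMono t ∧ (∀ k, t k % 4 = 2) ∧
      ‖P (fun a => a % 4 < 2 ∨ ∃ k, t k = a) * S * P (fun a => ∃ k, t k = a)‖ ≤ 4 * ε := by
  classical
  obtain ⟨f, hf0, hf⟩ := exists_chain (fun p q : ℕ × ℕ => q.1 = p.1 + 1 ∧ p.2 < q.2 ∧
      q.2 % 4 = 2 ∧ ‖Q (S (e q.2))‖ ≤ ε * (1 / 2) ^ p.1 ∧ ∀ b ∈ range (p.2 + 1),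
        |val (S (e q.2)) b| ≤ ε * (1 / 2) ^ p.1 ∧ |val (S (e b)) q.2| ≤ ε * (1 / 2) ^ p.1)
    (fun p => by
      have hη : 0 < ε * (1 / 2) ^ p.1 := by positivity
      have h1 := (MT RR_eZ S hS).norm
      rw [norm_zero] at h1
      obtain ⟨C, hC⟩ := RR_eZ.1
      have h2 : ∀ b, ∀ᶠ k in atTop, |val (S (e (4 * k + 2))) b| ≤ ε * (1 / 2) ^ p.1 ∧
          |val (S (e b)) (4 * k + 2)| ≤ ε * (1 / 2) ^ p.1 := by
        intro b
        have h3 := (hC.null_op S b).abs
        have h4 := ((val_tendsto (S (e b))).comp (tendsto_atTop_mono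
          (f := id) (g := fun k => 4 * k + 2) (fun l => by simp only [id]; omega) tendsto_id)).abs
        rw [abs_zero] at h3 h4
        exact (h3.eventually (eventually_le_nhds hη)).and (h4.eventually (eventually_le_nhds hη))
      obtain ⟨k, hk1, hk2, hk3⟩ := ((eventually_gt_atTop p.2).and
        ((h1.eventually (eventually_le_nhds hη)).and
          ((eventually_all_finset (range (p.2 + 1))).2 fun b _ => h2 b))).exists
      exact ⟨(p.1 + 1, 4 * k + 2), rfl, by simp only; omega, by simp only; omega, hk2, hk3⟩) (0, 0)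
  have hcount : ∀ k, (f k).1 = k := by
    intro k
    induction k with
    | zero => rw [hf0]
    | succ k ih => rw [(hf k).1, ih]
  have hmono : StrictMono fun k => (f k).2 := strictMono_nat_of_lt_succ fun k => (hf k).2.1
  set t : ℕ → ℕ := fun k => (f (k + 1)).2 with ht
  have htm : StrictMono t := fun k l hkl => hmono (by omega)
  have ht2 : ∀ k, t k % 4 = 2 := fun k => (hf k).2.2.1
  refine ⟨t, htm, ht2, opNorm_le_of_sum fun N => ?_⟩
  have hent : ∀ i k, |val (S (e (t k))) (t i)| ≤ ε * (1 / 2) ^ k := by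
    intro i k
    rcases lt_trichotomy i k with h | rfl | h
    · have := ((hf k).2.2.2.2 (t i) (mem_range.2 (Nat.lt_succ_of_le (hmono.monotone h)))).1
      rwa [hcount] at this
    · rw [hS, abs_zero]; positivity
    · have := ((hf i).2.2.2.2 (t k) (mem_range.2 (Nat.lt_succ_of_le (hmono.monotone h)))).2
      rw [hcount] at this
      exact this.trans (mul_le_mul_of_nonneg_left
        (pow_le_pow_of_le_one (by norm_num) (by norm_num) h.le) hε.le)
  have hcol : ∀ k, ‖P (fun a => a % 4 < 2 ∨ ∃ k, t k = a) (S (e (t k)))‖ ≤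
      2 * ε * (1 / 2) ^ k := by
    intro k
    have h1 : P (fun a => a % 4 < 2 ∨ ∃ k, t k = a) (S (e (t k))) =
        Q (S (e (t k))) + P (fun a => ∃ k, t k = a) (S (e (t k))) := by
      refine X.ext fun a => ?_
      simp only [map_add, Pi.add_apply, val_Q, val_P]
      by_cases h2 : ∃ k, t k = a
      · have h3 : ¬ a % 4 < 2 := by
          obtain ⟨i, rfl⟩ := h2
          have := ht2 i
          omega
        simp [h2, h3]
      · simp [h2]
    have h2 := (hf k).2.2.2.1
    rw [hcount] at h2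
    have h3 : ‖P (fun a => ∃ k, t k = a) (S (e (t k)))‖ ≤ ε * (1 / 2) ^ k := by
      refine norm_le_of_Z (fun a ha => val_P_neg _ ?_) fun a => ?_
      · rintro ⟨i, rfl⟩
        have := ht2 i
        omega
      · by_cases h4 : ∃ k, t k = a
        · rw [val_P_pos (p := fun a => ∃ k, t k = a) _ h4]
          obtain ⟨i, rfl⟩ := h4
          exact hent i k
        · rw [val_P_neg (p := fun a => ∃ k, t k = a) _ h4, abs_zero]; positivity
    rw [h1]
    linarith [norm_add_le (Q (S (e (t k)))) (P (fun a => ∃ k, t k = a) (S (e (t k))))]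
  calc ∑ a ∈ range N, ‖(P (fun a => a % 4 < 2 ∨ ∃ k, t k = a) * S * P fun a => ∃ k, t k = a) (e a)‖
      = ∑ a ∈ (range N).filter (fun a => ∃ k, t k = a),
          ‖P (fun a => a % 4 < 2 ∨ ∃ k, t k = a) (S (e a))‖ := by
        rw [sum_filter]
        refine sum_congr rfl fun a _ => ?_
        simp only [mul_apply_eq_comp, P_e]
        split_ifs <;> simp
    _ ≤ ∑ a ∈ (range N).image t, ‖P (fun a => a % 4 < 2 ∨ ∃ k, t k = a) (S (e a))‖ := by
        refine sum_le_sum_of_subset_of_nonneg (fun a ha => ?_) fun _ _ _ => norm_nonneg _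
        obtain ⟨h1, k, rfl⟩ := mem_filter.1 ha
        exact mem_image_of_mem _ (mem_range.2 (lt_of_le_of_lt (htm.id_le k) (mem_range.1 h1)))
    _ = ∑ k ∈ range N, ‖P (fun a => a % 4 < 2 ∨ ∃ k, t k = a) (S (e (t k)))‖ :=
        sum_image fun _ _ _ _ h => htm.injective h
    _ ≤ ∑ k ∈ range N, 2 * ε * (1 / 2) ^ k := sum_le_sum fun k _ => hcol k
    _ ≤ 4 * ε := by
        rw [← mul_sum]
        nlinarith [sum_geometric_two_le N]

lemma exists_relabel (M : ℕ) (t : ℕ → ℕ) (ht : StrictMono t) (ht2 : ∀ k, t k % 4 = 2) :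
    ∃ L R : X →L[ℝ] X, L * R = 1 ∧ P (fun a => Qp M a ∨ ∃ k, t k = a) * R = R := by
  classical
  set ρ : ℕ → ℕ := fun a => if Qp M a then a else t a with hρ
  have hρ1 : ∀ a b, ρ a = b → b % 4 < 2 → a = b := by
    intro a b h hb
    simp only [hρ] at h
    split_ifs at h
    · exact h
    · have := ht2 a; omega
  have hinj : Function.Injective ρ := by
    intro a b hab
    by_cases ha : Qp M a
    · have h1 : ρ a = a := if_pos ha
      exact (hρ1 b a (hab ▸ h1) ha.1).symm
    · by_cases hb : Qp M b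
      · exact hρ1 a b (hab.trans (if_pos hb)) hb.1
      · simp only [hρ, if_neg ha, if_neg hb] at hab
        exact ht.injective hab
  have hle : ∀ a, a ≤ ρ a := fun a => by
    simp only [hρ]
    split_ifs
    · exact le_rfl
    · exact ht.id_le a
  obtain ⟨R, -, hR⟩ := exists_op (fun a => e (ρ a)) zero_le_one fun N x => by
    have h1 : ∀ b, val (∑ a ∈ range N, val x a • e (ρ a)) b = 0 ∨
        ∃ a, ρ a = b ∧ val (∑ a ∈ range N, val x a • e (ρ a)) b = val x a := by
      intro b
      simp only [map_sum, map_smul, Finset.sum_apply, Pi.smul_apply, val_e, smul_eq_mul]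
      by_cases h : ∃ a ∈ range N, ρ a = b
      · obtain ⟨a, ha, rfl⟩ := h
        refine Or.inr ⟨a, rfl, ?_⟩
        rw [sum_eq_single a (fun a' _ hne => by simp [hinj.ne hne.symm]) (fun h => absurd ha h)]
        simp
      · refine Or.inl (sum_eq_zero fun a ha => ?_)
        rw [if_neg fun h' => h ⟨a, ha, h'.symm⟩, mul_zero]
    rw [one_mul]
    refine norm_le fun φ hφ => ?_
    rcases hφ with ⟨b, rfl⟩ | ⟨u, hu⟩
    · rcases h1 b with h | ⟨a, -, h⟩
      · simp [h]
      · simp only [h]; exact abs_le_norm x a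
    · refine (hu.mono _ (val x) fun b hb => ?_).trans (le_norm hu.K x)
      rcases h1 b with h | ⟨a, ha, h⟩
      · simp [h]
      · rw [h, hρ1 a b ha hb]
  have hmem : ∀ y : X, (fun a => val y (ρ a)) ∈ sub := by
    intro y ε hε
    obtain ⟨N, hN⟩ := val_mem y ε hε
    refine ⟨max N (2 * M), fun φ hφ => ?_⟩
    rcases hφ with ⟨a, rfl⟩ | ⟨u, hu⟩
    · refine le_trans ?_ (hN _ (K_leaf (ρ a)))
      have := hle a
      simp only [tl]
      split_ifs <;> first | omega | simp
    · refine (hu.mono _ (tl N (val y)) fun a ha => ?_).trans (hN _ hu.K)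
      simp only [tl]
      split_ifs with h1 h2
      · have : ρ a = a := if_pos ⟨ha, by omega⟩
        rw [this]
      · omega
      · simp
      · simp
  refine ⟨LinearMap.mkContinuous
    { toFun := fun y => mk _ (hmem y)
      map_add' := fun x y => X.ext fun a => by simp
      map_smul' := fun c x => X.ext fun a => by simp } (2 * M + 1) fun y => ?_, R, ?_, ?_⟩
  · refine norm_le fun φ hφ => ?_
    simp only [LinearMap.coe_mk, AddHom.coe_mk, val_mk]
    have hM : (0 : ℝ) ≤ M := Nat.cast_nonneg _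
    rcases hφ with ⟨a, rfl⟩ | ⟨u, hu⟩
    · nlinarith [abs_le_norm y (ρ a), norm_nonneg y]
    · have h1 : (fun a => val y (ρ a)) = (fun a => if a < 2 * M then val y (ρ a) else 0) +
          (fun a => if a < 2 * M then 0 else val y (ρ a)) := by
        funext a; simp only [Pi.add_apply]; split_ifs <;> simp
      have h2 := hu.K.le_l1 (fun a => if a < 2 * M then val y (ρ a) else 0) (range (2 * M))
        fun a ha => if_neg (by simpa using ha)
      have h3 : ∑ a ∈ range (2 * M), |(if a < 2 * M then val y (ρ a) else 0)| ≤ 2 * M * ‖y‖ := by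
        have := sum_le_sum (f := fun a => |(if a < 2 * M then val y (ρ a) else 0)|)
          (g := fun _ => ‖y‖) fun a (ha : a ∈ range (2 * M)) => by
            rw [if_pos (mem_range.1 ha)]; exact abs_le_norm y _
        simpa using this
      have h4 := (hu.mono (fun a => if a < 2 * M then 0 else val y (ρ a)) (val y) fun a ha => by
        split_ifs with h
        · simp
        · have : ρ a = a := if_pos ⟨ha, by omega⟩
          rw [this]).trans (le_norm hu.K y)
      rw [h1]
      linarith [hu.add_le (fun a => if a < 2 * M then val y (ρ a) else 0)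
        (fun a => if a < 2 * M then 0 else val y (ρ a))]
  · refine ext_ent fun a b => ?_
    simp only [mul_apply_eq_comp, hR, LinearMap.mkContinuous_apply, LinearMap.coe_mk,
      AddHom.coe_mk, val_mk, val_e, one_apply_eq_self, hinj.eq_iff]
  · refine ext_e fun a => ?_
    rw [mul_apply_eq_comp, hR, P_e, if_pos]
    simp only [hρ]
    split_ifs with h
    · exact Or.inl h
    · exact Or.inr ⟨a, rfl⟩

lemma P_mul_P (p q r : ℕ → Prop) (h : ∀ a, r a ↔ p a ∧ q a) : P p * P q = P r := by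
  classical
  ext x
  refine X.ext fun a => ?_
  simp only [mul_apply_eq_comp, val_P, h]
  by_cases hp : p a <;> by_cases hq : q a <;> simp [hp, hq]

theorem factorization (T : X →L[ℝ] X) {δ : ℝ} (hδ : 0 < δ) (h : ∀ a, δ ≤ |val (T (e a)) a|) :
    ∃ A B : X →L[ℝ] X, A.comp (T.comp B) = ContinuousLinearMap.id ℝ X := by
  classical
  have hd : ∀ a, |1 / val (T (e a)) a| ≤ 1 / δ := fun a => by
    rw [abs_div, abs_one]; exact one_div_le_one_div_of_le hδ (h a)
  set D' := D _ _ hd with hD'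
  set S := D' * T - 1 with hSdef
  have hS : ∀ a, val (S (e a)) a = 0 := fun a => by
    have : val (T (e a)) a ≠ 0 := abs_pos.1 (hδ.trans_le (h a))
    simp [hSdef, hD', val_e, this]
  obtain ⟨M, -, u, hu⟩ := INV S hS 0
  set G : X →L[ℝ] X := ↑u⁻¹ with hG
  have hGA : G * (1 + P (Qp M) * S * P (Qp M)) = 1 := by rw [← hu]; exact u.inv_mul
  have hε : 0 < 1 / (8 * (‖G‖ + ‖S‖ * ‖G‖ + 1)) := by positivity
  obtain ⟨t, ht, ht2, hE⟩ := exists_sparse S hS hε
  obtain ⟨L, R, hLR, hPR⟩ := exists_relabel M t ht ht2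
  set Pq := P (Qp M) with hPq
  set PN := P (fun a => ∃ k, t k = a) with hPN
  set PM := P (fun a => Qp M a ∨ ∃ k, t k = a) with hPM
  have hdisj : ∀ a, Qp M a → ¬ ∃ k, t k = a := by
    rintro a ha ⟨k, rfl⟩
    have := ht2 k
    have := ha.1
    omega
  have h1 : Pq * PN = 0 := by
    ext x
    exact P_eq_zero fun a ha => val_P_neg _ (hdisj a ha)
  have h2 : PM = Pq + PN := by
    ext x
    refine X.ext fun a => ?_
    simp only [hPM, hPq, hPN, add_apply, map_add, Pi.add_apply, val_P]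
    by_cases h3 : Qp M a
    · simp [h3, hdisj a h3]
    · simp [h3]
  have h3 : PM * PM = PM := P_mul_P _ _ _ (by tauto)
  have h4 : G * PN = PN := by
    have : G * ((1 + Pq * S * Pq) * PN) = PN := by rw [← mul_assoc, hGA, one_mul]
    rwa [add_mul, one_mul, mul_assoc, h1, mul_zero, add_zero] at this
  set Cn := PN * S * Pq with hCn
  set E := PM * S * PN with hEdef
  set H := G - Cn * G with hH
  have h5 : H * (1 + Pq * S * Pq + Cn) = 1 := by
    have h6 : G * Cn = Cn := by rw [hCn, ← mul_assoc, ← mul_assoc, h4]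
    have h7 : Cn * Cn = 0 := by
      rw [hCn]
      calc PN * S * Pq * (PN * S * Pq) = PN * S * (Pq * PN) * S * Pq := by noncomm_ring
        _ = 0 := by rw [h1]; simp
    calc H * (1 + Pq * S * Pq + Cn)
        = G * (1 + Pq * S * Pq) + G * Cn - Cn * (G * (1 + Pq * S * Pq)) - Cn * (G * Cn) := by
          rw [hH]; noncomm_ring
      _ = 1 := by rw [hGA, h6, h7]; simp
  have hEn : ‖E‖ ≤ 4 * (1 / (8 * (‖G‖ + ‖S‖ * ‖G‖ + 1))) := by
    refine le_trans (ContinuousLinearMap.opNorm_le_bound _ (norm_nonneg _) fun x => ?_) hE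
    refine le_trans ?_ (ContinuousLinearMap.le_opNorm _ x)
    exact norm_P_mono (fun a ha => ha.imp_left fun h => h.1) _
  have hHn : ‖H‖ ≤ ‖G‖ + ‖S‖ * ‖G‖ := by
    refine (norm_sub_le _ _).trans (add_le_add le_rfl ((norm_mul_le _ _).trans
      (mul_le_mul_of_nonneg_right ?_ (norm_nonneg _))))
    refine ContinuousLinearMap.opNorm_le_bound _ (norm_nonneg _) fun x => ?_
    exact (norm_P_le _ _).trans (S.le_of_opNorm_le_of_le le_rfl (norm_P_le _ _))
  have hHE : ‖-(H * E)‖ < 1 := by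
    rw [norm_neg]
    refine lt_of_le_of_lt ((norm_mul_le _ _).trans
      (mul_le_mul hHn hEn (norm_nonneg _) (by positivity))) ?_
    have h6 : 0 ≤ ‖G‖ + ‖S‖ * ‖G‖ := by positivity
    rw [← mul_div_assoc, ← mul_div_assoc, div_lt_one (by positivity)]
    linarith
  obtain ⟨v, hv⟩ := isUnit_one_sub_of_norm_lt_one hHE
  have h8 : (↑v⁻¹ * H) * (1 + PM * S * PM) = 1 := by
    have h9 : 1 + PM * S * PM = (1 + Pq * S * Pq + Cn) + E := by
      rw [hCn, hEdef, h2]; noncomm_ring
    rw [h9, mul_assoc, mul_add H, h5, ← sub_neg_eq_add, ← hv]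
    exact v.inv_mul
  refine ⟨L * (↑v⁻¹ * H) * PM * D', R, ?_⟩
  change L * (↑v⁻¹ * H) * PM * D' * (T * R) = 1
  have h10 : D' * T = 1 + S := by rw [hSdef]; abel
  have h11 : PM * (1 + S) * PM = (1 + PM * S * PM) * PM := by
    rw [mul_add, mul_one, add_mul, add_mul, one_mul, h3, mul_assoc (PM * S) PM PM, h3]
  calc L * (↑v⁻¹ * H) * PM * D' * (T * R) = L * (↑v⁻¹ * H) * (PM * (D' * T) * PM) * R := by
        conv_lhs => rw [← hPR]
        noncomm_ring
    _ = L * ((↑v⁻¹ * H) * (1 + PM * S * PM)) * (PM * R) := by rw [h10, h11]; noncomm_ring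
    _ = 1 := by rw [h8, mul_one, hPR, hLR]

lemma Q_eq_self {x : X} (h : ∀ a, val x a ≠ 0 → a % 4 < 2) : Q x = x := P_eq_self h

lemma dg_comm (S T : X →L[ℝ] X) (x : X) : dg S (dg T x) = dg T (dg S x) :=
  X.ext fun a => by simp only [val_dg]; ring

lemma tendsto_op {x : ℕ → X} (h : Tendsto x atTop (𝓝 0)) (T : X →L[ℝ] X) :
    Tendsto (fun k => T (x k)) atTop (𝓝 0) := by
  simpa [Function.comp_def] using (T.continuous.tendsto 0).comp h

theorem KL2 {z : ℕ → X} (hz : RR z) (hW : ∀ l a, val (z l) a ≠ 0 → a % 4 < 2)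
    (S R : X →L[ℝ] X) :
    Tendsto (fun k => Q (S (R (z k))) - dg S (dg R (z k))) atTop (𝓝 0) := by
  have h1 := (KL (hz.op R) S).add (tendsto_op (KL hz R) (dg S))
  rw [add_zero] at h1
  refine h1.congr fun k => ?_
  rw [map_sub, Q_eq_self (hW k)]
  abel

lemma blk_e {t : ℕ → ℕ} (ht : ∀ k, t k / 2 < t (k + 1) / 2) : Blk (fun k => t k / 2)
    fun k => e (t k) := by
  intro k a ha
  rw [val_e] at ha
  have : a = t k := by simpa using ha
  subst this
  exact ⟨le_rfl, ht k⟩

theorem not_square (R₁ R₂ S₁ S₂ : X →L[ℝ] X) (h11 : ∀ x, S₁ (R₁ x) = x) (h22 : ∀ x, S₂ (R₂ x) = x)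
    (h21 : ∀ x, S₂ (R₁ x) = 0) : False := by
  obtain ⟨z, η, hη, hz, hz1, hW, -⟩ := AV (c := fun k => 4 * k / 2) (y := fun k => e (4 * k))
    (strictMono_nat_of_lt_succ fun k => by omega) (blk_e fun k => by omega) (fun k => norm_e _)
    (fun k a ha => by
      rw [val_e] at ha
      have : a = 4 * k := by simpa using ha
      omega) 0 (fun k => by simp)
  have h1 := KL2 hz hW S₁ R₁
  have h2 := KL2 hz hW S₂ R₂
  have h3 := KL2 hz hW S₂ R₁
  simp only [h11, h22, h21, map_zero, zero_sub, Q_eq_self (hW _)] at h1 h2 h3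
  have h4 := (h1.add (tendsto_op (tendsto_op h2 (dg R₁)) (dg S₁))).sub
    (tendsto_op (tendsto_op h3 (dg R₂)) (dg S₁))
  have h5 : Tendsto z atTop (𝓝 0) := by
    simp only [add_zero, sub_zero] at h4
    refine h4.congr fun k => X.ext fun a => ?_
    simp only [map_sub, map_add, map_neg, Pi.sub_apply, Pi.add_apply, Pi.neg_apply, val_dg]
    ring
  have h6 := h5.norm
  rw [norm_zero] at h6
  exact absurd (ge_of_tendsto' h6 hz1) (not_le.2 hη)

end Pool.Agent.H145Z.FP
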