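import Pool.Agent.H145Z.FP.H

set_option autoImplicit false

open Finset Filter Topology

noncomputable section

namespace Pool.Agent.H145Z.FP

lemma diag_eventually_large (R L : X →L[ℝ] X) (h : ∀ x, L (R x) = x) :
    ∃ M, ∃ γ : ℝ, 0 < γ ∧ ∀ a, Qp M a → γ ≤ |val (R (e a)) a| := by
  by_contra hcon
  push Not at hcon
  obtain ⟨f, -, hf⟩ := exists_chain (fun p q : ℕ => p / 2 < q / 2 ∧ q % 4 < 2 ∧
      |val (R (e q)) q| ≤ (1 / 2) ^ (p / 2)) (fun p => by
    obtain ⟨a, ha, hlt⟩ := hcon (p / 2 + 1) ((1 / 2) ^ (p / 2)) (by positivity)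
    exact ⟨a, ha.2, ha.1, hlt.le⟩) 0
  have hc : StrictMono fun k => f k / 2 := strictMono_nat_of_lt_succ fun k => (hf k).1
  obtain ⟨z, η, hη, hz, hz1, hW, hV⟩ := AV (c := fun k => f (k + 1) / 2) (y := fun k => e (f (k + 1)))
    (fun k l hkl => hc (by omega)) (blk_e (t := fun k => f (k + 1)) fun k => (hf (k + 1)).1)
    (fun k => norm_e _)
    (fun k a ha => by
      rw [val_e] at ha
      have : a = f (k + 1) := by simpa using ha
      exact this ▸ (hf k).2.1) (dg R) (fun k => by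
      have h1 : dg R (e (f (k + 1))) = val (R (e (f (k + 1)))) (f (k + 1)) • e (f (k + 1)) := by
        refine X.ext fun a => ?_
        simp only [val_dg, map_smul, Pi.smul_apply, val_e, smul_eq_mul]
        split_ifs with h
        · rw [h]
        · simp
      rw [h1, norm_smul, norm_e, mul_one]
      exact (hf k).2.2.trans (pow_le_pow_of_le_one (by norm_num) (by norm_num) (hc.id_le k)))
  have h1 := (KL2 hz hW L R).add (tendsto_op hV (dg L))
  simp only [h, Q_eq_self (hW _), sub_add_cancel, add_zero] at h1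
  have h6 := h1.norm
  rw [norm_zero] at h6
  exact absurd (ge_of_tendsto' h6 hz1) (not_le.2 hη)

lemma weak_e (g : X →L[ℝ] ℝ) : Tendsto (fun a => g (e a)) atTop (𝓝 0) := by
  refine Metric.tendsto_atTop.2 fun ε hε => ?_
  obtain ⟨N, hN⟩ := shrink g (half_pos hε)
  refine ⟨N, fun a ha => ?_⟩
  have := hN (e a) fun b hb => by
    rw [val_e] at hb
    have : b = a := by simpa using hb
    omega
  rw [norm_e, mul_one] at this
  rw [Real.dist_eq, sub_zero]
  linarith

lemma J_e0 (k : ℕ) : J (e (4 * k)) = e (4 * k + 1) := by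
  refine X.ext fun a => ?_
  simp only [val_J_apply, val_e]
  split_ifs <;> first | omega | rfl

lemma J_e1 (k : ℕ) : J (e (4 * k + 1)) = 0 := by
  refine X.ext fun a => ?_
  simp only [val_J_apply, val_e]
  split_ifs <;> first | omega | simp

theorem nonuniform (lam : ℝ) (R S : X →L[ℝ] X) (h : ∀ x, S (R x + lam • J (R x)) = x) :
    lam ≤ ‖R‖ * ‖S‖ := by
  classical
  obtain ⟨M₀, γ, hγ, hd⟩ := diag_eventually_large R (S * (1 + lam • J)) (by simpa using h)
  set d : ℕ → ℝ := fun a => if Qp M₀ a then 1 / val (R (e a)) a else 1 with hdd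
  have hd1 : ∀ a, |d a| ≤ max (1 / γ) 1 := fun a => by
    simp only [hdd]
    split_ifs with ha
    · rw [abs_div, abs_one]
      exact le_max_of_le_left (one_div_le_one_div_of_le hγ (hd a ha))
    · simp
  have hd0 : ∀ a, d a ≠ 0 := fun a => by
    simp only [hdd]
    split_ifs with ha
    · exact one_div_ne_zero (abs_pos.1 (hγ.trans_le (hd a ha)))
    · exact one_ne_zero
  set D' := D d _ hd1 with hD'
  set S₀ := D' * R - dg (D' * R) with hS₀
  obtain ⟨M, hM, v, hv⟩ := INV S₀ (fun a => by simp [hS₀, val_dg, val_e]) M₀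
  set G : X →L[ℝ] X := ↑v⁻¹ with hG
  have hAG : ∀ y, G y + P (Qp M) (S₀ (P (Qp M) (G y))) = y := fun y => by
    have := congrArg (fun T : X →L[ℝ] X => T y) (v.mul_inv)
    rw [hv] at this
    simpa using this
  set t : ℕ → X := fun k => e (4 * (k + M)) - lam • e (4 * (k + M) + 1) with ht
  have htq : ∀ k a, ¬ Qp M a → val (t k) a = 0 := fun k a ha => by
    simp only [Qp] at ha
    simp only [ht, map_sub, map_smul, Pi.sub_apply, Pi.smul_apply, val_e]
    rw [if_neg (by omega), if_neg (by omega)]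
    simp
  set u : ℕ → X := fun k => G (D' (t k)) with hu
  have huq : ∀ k a, val (u k) a ≠ 0 → Qp M a := fun k a ha => by
    by_contra hq
    have := congrArg (fun z => val z a) (hAG (D' (t k)))
    simp only [map_add, Pi.add_apply, val_P_neg _ hq, add_zero, hD', val_D, htq k a hq,
      mul_zero] at this
    exact ha this
  have hRu : ∀ k, P (Qp M) (R (u k)) = t k := fun k => X.ext fun a => by
    by_cases hq : Qp M a
    · have h1 := congrArg (fun z => val z a) (hAG (D' (t k)))
      have hq₀ : Qp M₀ a := ⟨hq.1, hM.trans hq.2⟩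
      have h2 : d a * val (R (e a)) a = 1 := by
        simp only [hdd, if_pos hq₀]
        exact one_div_mul_cancel (abs_pos.1 (hγ.trans_le (hd a hq₀)))
      change val (u k + P (Qp M) (S₀ (P (Qp M) (u k)))) a = _ at h1
      rw [P_eq_self (huq k)] at h1
      simp only [map_add, Pi.add_apply, val_P_pos _ hq, hS₀, sub_apply, mul_apply_eq_comp,
        map_sub, Pi.sub_apply, val_dg, hD', val_D, h2] at h1
      rw [val_P_pos _ hq]
      exact mul_left_cancel₀ (hd0 a) (by linarith)
    · rw [val_P_neg _ hq, htq k a hq]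
  have hwk : ∀ g : X →L[ℝ] ℝ, Tendsto (fun k => g (t k)) atTop (𝓝 0) := fun g => by
    have h1 := (weak_e g).comp (tendsto_atTop_mono (f := id) (g := fun k => 4 * (k + M))
      (fun l => by simp only [id]; omega) tendsto_id)
    have h2 := ((weak_e g).comp (tendsto_atTop_mono (f := id) (g := fun k => 4 * (k + M) + 1)
      (fun l => by simp only [id]; omega) tendsto_id)).const_mul lam
    simpa [ht, Function.comp_def] using h1.sub h2
  set ζ : ℕ → X := fun k => R (u k) - t k with hζ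
  have hζnull : ∀ a, Tendsto (fun k => val (ζ k) a) atTop (𝓝 0) := fun a => by
    refine (hwk ((coord a).comp (R * G * D' - 1))).congr fun k => ?_
    rw [ContinuousLinearMap.comp_apply]
    simp [hζ, hu]
  have hQζ : Tendsto (fun k => Q (ζ k)) atTop (𝓝 0) := by
    have h1 := (head_tendsto hζnull (2 * M)).norm
    rw [norm_zero] at h1
    refine squeeze_zero_norm (fun k => norm_mono fun a => ?_) h1
    rw [val_Q, val_P]
    split_ifs with h2 h3
    · exact le_rfl
    · have hq : Qp M a := ⟨h2, by omega⟩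
      have h4 := congrArg (fun z => val z a) (hRu k)
      simp only [val_P_pos _ hq] at h4
      simp [hζ, h4]
    · simp
    · simp
  have htn : ∀ k, ‖t k‖ ≤ 1 + |lam| := fun k => by
    refine (norm_sub_le _ _).trans ?_
    rw [norm_smul, norm_e, norm_e, mul_one, Real.norm_eq_abs]
  have hJζ : Tendsto (fun k => J (ζ k)) atTop (𝓝 0) := by
    simpa [J_Q] using tendsto_op hQζ J
  have hζR : RR ζ := by
    have hC : 0 < (‖R * G * D' - 1‖ + 1) * (1 + |lam|) := by positivity
    refine ⟨⟨_, hC, fun k => ?_, hζnull, fun i => ?_⟩, hJζ⟩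
    · have h1 := (R * G * D' - 1).le_of_opNorm_le_of_le le_rfl (htn k)
      have h2 : (R * G * D' - 1) (t k) = ζ k := by simp [hζ, hu]
      rw [h2] at h1
      nlinarith [abs_nonneg lam]
    · have h1 := hQζ.norm
      rw [norm_zero] at h1
      filter_upwards [h1.eventually (eventually_le_nhds (div_pos hC (mR_pos i)))] with k hk φ hφ
      exact ((hφ.apply_Q _).trans (le_norm hφ.K _)).trans hk
  have hQS : Tendsto (fun k => Q (S (ζ k))) atTop (𝓝 0) := by
    simpa using (KL hζR S).add (tendsto_op hQζ (dg S))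
  have hrest : Tendsto (fun k => Q (S (ζ k)) + lam • Q (S (J (ζ k)))) atTop (𝓝 0) := by
    simpa using hQS.add ((tendsto_op (tendsto_op hJζ S) Q).const_smul lam)
  have hle : ∀ k, lam ≤ ‖R‖ * (‖S‖ + ‖Q (S (ζ k)) + lam • Q (S (J (ζ k)))‖) := fun k => by
    have h1 : u k = Q (S (e (4 * (k + M)))) + (Q (S (ζ k)) + lam • Q (S (J (ζ k)))) := by
      have h2 := h (u k)
      have h3 : R (u k) = t k + ζ k := by simp [hζ]
      have h4 : t k + ζ k + lam • J (t k + ζ k) = e (4 * (k + M)) + (ζ k + lam • J (ζ k)) := by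
        simp only [ht, map_add, map_sub, map_smul, J_e0, J_e1, smul_zero, sub_zero, smul_add]
        abel
      rw [h3, h4] at h2
      rw [← Q_eq_self (x := u k) fun a ha => (huq k a ha).1, ← h2]
      simp
    have h2 : ‖Q (S (e (4 * (k + M))))‖ ≤ ‖S‖ := by
      simpa [norm_e] using (norm_Q_le _).trans (S.le_opNorm (e (4 * (k + M))))
    have h3 : ‖u k‖ ≤ ‖S‖ + ‖Q (S (ζ k)) + lam • Q (S (J (ζ k)))‖ := by
      rw [h1]; exact (norm_add_le _ _).trans (add_le_add h2 le_rfl)
    have h4 : lam ≤ ‖t k‖ := by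
      refine le_trans ?_ (abs_le_norm (t k) (4 * (k + M) + 1))
      simp [ht, val_e, le_abs_self]
    rw [← hRu k] at h4
    exact h4.trans ((norm_P_le _ _).trans (R.le_of_opNorm_le_of_le le_rfl h3))
  have hlim := (hrest.norm.const_add ‖S‖).const_mul ‖R‖
  rw [norm_zero, add_zero] at hlim
  exact ge_of_tendsto' hlim hle

lemma val_J_e (a : ℕ) : val (J (e a)) a = 0 := by
  simp only [val_J_apply, val_e]
  split_ifs <;> first | omega | rfl

theorem main : ∃ (X : Type) (_ : NormedAddCommGroup X) (_ : NormedSpace ℝ X)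
    (_ : CompleteSpace X) (e : ℕ → X) (e' : ℕ → (X →L[ℝ] ℝ)),
      (∀ i j : ℕ, e' i (e j) = if i = j then (1 : ℝ) else 0) ∧
      (∀ x : X, Tendsto (fun N : ℕ => ∑ n ∈ Finset.range N, e' n x • e n) atTop (𝓝 x)) ∧
      (∀ n : ℕ, ‖e n‖ = 1) ∧
      (∀ T : X →L[ℝ] X, (∃ δ : ℝ, 0 < δ ∧ ∀ n : ℕ, δ ≤ |e' n (T (e n))|) →
        ∃ R S : X →L[ℝ] X, S.comp (T.comp R) = ContinuousLinearMap.id ℝ X) ∧
      ¬ (∀ δ : ℝ, 0 < δ → ∃ K : ℝ, 1 ≤ K ∧ ∀ T : X →L[ℝ] X, (∀ n : ℕ, δ ≤ |e' n (T (e n))|) →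
          ∀ ε : ℝ, 0 < ε → ∃ R S : X →L[ℝ] X,
            S.comp (T.comp R) = ContinuousLinearMap.id ℝ X ∧ ‖R‖ * ‖S‖ ≤ K + ε) := by
  refine ⟨X, inferInstance, inferInstance, inferInstance, e, coord, fun i j => val_e j i,
    schauder, norm_e, fun T ⟨_, hδ, hT⟩ => ?_, fun h => ?_⟩
  · obtain ⟨A, B, hAB⟩ := factorization T hδ hT
    exact ⟨B, A, hAB⟩
  · obtain ⟨K, -, hK⟩ := h 1 one_pos
    obtain ⟨R, S, h1, h2⟩ := hK (1 + (K + 2) • J) (fun a => by simp [val_J_e, val_e]) 1 one_pos
    have h3 := nonuniform (K + 2) R S fun x => by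
      simpa using congrArg (fun T : X →L[ℝ] X => T x) h1
    linarith

end Pool.Agent.H145Z.FP
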